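import Pool.Agent.H370R3.BX.Stmts

set_option autoImplicit false

open Set Filter Topology unitInterval
open scoped Topology.Homotopy

namespace Pool.Agent.H370R3.BX

/-- the fundamental group of the space of generalized loops is commutative -/
theorem comm_genLoop (N X : Type) [TopologicalSpace X] (x : X) [DecidableEq N] [Nontrivial N]
    (i : N) (u v : FundamentalGroup (Ω^ { j // j ≠ i } X x) GenLoop.const) : u * v = v * u := by
  let e := homotopyGroupEquivFundamentalGroup (X := X) (x := x) i
  have key : ∀ a b : HomotopyGroup N X x,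
      e.symm (e a * e b) = e.symm (e b * e a) := by
    intro a b
    let m := fun (G) (_ : Group G) ↦ ((· * ·) : G → G → G)
    have h1 : m (HomotopyGroup N X x) (HomotopyGroup.auxGroup i) =
        m (HomotopyGroup N X x) (HomotopyGroup.group N) :=
      congr_arg (m <| HomotopyGroup N X x) <| HomotopyGroup.auxGroup_indep i (Classical.arbitrary N)
    have h2 : ∀ a b : HomotopyGroup N X x, e.symm (e a * e b) = a * b := by
      intro a b
      exact congr_fun₂ h1 a b
    have h3 : ∀ a b : HomotopyGroup N X x,
        m _ (HomotopyGroup.group N) a b = m _ (HomotopyGroup.group N) b a := by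
      intro a b
      have := @mul_comm (HomotopyGroup N X x)
        (HomotopyGroup.commGroup.toCommMonoid.toCommSemigroup.toCommMagma) a b
      exact this
    rw [h2, h2]
    exact h3 a b
  have := key (e.symm u) (e.symm v)
  simpa using this

/-- commutativity passes to a homeomorphic space, in terms of loops -/
theorem comm_transport {X Z : Type} [TopologicalSpace X] [TopologicalSpace Z] (x : X) (z : Z)
    (g : C(X, Z)) (r : C(Z, X)) (hg : g x = z) (hrg : ∀ y, r (g y) = y)
    (hZ : ∀ u v : FundamentalGroup Z z, u * v = v * u) (a b : FundamentalGroup X x) :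
    a * b = b * a := by
  subst hg
  have hinj : Function.Injective (FundamentalGroup.map g x) := by
    intro a b hab
    obtain ⟨p, rfl⟩ := Path.Homotopic.Quotient.mk_surjective a
    obtain ⟨q, rfl⟩ := Path.Homotopic.Quotient.mk_surjective b
    have h1 : Path.Homotopic.Quotient.mk (p.map g.continuous) =
        Path.Homotopic.Quotient.mk (q.map g.continuous) := hab
    have h2 : ((p.map g.continuous).map r.continuous).Homotopic
        ((q.map g.continuous).map r.continuous) := (Path.Homotopic.Quotient.exact h1).map r
    have h3 := h2.pathCast (hrg x).symm (hrg x).symm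
    refine Path.Homotopic.Quotient.eq.2 ?_
    have e1 : ∀ p : Path x x,
        ((p.map g.continuous).map r.continuous).cast (hrg x).symm (hrg x).symm = p := by
      intro p
      ext t
      exact hrg (p t)
    rwa [e1, e1] at h3
  apply hinj
  rw [map_mul, map_mul, hZ]

/-- `TaskComm` -/
theorem taskComm : TaskComm := by
  intro n Y _ y0 a b
  let e : { j : Fin (n + 2) // j ≠ 0 } ≃ Fin (n + 1) := (finSuccAboveEquiv (0 : Fin (n + 2))).symm
  let H : Ω^ { j : Fin (n + 2) // j ≠ 0 } Y y0 ≃ₜ Ω^ (Fin (n + 1)) Y y0 := GenLoop.congr y0 e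
  let g : C(RC (Fin (n + 1) → I) (bdry (n + 1)) Y y0, Ω^ { j : Fin (n + 2) // j ≠ 0 } Y y0) :=
    ⟨fun f => H.symm f, H.symm.continuous⟩
  let r : C(Ω^ { j : Fin (n + 2) // j ≠ 0 } Y y0, RC (Fin (n + 1) → I) (bdry (n + 1)) Y y0) :=
    ⟨fun f => H f, H.continuous⟩
  exact comm_transport (RC.base (Fin (n + 1) → I) (bdry (n + 1)) Y y0) GenLoop.const g r rfl
    (fun y => H.apply_symm_apply y) (comm_genLoop (Fin (n + 2)) Y y0 0) a b

end Pool.Agent.H370R3.BX
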