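import Pool.Agent.H370R3.BX.Stmts

/-!
Task `TaskCube` of project BX (helper370), done by helper49: the cube retracts onto the bottom
and the sides (radial projection from a point above the cube).
-/

set_option autoImplicit false

open Set Filter Topology unitInterval

namespace Pool.Agent.H370R3.BX.Cube

open Pool.Agent.H370R3.BX

/-- centred coordinates -/
noncomputable def xx {n : ℕ} (t : Fin n → I) : Fin n → ℝ := fun i => 2 * (t i : ℝ) - 1

/-- the scaling factor -/
noncomputable def mm {n : ℕ} (p : I × (Fin n → I)) : ℝ := max ‖xx p.2‖ ((2 - (p.1 : ℝ)) / 2)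

theorem continuous_xx {n : ℕ} : Continuous (xx (n := n)) := by
  unfold xx
  fun_prop

theorem continuous_mm {n : ℕ} : Continuous (mm (n := n)) := by
  unfold mm
  exact (continuous_xx.comp continuous_snd).norm.max (by fun_prop)

theorem abs_xx_le {n : ℕ} (t : Fin n → I) (i : Fin n) : |xx t i| ≤ 1 := by
  have h0 := (t i).2.1
  have h1 := (t i).2.2
  rw [abs_le]
  unfold xx
  constructor <;> linarith

theorem norm_xx_le {n : ℕ} (t : Fin n → I) : ‖xx t‖ ≤ 1 := by
  rw [pi_norm_le_iff_of_nonneg zero_le_one]
  intro i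
  rw [Real.norm_eq_abs]
  exact abs_xx_le t i

theorem mm_le {n : ℕ} (p : I × (Fin n → I)) : mm p ≤ 1 := by
  unfold mm
  have h0 := p.1.2.1
  exact max_le (norm_xx_le _) (by linarith)

theorem le_mm {n : ℕ} (p : I × (Fin n → I)) : (2 - (p.1 : ℝ)) / 2 ≤ mm p := le_max_right _ _

theorem norm_le_mm {n : ℕ} (p : I × (Fin n → I)) : ‖xx p.2‖ ≤ mm p := le_max_left _ _

theorem mm_pos {n : ℕ} (p : I × (Fin n → I)) : 0 < mm p := by
  have h1 := p.1.2.2
  have := le_mm p
  linarith

theorem abs_le_mm {n : ℕ} (p : I × (Fin n → I)) (i : Fin n) : |xx p.2 i| ≤ mm p := by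
  refine le_trans ?_ (norm_le_mm p)
  rw [← Real.norm_eq_abs]
  exact norm_le_pi_norm _ i

/-- first coordinate -/
noncomputable def f1 {n : ℕ} (p : I × (Fin n → I)) : I :=
  ⟨2 - (2 - (p.1 : ℝ)) / mm p, by
    have h0 := p.1.2.1
    have h1 := p.1.2.2
    have hm := mm_pos p
    have h2 := le_mm p
    have h3 := mm_le p
    constructor
    · rw [sub_nonneg, div_le_iff₀ hm]; linarith
    · have : 1 ≤ (2 - (p.1 : ℝ)) / mm p := by
        rw [le_div_iff₀ hm]; linarith
      linarith⟩

/-- the other coordinates -/
noncomputable def f2 {n : ℕ} (p : I × (Fin n → I)) (i : Fin n) : I :=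
  ⟨(xx p.2 i / mm p + 1) / 2, by
    have hm := mm_pos p
    have h := abs_le.mp (abs_le_mm p i)
    have h1 : -1 ≤ xx p.2 i / mm p := by rw [le_div_iff₀ hm]; linarith
    have h2 : xx p.2 i / mm p ≤ 1 := by rw [div_le_iff₀ hm]; linarith
    constructor <;> linarith⟩

/-- the retraction -/
noncomputable def rr (n : ℕ) : C(I × (Fin n → I), I × (Fin n → I)) where
  toFun p := (f1 p, f2 p)
  continuous_toFun := by
    refine Continuous.prodMk ?_ ?_
    · refine Continuous.subtype_mk ?_ _
      refine continuous_const.sub (Continuous.div ?_ continuous_mm fun p => (mm_pos p).ne')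
      fun_prop
    · refine continuous_pi fun i => Continuous.subtype_mk ?_ _
      refine Continuous.div_const (Continuous.add (Continuous.div ?_ continuous_mm
        fun p => (mm_pos p).ne') continuous_const) _
      exact (continuous_apply i).comp (continuous_xx.comp continuous_snd)

theorem eq_of_mm_one {n : ℕ} (p : I × (Fin n → I)) (h : mm p = 1) : rr n p = p := by
  refine Prod.ext ?_ ?_
  · apply Subtype.ext
    show 2 - (2 - (p.1 : ℝ)) / mm p = p.1
    rw [h]; ring
  · funext i
    apply Subtype.ext
    show (xx p.2 i / mm p + 1) / 2 = (p.2 i : ℝ)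
    rw [h]
    unfold xx
    ring

theorem cube_ok : TaskCube := by
  intro n
  refine ⟨rr n, ?_, ?_, ?_⟩
  · intro p
    rcases max_choice ‖xx p.2‖ ((2 - (p.1 : ℝ)) / 2) with h | h
    · right
      have hm := mm_pos p
      have hmc : mm p = ‖xx p.2‖ := h
      have : ∃ i, mm p ≤ ‖xx p.2 i‖ := by
        by_contra hcon
        push Not at hcon
        have := (pi_norm_lt_iff hm).mpr hcon
        rw [← hmc] at this
        exact lt_irrefl _ this
      obtain ⟨i, hi⟩ := this
      have hi2 : |xx p.2 i| = mm p := le_antisymm (abs_le_mm p i) (by rwa [Real.norm_eq_abs] at hi)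
      refine ⟨i, ?_⟩
      rcases abs_choice (xx p.2 i) with h3 | h3
      · right
        apply Subtype.ext
        show (xx p.2 i / mm p + 1) / 2 = 1
        rw [← hi2, h3]
        have : xx p.2 i ≠ 0 := by
          intro h0; rw [h0, abs_zero] at hi2; exact hm.ne hi2
        rw [div_self this]; norm_num
      · left
        apply Subtype.ext
        show (xx p.2 i / mm p + 1) / 2 = 0
        rw [← hi2, h3]
        have : xx p.2 i ≠ 0 := by
          intro h0; rw [h0, abs_zero] at hi2; exact hm.ne hi2
        rw [div_neg, div_self this]; norm_num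
    · left
      apply Subtype.ext
      show 2 - (2 - (p.1 : ℝ)) / mm p = 0
      have hmc : mm p = (2 - (p.1 : ℝ)) / 2 := h
      have hm := mm_pos p
      rw [sub_eq_zero, eq_comm, div_eq_iff hm.ne', hmc]
      ring
  · intro d
    apply eq_of_mm_one
    refine le_antisymm (mm_le _) ?_
    have := le_mm ((0 : I), d)
    simpa using this
  · intro s b hb
    apply eq_of_mm_one
    refine le_antisymm (mm_le _) ?_
    obtain ⟨i, hi⟩ := hb
    have h1 := abs_le_mm (s, b) i
    have h2 : |xx b i| = 1 := by
      unfold xx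
      rcases hi with h | h <;> rw [h] <;> norm_num
    rw [← h2]
    exact h1

end Pool.Agent.H370R3.BX.Cube
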