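import Mathlib

set_option autoImplicit false
set_option maxHeartbeats 4000000

open Set Filter Topology unitInterval

namespace Pool.Agent.H370R3.BX

/-! Project BX (helper370): MP_653b6e_gt, mod 2 connectivity against coindex of `B_0(G)`. -/

noncomputable section

/-! ### Relative loop groups -/

/-- continuous maps `D → Y` which are `y0` on `B` -/
def RC (D : Type) [TopologicalSpace D] (B : Set D) (Y : Type) [TopologicalSpace Y] (y0 : Y) : Type :=
  {f : C(D, Y) // ∀ b ∈ B, f b = y0}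

instance (D : Type) [TopologicalSpace D] (B : Set D) (Y : Type) [TopologicalSpace Y] (y0 : Y) :
    TopologicalSpace (RC D B Y y0) := inferInstanceAs (TopologicalSpace {f : C(D, Y) // ∀ b ∈ B, f b = y0})

/-- the constant map -/
def RC.base (D : Type) [TopologicalSpace D] (B : Set D) (Y : Type) [TopologicalSpace Y] (y0 : Y) :
    RC D B Y y0 := ⟨ContinuousMap.const D y0, fun _ _ => rfl⟩

/-- composition with a map of pairs -/
def RC.pull {D D' : Type} [TopologicalSpace D] [TopologicalSpace D'] (B : Set D) (B' : Set D')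
    (Y : Type) [TopologicalSpace Y] (y0 : Y) (φ : C(D', D)) (h : ∀ b ∈ B', φ b ∈ B) :
    C(RC D B Y y0, RC D' B' Y y0) where
  toFun f := ⟨f.1.comp φ, fun b hb => f.2 _ (h b hb)⟩
  continuous_toFun := by
    refine Continuous.subtype_mk ?_ _
    exact (ContinuousMap.continuous_precomp φ).comp continuous_subtype_val

/-- the relative loop group: homotopy classes of loops in the space of maps `(D,B) → (Y,y0)` -/
abbrev LG (D : Type) [TopologicalSpace D] (B : Set D) (Y : Type) [TopologicalSpace Y] (y0 : Y) : Type :=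
  FundamentalGroup (RC D B Y y0) (RC.base D B Y y0)

/-- pull-back along a map of pairs -/
def LG.pull {D D' : Type} [TopologicalSpace D] [TopologicalSpace D'] {B : Set D} (B' : Set D')
    {Y : Type} [TopologicalSpace Y] {y0 : Y} (φ : C(D', D)) (h : ∀ b ∈ B', φ b ∈ B) :
    LG D B Y y0 →* LG D' B' Y y0 :=
  FundamentalGroup.map (RC.pull B B' Y y0 φ h) (RC.base D B Y y0)

/-- the loop given by a map `I × D → Y` -/
def LG.loop {D : Type} [TopologicalSpace D] (B : Set D) {Y : Type} [TopologicalSpace Y] {y0 : Y}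
    (h : C(I × D, Y)) (h0 : ∀ d, h (0, d) = y0) (h1 : ∀ d, h (1, d) = y0)
    (hB : ∀ t, ∀ b ∈ B, h (t, b) = y0) : Path (RC.base D B Y y0) (RC.base D B Y y0) where
  toFun t := ⟨h.curry t, fun b hb => hB t b hb⟩
  continuous_toFun := Continuous.subtype_mk h.curry.continuous _
  source' := by
    apply Subtype.ext; ext d; exact h0 d
  target' := by
    apply Subtype.ext; ext d; exact h1 d

/-- its class -/
def LG.mk {D : Type} [TopologicalSpace D] (B : Set D) {Y : Type} [TopologicalSpace Y] {y0 : Y}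
    (h : C(I × D, Y)) (h0 : ∀ d, h (0, d) = y0) (h1 : ∀ d, h (1, d) = y0)
    (hB : ∀ t, ∀ b ∈ B, h (t, b) = y0) : LG D B Y y0 :=
  FundamentalGroup.fromPath (Path.Homotopic.Quotient.mk (LG.loop B h h0 h1 hB))

/-- restriction of the subset: `LG D B → LG D C` for `C ⊆ B` -/
def LG.less {D : Type} [TopologicalSpace D] {B : Set D} (C : Set D) {Y : Type} [TopologicalSpace Y]
    {y0 : Y} (h : C ⊆ B) : LG D B Y y0 →* LG D C Y y0 :=
  LG.pull C (ContinuousMap.id D) h

/-- `T1` every class is the class of a map `I × D → Y` -/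
def TaskMkSurj : Prop := ∀ (D : Type) [TopologicalSpace D] [CompactSpace D] [T2Space D] (B : Set D)
    (Y : Type) [TopologicalSpace Y] (y0 : Y) (x : LG D B Y y0),
  ∃ (h : C(I × D, Y)) (h0 : ∀ d, h (0, d) = y0) (h1 : ∀ d, h (1, d) = y0)
    (hB : ∀ t, ∀ b ∈ B, h (t, b) = y0), x = LG.mk B h h0 h1 hB

/-- `T2` equality of classes is homotopy (parameter `s` first, loop parameter `t` second) -/
def TaskMkEq : Prop := ∀ (D : Type) [TopologicalSpace D] [CompactSpace D] [T2Space D] (B : Set D)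
    (Y : Type) [TopologicalSpace Y] (y0 : Y)
    (h : C(I × D, Y)) (h0 : ∀ d, h (0, d) = y0) (h1 : ∀ d, h (1, d) = y0)
    (hB : ∀ t, ∀ b ∈ B, h (t, b) = y0)
    (k : C(I × D, Y)) (k0 : ∀ d, k (0, d) = y0) (k1 : ∀ d, k (1, d) = y0)
    (kB : ∀ t, ∀ b ∈ B, k (t, b) = y0),
  LG.mk B h h0 h1 hB = LG.mk B k k0 k1 kB ↔
    ∃ H : C(I × (I × D), Y), (∀ t d, H (0, (t, d)) = h (t, d)) ∧ (∀ t d, H (1, (t, d)) = k (t, d)) ∧
      (∀ s d, H (s, (0, d)) = y0) ∧ (∀ s d, H (s, (1, d)) = y0) ∧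
      ∀ s t, ∀ b ∈ B, H (s, (t, b)) = y0

/-- homotopy invariance -/
def TaskHtpy : Prop := ∀ (D D' : Type) [TopologicalSpace D] [CompactSpace D] [T2Space D]
    [TopologicalSpace D'] [CompactSpace D'] [T2Space D'] (B : Set D) (B' : Set D')
    (Y : Type) [TopologicalSpace Y] (y0 : Y) (φ ψ : C(D', D)) (hφ : ∀ b ∈ B', φ b ∈ B)
    (hψ : ∀ b ∈ B', ψ b ∈ B) (Φ : C(I × D', D)), (∀ d, Φ (0, d) = φ d) → (∀ d, Φ (1, d) = ψ d) →
    (∀ s, ∀ b ∈ B', Φ (s, b) ∈ B) → ∀ x : LG D B Y y0, LG.pull B' φ hφ x = LG.pull B' ψ hψ x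

/-- the pair `(D,B)` has the homotopy extension property, by a retraction -/
def Ret (D : Type) [TopologicalSpace D] (B : Set D) : Prop :=
  ∃ r : C(I × D, I × D), (∀ p, (r p).1 = 0 ∨ (r p).2 ∈ B) ∧ (∀ d, r (0, d) = (0, d)) ∧
    ∀ s, ∀ b ∈ B, r (s, b) = (s, b)

/-- exactness -/
def TaskExact : Prop := ∀ (D : Type) [TopologicalSpace D] [CompactSpace D] [T2Space D]
    (B C : Set D) (_ : IsClosed B) (hCB : C ⊆ B) (_ : Ret D B)
    (Y : Type) [TopologicalSpace Y] (y0 : Y) (x : LG D C Y y0),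
    LG.pull {b : ↥B | b.1 ∈ C} (⟨Subtype.val, continuous_subtype_val⟩ : C(↥B, D))
      (fun _ hb => hb) x = 1 → ∃ x' : LG D B Y y0, LG.less C hCB x' = x

/-! ### Cubes and cells -/

/-- boundary of the cube -/
def bdry (n : ℕ) : Set (Fin n → I) := {t | ∃ i, t i = 0 ∨ t i = 1}

/-- the faces of codimension two of the cube -/
def bd2 (n : ℕ) : Set (Fin n → I) :=
  {t | ∃ i j, i ≠ j ∧ (t i = 0 ∨ t i = 1) ∧ (t j = 0 ∨ t j = 1)}

/-- `D` is obtained from `B` by attaching `n`-cubes -/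
structure RelCells (D : Type) [TopologicalSpace D] (B : Set D) (J : Type) (n : ℕ)
    (κ : J → C(Fin n → I, D)) : Prop where
  closed : IsClosed B
  bd : ∀ j t, κ j t ∈ B ↔ t ∈ bdry n
  inj : ∀ j j' t t', κ j t = κ j' t' → κ j t ∉ B → j = j' ∧ t = t'
  cover : ∀ d, d ∉ B → ∃ j t, κ j t = d

/-- the cube and its boundary -/
def TaskCube : Prop := ∀ n : ℕ, Ret (Fin n → I) (bdry n)

/-- gluing -/
def TaskGlue : Prop := ∀ (D : Type) [TopologicalSpace D] [CompactSpace D] [T2Space D] (B : Set D)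
    (J : Type) [Finite J] (n : ℕ) (κ : J → C(Fin n → I, D)), RelCells D B J n κ →
    ∀ (S : Type) [TopologicalSpace S] [CompactSpace S] (T : Type) [TopologicalSpace T]
      (gB : C(S × ↥B, T)) (g : J → C(S × (Fin n → I), T)),
      (∀ j s t (ht : κ j t ∈ B), g j (s, t) = gB (s, ⟨κ j t, ht⟩)) →
      ∃ G : C(S × D, T), (∀ s (b : ↥B), G (s, b.1) = gB (s, b)) ∧
        ∀ j s t, G (s, κ j t) = g j (s, t)

def TaskRetCells : Prop := ∀ (D : Type) [TopologicalSpace D] [CompactSpace D] [T2Space D] (B : Set D)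
    (J : Type) [Finite J] (n : ℕ) (κ : J → C(Fin n → I, D)), RelCells D B J n κ → Ret D B

/-- the group of a cell, `π_{n+1}(Y)` -/
abbrev PiC (n : ℕ) (Y : Type) [TopologicalSpace Y] (y0 : Y) : Type := LG (Fin n → I) (bdry n) Y y0

def TaskCellInj : Prop := ∀ (D : Type) [TopologicalSpace D] [CompactSpace D] [T2Space D] (B : Set D)
    (J : Type) [Finite J] (n : ℕ) (κ : J → C(Fin n → I, D)) (h : RelCells D B J n κ)
    (Y : Type) [TopologicalSpace Y] (y0 : Y) (x : LG D B Y y0),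
    (∀ j, LG.pull (bdry n) (κ j) (fun t ht => (h.bd j t).2 ht) x = 1) → x = 1

def TaskCellSurj : Prop := ∀ (D : Type) [TopologicalSpace D] [CompactSpace D] [T2Space D] (B : Set D)
    (J : Type) [Finite J] (n : ℕ) (κ : J → C(Fin n → I, D)) (h : RelCells D B J n κ)
    (Y : Type) [TopologicalSpace Y] (y0 : Y) (c : J → PiC n Y y0),
    ∃ x : LG D B Y y0, ∀ j, LG.pull (bdry n) (κ j) (fun t ht => (h.bd j t).2 ht) x = c j

/-- commutativity -/
def TaskComm : Prop := ∀ (n : ℕ) (Y : Type) [TopologicalSpace Y] (y0 : Y) (a b : PiC (n + 1) Y y0),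
    a * b = b * a

/-- the facet `t_i = e` of the cube -/
def facet (n : ℕ) (i : Fin (n + 1)) (e : I) : C(Fin n → I, Fin (n + 1) → I) where
  toFun t := Fin.insertNth i e t
  continuous_toFun := by
    refine continuous_pi fun j => ?_
    rcases Fin.eq_self_or_eq_succAbove i j with rfl | ⟨k, rfl⟩
    · simpa using continuous_const
    · simpa using continuous_apply k

theorem facet_mem (n : ℕ) (i : Fin (n + 1)) (e : I) (he : e = 0 ∨ e = 1) (t : Fin n → I)
    (ht : t ∈ bdry n) : facet n i e t ∈ bd2 (n + 1) := by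
  obtain ⟨k, hk⟩ := ht
  refine ⟨i, i.succAbove k, (Fin.succAbove_ne i k).symm, ?_, ?_⟩
  · simpa [facet] using he
  · simpa [facet] using hk

/-- restriction to the facets -/
def fc0 {n : ℕ} {Y : Type} [TopologicalSpace Y] {y0 : Y} (i : Fin (n + 1)) :
    LG (Fin (n + 1) → I) (bd2 (n + 1)) Y y0 →* PiC n Y y0 :=
  LG.pull (bdry n) (facet n i 0) (facet_mem n i 0 (Or.inl rfl))

def fc1 {n : ℕ} {Y : Type} [TopologicalSpace Y] {y0 : Y} (i : Fin (n + 1)) :
    LG (Fin (n + 1) → I) (bd2 (n + 1)) Y y0 →* PiC n Y y0 :=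
  LG.pull (bdry n) (facet n i 1) (facet_mem n i 1 (Or.inr rfl))

/-- degenerate elements -/
def TaskDegen : Prop := ∀ (n : ℕ) (Y : Type) [TopologicalSpace Y] (y0 : Y) (i : Fin (n + 1))
    (a : PiC n Y y0), ∃ y : LG (Fin (n + 1) → I) (bd2 (n + 1)) Y y0,
      fc0 i y = a ∧ fc1 i y = a ∧ ∀ j, j ≠ i → fc0 j y = 1 ∧ fc1 j y = 1

/-- connections, by the maximum of two consecutive coordinates -/
def TaskConn : Prop := ∀ (n : ℕ) (Y : Type) [TopologicalSpace Y] (y0 : Y) (i : Fin n)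
    (a : PiC n Y y0), ∃ y : LG (Fin (n + 1) → I) (bd2 (n + 1)) Y y0,
      fc0 i.castSucc y = a ∧ fc0 i.succ y = a ∧ (∀ j, j ≠ i.castSucc → j ≠ i.succ → fc0 j y = 1) ∧
        ∀ j, fc1 j y = 1

/-- an element of the cube which is trivial on all facets but one is trivial on this facet -/
def TaskBox : Prop := TaskHtpy → TaskCube → TaskCellInj → ∀ (n : ℕ) (Y : Type) [TopologicalSpace Y]
    (y0 : Y) (y : LG (Fin (n + 1) → I) (bd2 (n + 1)) Y y0),
    (∀ j, fc0 j y = 1) → (∀ j, j ≠ Fin.last n → fc1 j y = 1) → fc1 (Fin.last n) y = 1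

/-- homotopy addition for cubes -/
def HAT : Prop := ∀ (n : ℕ) (Y : Type) [TopologicalSpace Y] (y0 : Y)
    (y : LG (Fin (n + 1) → I) (bd2 (n + 1)) Y y0) (P : Type) [AddCommGroup P] (θ : PiC n Y y0 → P),
    (∀ a b, θ (a * b) = θ a + θ b) →
    ∑ i : Fin (n + 1), (-1 : ℤ) ^ (i : ℕ) • (θ (fc1 i y) - θ (fc0 i y)) = 0

def TaskHAT : Prop := TaskDegen → TaskConn → (∀ (n : ℕ) (Y : Type) [TopologicalSpace Y]
    (y0 : Y) (y : LG (Fin (n + 1) → I) (bd2 (n + 1)) Y y0),
    (∀ j, fc0 j y = 1) → (∀ j, j ≠ Fin.last n → fc1 j y = 1) → fc1 (Fin.last n) y = 1) → HAT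

/-! ### Simplicial complexes with cubical characteristic maps -/

/-- skeleta `X n` of a compact space, attached by `n`-simplices `E n` through maps of cubes -/
structure SCx (A : Type) [TopologicalSpace A] where
  X : ℕ → Set A
  E : ℕ → Type
  κ : (n : ℕ) → E n → C(Fin n → I, A)
  d : (n : ℕ) → E (n + 1) → Fin (n + 2) → E n

/-- the strict lower skeleton -/
def SCx.Xl {A : Type} [TopologicalSpace A] (K : SCx A) (n : ℕ) : Set A := {a | ∃ m, m < n ∧ a ∈ K.X m}

/-- the axioms -/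
structure SCx.Ok {A : Type} [TopologicalSpace A] (K : SCx A) : Prop where
  fin : ∀ n, Finite (K.E n)
  closed : ∀ n, IsClosed (K.X n)
  mono : ∀ n, K.X n ⊆ K.X (n + 1)
  mem : ∀ n e t, K.κ n e t ∈ K.X n
  one : ∀ n (e : K.E (n + 1)) (j : Fin (n + 1)) t,
    K.κ (n + 1) e (Fin.insertNth j 1 t) = K.κ n (K.d n e j.castSucc) t
  last : ∀ n (e : K.E (n + 1)) t,
    K.κ (n + 1) e (Fin.insertNth (Fin.last n) 0 t) = K.κ n (K.d n e (Fin.last (n + 1))) t
  zero : ∀ n (e : K.E (n + 1)) (j : Fin (n + 1)) t,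
    K.κ (n + 1) e (Fin.insertNth j 0 t) ∈ K.X j
  bd : ∀ n e t, K.κ n e t ∈ K.Xl n ↔ t ∈ bdry n
  inj : ∀ n e e' t t', K.κ n e t = K.κ n e' t' → K.κ n e t ∉ K.Xl n → e = e' ∧ t = t'
  cover : ∀ n, ∀ a ∈ K.X n, a ∉ K.Xl n → ∃ e t, K.κ n e t = a

/-- the characteristic map into the skeleton -/
def SCx.κ' {A : Type} [TopologicalSpace A] (K : SCx A) (hK : K.Ok) (n : ℕ) (e : K.E n) :
    C(Fin n → I, ↥(K.X n)) :=
  ⟨fun t => ⟨K.κ n e t, hK.mem n e t⟩, (K.κ n e).continuous.subtype_mk _⟩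

/-- the loop group of the skeleton `X n` relative to `X m` -/
abbrev SCx.GG {A : Type} [TopologicalSpace A] (K : SCx A) (n : ℕ) (L : Set A) (Y : Type)
    [TopologicalSpace Y] (y0 : Y) : Type := LG ↥(K.X n) {x | x.1 ∈ L} Y y0

/-- inclusion of skeleta -/
def SCx.inc {A : Type} [TopologicalSpace A] (K : SCx A) {m n : ℕ} (h : K.X m ⊆ K.X n) :
    C(↥(K.X m), ↥(K.X n)) := ⟨fun x => ⟨x.1, h x.2⟩, continuous_subtype_val.subtype_mk _⟩

/-- restriction to a lower skeleton, same subset -/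
def SCx.res {A : Type} [TopologicalSpace A] (K : SCx A) {m n : ℕ} (h : K.X m ⊆ K.X n) (L : Set A)
    {Y : Type} [TopologicalSpace Y] {y0 : Y} : K.GG n L Y y0 →* K.GG m L Y y0 :=
  LG.pull {x | x.1 ∈ L} (K.inc h) (fun _ hb => hb)

/-- forgetting the subset -/
def SCx.forget {A : Type} [TopologicalSpace A] (K : SCx A) {n : ℕ} {L L' : Set A} (h : L' ⊆ L)
    {Y : Type} [TopologicalSpace Y] {y0 : Y} : K.GG n L Y y0 →* K.GG n L' Y y0 :=
  LG.less (B := {x : ↥(K.X n) | x.1 ∈ L}) {x : ↥(K.X n) | x.1 ∈ L'} (fun _ hx => h hx)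

/-- the cochain of an element of the relative group `(X n, X (n-1))` -/
def SCx.coch {A : Type} [TopologicalSpace A] (K : SCx A) (hK : K.Ok) {n : ℕ}
    {Y : Type} [TopologicalSpace Y] {y0 : Y} (z : K.GG n (K.Xl n) Y y0) (e : K.E n) : PiC n Y y0 :=
  LG.pull (bdry n) (K.κ' hK n e) (fun t ht => (hK.bd n e t).2 ht) z

/-- cocycles: the cochain of a restriction satisfies the cocycle condition -/
def TaskZ : Prop := HAT → ∀ (A : Type) [TopologicalSpace A] [CompactSpace A] [T2Space A]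
    (K : SCx A) (hK : K.Ok) (n : ℕ) (Y : Type) [TopologicalSpace Y] (y0 : Y)
    (z : K.GG (n + 1) (K.Xl n) Y y0) (P : Type) [AddCommGroup P] (θ : PiC n Y y0 → P),
    (∀ a b, θ (a * b) = θ a + θ b) → ∀ e : K.E (n + 1),
    ∑ j : Fin (n + 2), (-1 : ℤ) ^ (j : ℕ) • θ (K.coch hK (K.res (hK.mono n) (K.Xl n) z) (K.d n e j)) = 0

/-- coboundaries become trivial -/
def TaskB : Prop := HAT → TaskHtpy → TaskRetCells → TaskGlue → TaskCellSurj →
    ∀ (A : Type) [TopologicalSpace A] [CompactSpace A] [T2Space A]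
    (K : SCx A) (hK : K.Ok) (n : ℕ) (Y : Type) [TopologicalSpace Y] (y0 : Y)
    (b : K.E n → PiC (n + 1) Y y0),
    ∃ z : K.GG (n + 1) (K.Xl (n + 1)) Y y0, K.forget (empty_subset _) z = (1 : K.GG (n + 1) ∅ Y y0) ∧
      ∀ (P : Type) [AddCommGroup P] (θ : PiC (n + 1) Y y0 → P), (∀ a b, θ (a * b) = θ a + θ b) →
        ∀ e : K.E (n + 1), θ (K.coch hK z e) = ∑ j : Fin (n + 2), (-1 : ℤ) ^ (j : ℕ) • θ (b (K.d n e j))

/-- two-step homotopy extension: an element of `X (n+1)` trivial on `X (n-1)` comes from the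
relative group -/
def TaskTwo : Prop := TaskExact → TaskRetCells →
    ∀ (A : Type) [TopologicalSpace A] [CompactSpace A] [T2Space A]
    (K : SCx A) (_ : K.Ok) (n : ℕ) (h : K.X n ⊆ K.X (n + 2)) (Y : Type) [TopologicalSpace Y] (y0 : Y)
    (z : K.GG (n + 2) ∅ Y y0), K.res h ∅ z = 1 →
    ∃ z' : K.GG (n + 2) (K.Xl (n + 1)) Y y0, K.forget (empty_subset _) z' = z

/-- divisibility: every cocycle of degree `n` is a coboundary after an odd multiple -/
def SCx.OddExact {A : Type} [TopologicalSpace A] (K : SCx A) (n : ℕ) : Prop :=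
  ∀ (P : Type) [AddCommGroup P] (c : K.E (n + 1) → P),
    (∀ e : K.E (n + 2), ∑ j : Fin (n + 3), (-1 : ℤ) ^ (j : ℕ) • c (K.d (n + 1) e j) = 0) →
    ∃ (M : ℕ) (b : K.E n → P), Odd M ∧
      ∀ e : K.E (n + 1), M • c e = ∑ j : Fin (n + 2), (-1 : ℤ) ^ (j : ℕ) • b (K.d n e j)

/-- the main lemma -/
def MainLemma : Prop := ∀ (A : Type) [TopologicalSpace A] [CompactSpace A] [T2Space A]
    (K : SCx A) (_ : K.Ok) (k : ℕ) (hk : ∀ n, n ≤ k → K.X n ⊆ K.X k) (Y : Type) [TopologicalSpace Y] (y0 : Y)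
    (u : K.GG k ∅ Y y0), K.res (hk 0 (Nat.zero_le _)) ∅ u = 1 →
    (∀ n, n + 1 < k → K.OddExact n) →
    ∀ n (hn : n < k), ∃ N : ℕ, Odd N ∧ K.res (hk n hn.le) ∅ (u ^ N) = 1

def TaskMain : Prop := TaskZ → TaskB → TaskTwo → HAT → TaskHtpy → TaskRetCells → TaskGlue →
  TaskCellSurj → TaskCellInj → TaskComm → TaskExact → MainLemma

/-! ### Suspension -/

/-- collapse both ends of the cylinder -/
inductive SuRel (A : Type) : I × A → I × A → Prop
  | zero (a b : A) : SuRel A (0, a) (0, b)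
  | one (a b : A) : SuRel A (1, a) (1, b)

/-- unreduced suspension -/
def Su (A : Type) : Type := Quot (SuRel A)

instance (A : Type) [TopologicalSpace A] : TopologicalSpace (Su A) :=
  inferInstanceAs (TopologicalSpace (Quot (SuRel A)))

/-- the quotient map -/
def Su.mk (A : Type) [TopologicalSpace A] : C(I × A, Su A) := ⟨Quot.mk _, continuous_quot_mk⟩

/-- the involution of the suspension -/
def Su.inv {A : Type} [TopologicalSpace A] (ν : C(A, A)) : C(Su A, Su A) where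
  toFun := Quot.lift (fun p => Su.mk A (σ p.1, ν p.2)) (by
    intro p q h
    cases h with
    | zero a b => exact Quot.sound (by simpa using SuRel.one (ν a) (ν b))
    | one a b => exact Quot.sound (by simpa using SuRel.zero (ν a) (ν b)))
  continuous_toFun := by
    refine continuous_quot_lift _ ?_
    exact (Su.mk A).continuous.comp
      ((continuous_symm.comp continuous_fst).prodMk (ν.continuous.comp continuous_snd))

/-- the path from the south pole to the north pole through `x`, followed by the way back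
through `x0` -/
def suLoop (A : Type) [TopologicalSpace A] (x0 : A) : C(I × A, Su A) where
  toFun p := if (p.1 : ℝ) ≤ 1 / 2 then Su.mk A (Set.projIcc 0 1 zero_le_one (2 * (p.1 : ℝ)), p.2)
    else Su.mk A (Set.projIcc 0 1 zero_le_one (2 - 2 * (p.1 : ℝ)), x0)
  continuous_toFun := by
    have hc : Continuous fun p : I × A => ((p.1 : I) : ℝ) :=
      continuous_subtype_val.comp continuous_fst
    refine Continuous.if_le ?_ ?_ hc continuous_const ?_
    · exact (Su.mk A).continuous.comp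
        (((continuous_projIcc).comp (continuous_const.mul hc)).prodMk continuous_snd)
    · exact (Su.mk A).continuous.comp
        (((continuous_projIcc).comp (continuous_const.sub (continuous_const.mul hc))).prodMk
          continuous_const)
    · intro p hp
      have h1 : Set.projIcc (0 : ℝ) 1 zero_le_one (2 * (p.1 : ℝ)) = 1 := by
        rw [hp]; norm_num
      have h2 : Set.projIcc (0 : ℝ) 1 zero_le_one (2 - 2 * (p.1 : ℝ)) = 1 := by
        rw [hp]; norm_num
      rw [h1, h2]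
      exact Quot.sound (SuRel.one _ _)

/-- the class of `suLoop` -/
def suClass (A : Type) [TopologicalSpace A] (x0 : A) : LG A ∅ (Su A) (Su.mk A (0, x0)) :=
  LG.mk ∅ (suLoop A x0)
    (fun d => by
      have : suLoop A x0 (0, d) = Su.mk A (Set.projIcc 0 1 zero_le_one (2 * ((0 : I) : ℝ)), d) :=
        if_pos (by norm_num)
      rw [this]
      have h1 : Set.projIcc (0 : ℝ) 1 zero_le_one (2 * ((0 : I) : ℝ)) = 0 := by norm_num
      rw [h1]
      exact Quot.sound (SuRel.zero _ _))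
    (fun d => by
      have : suLoop A x0 (1, d) = Su.mk A (Set.projIcc 0 1 zero_le_one (2 - 2 * ((1 : I) : ℝ)), x0) :=
        if_neg (by norm_num)
      rw [this]
      have h1 : Set.projIcc (0 : ℝ) 1 zero_le_one (2 - 2 * ((1 : I) : ℝ)) = 0 := by norm_num
      rw [h1])
    (fun _ _ hb => absurd hb (Set.notMem_empty _))

/-- if the class of the loops has odd order on `P`, then there is a symmetric family of paths
homotopic to a constant family -/
def TaskSuspA : Prop := TaskMkSurj → TaskMkEq → ∀ (P R : Type) [TopologicalSpace P] [CompactSpace P]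
    [T2Space P] [TopologicalSpace R] [CompactSpace R] [T2Space R] (νP : C(P, P)) (νR : C(R, R)),
    (∀ p, νP (νP p) = p) → (∀ p, νR (νR p) = p) → ∀ j : C(P, R), (∀ p, j (νP p) = νR (j p)) →
    ∀ x0 : R, Joined x0 (νR x0) → ∀ N : ℕ, Odd N →
    (LG.pull ∅ j (fun _ hb => absurd hb (Set.notMem_empty _)) (suClass R x0)) ^ N =
      (1 : LG P ∅ (Su R) (Su.mk R (0, x0))) →
    ∃ Γ : C(I × P, Su R), (∀ p, Γ (0, p) = Su.mk R (0, x0)) ∧ (∀ p, Γ (1, p) = Su.mk R (1, x0)) ∧
      (∀ t p, Γ (σ t, νP p) = Su.inv νR (Γ (t, p))) ∧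
      ∃ H : C(I × (I × P), Su R), (∀ t p, H (0, (t, p)) = Γ (t, p)) ∧
        (∀ t p, H (1, (t, p)) = Su.mk R (t, x0)) ∧ (∀ s p, H (s, (0, p)) = Su.mk R (0, x0)) ∧
        ∀ s p, H (s, (1, p)) = Su.mk R (1, x0)

/-- passage to the suspension -/
def TaskSuspB : Prop := ∀ (P R : Type) [TopologicalSpace P] [CompactSpace P]
    [T2Space P] [TopologicalSpace R] [CompactSpace R] [T2Space R] (νP : C(P, P)) (νR : C(R, R))
    (x0 : R) (Γ : C(I × P, Su R)), (∀ p, Γ (0, p) = Su.mk R (0, x0)) →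
    (∀ p, Γ (1, p) = Su.mk R (1, x0)) → (∀ t p, Γ (σ t, νP p) = Su.inv νR (Γ (t, p))) →
    ∀ H : C(I × (I × P), Su R), (∀ t p, H (0, (t, p)) = Γ (t, p)) →
        (∀ t p, H (1, (t, p)) = Su.mk R (t, x0)) → (∀ s p, H (s, (0, p)) = Su.mk R (0, x0)) →
        (∀ s p, H (s, (1, p)) = Su.mk R (1, x0)) →
    ∃ g : C(Su P, Su R), (∀ y, g (Su.inv νP y) = Su.inv νR (g y)) ∧ g.Nullhomotopic

/-! ### Spheres -/

/-- the sphere -/
abbrev Sph (n : ℕ) : Type := Metric.sphere (0 : EuclideanSpace ℝ (Fin (n + 1))) 1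

/-- extension over the next sphere -/
def TaskExt : Prop := ∀ (T : Type) [TopologicalSpace T] (ν : C(T, T)), (∀ y, ν (ν y) = y) →
    ∀ (n : ℕ) (f : C(Sph n, T)), (∀ x, f (-x) = ν (f x)) → f.Nullhomotopic →
    ∃ g : C(Sph (n + 1), T), ∀ x, g (-x) = ν (g x)

/-- the start: an equivariant map of the circle -/
def TaskCircle : Prop := ∀ (A : Type) [TopologicalSpace A] (ν : C(A, A)), (∀ a, ν (ν a) = a) →
    Nonempty A → ∃ g : C(Sph 1, Su A), ∀ x, g (-x) = Su.inv ν (g x)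

/-! ### Simplicial complexes -/

/-- closed under subsets -/
def Down {W : Type} (S : Finset W → Prop) : Prop := ∀ a b : Finset W, a ⊆ b → S b → S a

open Classical in
/-- support -/
def supp {W : Type} [Fintype W] (x : W → ℝ) : Finset W := Finset.univ.filter fun w => x w ≠ 0

/-- geometric realization of the simplicial complex `S` -/
def RealC (W : Type) [Fintype W] (S : Finset W → Prop) : Type :=
  {x : W → ℝ // (∀ w, 0 ≤ x w) ∧ ∑ w, x w = 1 ∧ S (supp x)}

instance (W : Type) [Fintype W] (S : Finset W → Prop) : TopologicalSpace (RealC W S) :=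
  inferInstanceAs (TopologicalSpace {x : W → ℝ // (∀ w, 0 ≤ x w) ∧ ∑ w, x w = 1 ∧ S (supp x)})

/-- the realization is compact Hausdorff -/
def TaskCompact : Prop := ∀ (W : Type) [Fintype W] (S : Finset W → Prop), Down S →
  CompactSpace (RealC W S) ∧ T2Space (RealC W S)

/-- the skeleton of dimension `n` -/
def Skel (W : Type) [Fintype W] (S : Finset W → Prop) (n : ℕ) : Set (RealC W S) :=
  {x | (supp x.1).card ≤ n + 1}

/-- simplices of dimension `n` -/
def Sx (W : Type) (S : Finset W → Prop) (n : ℕ) : Type := {a : Finset W // S a ∧ a.card = n + 1}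

open Classical in
/-- the face omitting the `j`-th vertex -/
def face {W : Type} [LinearOrder W] (n : ℕ) (a : Finset W) (h : a.card = n) (j : Fin n) : Finset W :=
  a.erase (a.orderEmbOfFin h j)

/-- coordinates of the map from the cube to the simplex -/
def cc (n : ℕ) (t : Fin n → I) (j : Fin (n + 1)) : ℝ :=
  (∏ l : Fin n, if (l : ℕ) < (j : ℕ) then (t l : ℝ) else 1) *
    (if h : (j : ℕ) < n then 1 - (t ⟨j, h⟩ : ℝ) else 1)

def TaskCoord : Prop :=
  (∀ n t j, 0 ≤ cc n t j) ∧ (∀ n t, ∑ j, cc n t j = 1) ∧ (∀ n j, Continuous fun t => cc n t j) ∧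
  (∀ n (j : Fin (n + 1)) t, cc (n + 1) (Fin.insertNth j 1 t) = Fin.insertNth j.castSucc 0 (cc n t)) ∧
  (∀ n t, cc (n + 1) (Fin.insertNth (Fin.last n) 0 t) =
    Fin.insertNth (Fin.last (n + 1)) 0 (cc n t)) ∧
  (∀ n (j : Fin (n + 1)) t (k : Fin (n + 2)), (j : ℕ) < (k : ℕ) →
    cc (n + 1) (Fin.insertNth j 0 t) k = 0) ∧
  (∀ n t, t ∈ bdry n ↔ ∃ j, cc n t j = 0) ∧
  (∀ n t t', (∀ j, cc n t j ≠ 0) → cc n t = cc n t' → t = t') ∧
  (∀ n (x : Fin (n + 1) → ℝ), (∀ j, 0 ≤ x j) → ∑ j, x j = 1 → ∃ t, cc n t = x)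

/-- the realization has cubical characteristic maps -/
def TaskReal : Prop := TaskCoord → ∀ (W : Type) [Fintype W] [LinearOrder W] (S : Finset W → Prop),
    Down S → ∃ K : SCx (RealC W S), K.Ok ∧ (∀ n, K.X n = Skel W S n) ∧
      ∃ ε : ∀ n, K.E n ≃ Sx W S n, ∀ n (e : K.E (n + 1)) (j : Fin (n + 2)),
        (ε n (K.d n e j)).1 = face (n + 2) (ε (n + 1) e).1 (ε (n + 1) e).2.2 j

open Classical in
/-- vanishing of the reduced mod 2 simplicial homology in dimension `m - 1` -/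
def Acyc2 (W : Type) [Fintype W] (S : Finset W → Prop) (m : ℕ) : Prop :=
  ∀ f : Finset W → ZMod 2, (∀ a, f a ≠ 0 → S a ∧ a.card = m) →
    (∀ a, ∑ w ∈ Finset.univ \ a, f (insert w a) = 0) →
    ∃ g : Finset W → ZMod 2, (∀ a, g a ≠ 0 → S a ∧ a.card = m + 1) ∧
      ∀ a, f a = ∑ w ∈ Finset.univ \ a, g (insert w a)

/-- every cocycle of degree `n+1` is a coboundary after an odd multiple -/
def OddS (W : Type) [LinearOrder W] (S : Finset W → Prop) (n : ℕ) : Prop :=
  ∀ (P : Type) [AddCommGroup P] (c : Finset W → P),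
    (∀ (a : Finset W) (h : a.card = n + 3), S a →
      ∑ j : Fin (n + 3), (-1 : ℤ) ^ (j : ℕ) • c (face (n + 3) a h j) = 0) →
    ∃ (M : ℕ) (b : Finset W → P), Odd M ∧ ∀ (a : Finset W) (h : a.card = n + 2), S a →
      M • c a = ∑ j : Fin (n + 2), (-1 : ℤ) ^ (j : ℕ) • b (face (n + 2) a h j)

/-- from mod 2 to odd multiples -/
def TaskOdd : Prop := ∀ (W : Type) [Fintype W] [LinearOrder W] (S : Finset W → Prop), Down S →
    ∀ n, (∀ m, m ≤ n + 2 → Acyc2 W S m) → OddS W S n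

/-- the skeleton is path connected -/
def TaskPath : Prop := ∀ (W : Type) [Fintype W] (S : Finset W → Prop), Down S → S ∅ →
    Acyc2 W S 0 → Acyc2 W S 1 → ∀ n, 1 ≤ n → IsPathConnected (Skel W S n)

/-- contracting the vertices -/
def TaskBase : Prop := ∀ (W : Type) [Fintype W] (S : Finset W → Prop) (n : ℕ),
    IsPathConnected (Skel W S n) → ∀ (h : Skel W S 0 ⊆ Skel W S n) (x0 : ↥(Skel W S n)),
    ∃ Φ : C(I × ↥(Skel W S 0), ↥(Skel W S n)), (∀ x, Φ (0, x) = ⟨x.1, h x.2⟩) ∧ ∀ x, Φ (1, x) = x0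

/-! ### Graphs -/

/-- the box complex `B_0(G)`; `(v, false)` is the copy of `v` in the first part -/
def B0 {V : Type} (G : SimpleGraph V) (a : Finset (V × Bool)) : Prop :=
  ∀ v w, (v, false) ∈ a → (w, true) ∈ a → G.Adj v w

/-- the box complex `B(G)`: both parts have a common neighbour -/
def BB {V : Type} (G : SimpleGraph V) (a : Finset (V × Bool)) : Prop :=
  B0 G a ∧ (∃ w, ∀ v, (v, false) ∈ a → G.Adj v w) ∧ ∃ v, ∀ w, (w, true) ∈ a → G.Adj v w

/-- homology of `B(G)` from homology of `B_0(G)` -/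
def TaskBB : Prop := ∀ (V : Type) [Fintype V] (G : SimpleGraph V) (n : ℕ),
    (∀ m, m ≤ n → Acyc2 (V × Bool) (B0 G) m) → ∀ m, m < n → Acyc2 (V × Bool) (BB G) m

/-- the involution -/
def sw {V : Type} (w : V × Bool) : V × Bool := (w.1, !w.2)

/-- the homotopy from one part to the other -/
def TaskMap : Prop := ∀ (V : Type) [Fintype V] [Nonempty V] (G : SimpleGraph V),
    ∃ q : C(I × RealC (V × Bool) (BB G), RealC (V × Bool) (B0 G)),
      (∀ x y, q (0, x) = q (0, y)) ∧ (∀ x y, q (1, x) = q (1, y)) ∧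
      ∀ t x y, y.1 = x.1 ∘ sw → (q (σ t, y)).1 = (q (t, x)).1 ∘ sw

/-- final statement -/
def Final : Prop := ∀ (V : Type) [Fintype V] (G : SimpleGraph V) (n : ℕ),
    (∀ m, m ≤ n → Acyc2 (V × Bool) (B0 G) m) →
    ∃ f : C(Sph n, RealC (V × Bool) (B0 G)), ∀ x, (f (-x)).1 = (f x).1 ∘ sw

end

end Pool.Agent.H370R3.BX
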