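import Mathlib
import Pool.Agent.H370R3.BX.Stmts

/-!
Project BX (helper370), task TaskRetCells (helper174).
-/

set_option autoImplicit false

open Set Filter Topology unitInterval

namespace Pool.Agent.H370R3.BX

theorem taskRetCells_proof (hG : TaskGlue) (hC : TaskCube) : TaskRetCells := by
  intro D _ _ _ B J _ n κ hR
  obtain ⟨rc, hrc1, hrc2, hrc3⟩ := hC n
  let gB : C(I × ↥B, I × D) :=
    ⟨fun p => (p.1, (p.2 : D)), continuous_fst.prodMk (continuous_subtype_val.comp continuous_snd)⟩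
  let g : J → C(I × (Fin n → I), I × D) := fun j =>
    ⟨fun p => ((rc p).1, κ j (rc p).2),
      (continuous_fst.comp rc.continuous).prodMk
        ((κ j).continuous.comp (continuous_snd.comp rc.continuous))⟩
  have hcompat : ∀ j s t (ht : κ j t ∈ B), g j (s, t) = gB (s, ⟨κ j t, ht⟩) := by
    intro j s t ht
    have h1 : rc (s, t) = (s, t) := hrc3 s t ((hR.bd j t).1 ht)
    show ((rc (s, t)).1, κ j (rc (s, t)).2) = (s, κ j t)
    rw [h1]
  obtain ⟨G, hG1, hG2⟩ := hG D B J n κ hR I (I × D) gB g hcompat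
  have hB : ∀ s d, d ∈ B → G (s, d) = (s, d) := fun s d hd => hG1 s ⟨d, hd⟩
  have hJ : ∀ j s t, G (s, κ j t) = ((rc (s, t)).1, κ j (rc (s, t)).2) := fun j s t => hG2 j s t
  refine ⟨G, ?_, ?_, ?_⟩
  · rintro ⟨s, d⟩
    by_cases hd : d ∈ B
    · right
      rw [hB s d hd]
      exact hd
    · obtain ⟨j, t, rfl⟩ := hR.cover d hd
      rw [hJ]
      rcases hrc1 (s, t) with h | h
      · left; exact h
      · right; exact (hR.bd j _).2 h
  · intro d
    by_cases hd : d ∈ B
    · exact hB 0 d hd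
    · obtain ⟨j, t, rfl⟩ := hR.cover d hd
      rw [hJ, hrc2]
  · intro s b hb
    exact hB s b hb

end Pool.Agent.H370R3.BX
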