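import Mathlib
import Pool.Agent.H370R3.BX.Stmts

set_option autoImplicit false

/-! Project BX, TaskCompact (helper589). -/

open Set Filter Topology

namespace Pool.Agent.H370R3.BX

theorem taskCompact : TaskCompact := by
  classical
  intro W _ S hS
  have hmem : ∀ (x : W → ℝ) (w : W), w ∈ supp x ↔ x w ≠ 0 := by
    intro x w
    unfold supp
    rw [Finset.mem_filter]
    simp
  -- the condition on the support is closed
  have hU : {x : W → ℝ | S (supp x)} = ⋃ a ∈ {a : Finset W | S a}, {x : W → ℝ | ∀ w, w ∉ a → x w = 0} := by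
    ext x
    simp only [Set.mem_setOf_eq, Set.mem_iUnion, exists_prop]
    constructor
    · intro h
      refine ⟨supp x, h, fun w hw => ?_⟩
      by_contra hne
      exact hw ((hmem x w).2 hne)
    · rintro ⟨a, ha, hx⟩
      refine hS _ a (fun w hw => ?_) ha
      by_contra hna
      exact (hmem x w).1 hw (hx w hna)
  have hUc : IsClosed {x : W → ℝ | S (supp x)} := by
    rw [hU]
    apply Set.Finite.isClosed_biUnion (Set.toFinite _)
    intro a _
    have e : {x : W → ℝ | ∀ w, w ∉ a → x w = 0} = ⋂ w, ⋂ (_ : w ∉ a), {x : W → ℝ | x w = 0} := by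
      ext x
      simp
    rw [e]
    exact isClosed_iInter fun w => isClosed_iInter fun _ =>
      isClosed_eq (continuous_apply w) continuous_const
  have h1 : IsClosed {x : W → ℝ | ∀ w, 0 ≤ x w} := by
    have e : {x : W → ℝ | ∀ w, 0 ≤ x w} = ⋂ w, {x : W → ℝ | 0 ≤ x w} := by
      ext x
      simp
    rw [e]
    exact isClosed_iInter fun w => isClosed_le continuous_const (continuous_apply w)
  have h2 : IsClosed {x : W → ℝ | ∑ w, x w = 1} :=
    isClosed_eq (continuous_finset_sum _ fun w _ => continuous_apply w) continuous_const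
  have hcl : IsClosed {x : W → ℝ | (∀ w, 0 ≤ x w) ∧ ∑ w, x w = 1 ∧ S (supp x)} :=
    h1.inter (h2.inter hUc)
  have hsub : {x : W → ℝ | (∀ w, 0 ≤ x w) ∧ ∑ w, x w = 1 ∧ S (supp x)} ⊆ Set.Icc (0 : W → ℝ) 1 := by
    rintro x ⟨hx0, hx1, -⟩
    refine ⟨fun w => hx0 w, fun w => ?_⟩
    have := Finset.single_le_sum (f := x) (fun i _ => hx0 i) (Finset.mem_univ w)
    rw [hx1] at this
    exact this
  have hcomp : IsCompact {x : W → ℝ | (∀ w, 0 ≤ x w) ∧ ∑ w, x w = 1 ∧ S (supp x)} :=
    IsCompact.of_isClosed_subset isCompact_Icc hcl hsub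
  constructor
  · exact isCompact_iff_compactSpace.1 hcomp
  · exact (inferInstance : T2Space {x : W → ℝ // (∀ w, 0 ≤ x w) ∧ ∑ w, x w = 1 ∧ S (supp x)})

end Pool.Agent.H370R3.BX
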