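import Pool.Agent.H370R3.BX.Stmts

set_option autoImplicit false
set_option maxHeartbeats 4000000

open Set Filter Topology unitInterval

namespace Pool.Agent.H370R3.BX.TB

open Pool.Agent.H370R3.BX

section basic

variable {D D' D'' : Type} [TopologicalSpace D] [TopologicalSpace D'] [TopologicalSpace D'']
  {B : Set D} {B' : Set D'} {B'' : Set D''} {Y : Type} [TopologicalSpace Y] {y0 : Y}

lemma pull_pull (φ : C(D', D)) (h : ∀ b ∈ B', φ b ∈ B) (ψ : C(D'', D')) (h' : ∀ b ∈ B'', ψ b ∈ B')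
    (x : LG D B Y y0) :
    LG.pull B'' ψ h' (LG.pull B' φ h x) =
      LG.pull B'' (φ.comp ψ) (fun b hb => h _ (h' b hb)) x := by
  induction x using Quotient.inductionOn with
  | h p => rfl

lemma pull_congr (φ ψ : C(D', D)) (h : ∀ b ∈ B', φ b ∈ B) (h' : ∀ b ∈ B', ψ b ∈ B)
    (e : ∀ t, φ t = ψ t) (x : LG D B Y y0) : LG.pull B' φ h x = LG.pull B' ψ h' x := by
  have : φ = ψ := ContinuousMap.ext e
  subst this
  rfl

lemma pull_triv (φ : C(D', D)) (h : ∀ b ∈ B', φ b ∈ B) (hB : ∀ d, φ d ∈ B) (x : LG D B Y y0) :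
    LG.pull B' φ h x = 1 := by
  induction x using Quotient.inductionOn with
  | h p =>
    have e : p.map (RC.pull B B' Y y0 φ h).continuous = Path.refl _ := by
      ext t
      refine Subtype.ext ?_
      ext d
      exact (p t).2 _ (hB d)
    change FundamentalGroup.fromPath
      (Path.Homotopic.Quotient.mk (p.map (RC.pull B B' Y y0 φ h).continuous)) = 1
    rw [e]
    rfl

end basic


section cells

variable {A : Type} [TopologicalSpace A] (K : SCx A)

lemma X_mono (hK : K.Ok) {m n : ℕ} (h : m ≤ n) : K.X m ⊆ K.X n :=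
  monotone_nat_of_le_succ (f := K.X) (fun n => hK.mono n) h

lemma mem_Xl_succ (hK : K.Ok) {n : ℕ} {a : A} : a ∈ K.Xl (n + 1) ↔ a ∈ K.X n := by
  constructor
  · rintro ⟨m, hm, ha⟩
    exact X_mono K hK (Nat.lt_succ_iff.1 hm) ha
  · intro ha
    exact ⟨n, Nat.lt_succ_self n, ha⟩

lemma closed_Xl (hK : K.Ok) (n : ℕ) : IsClosed (K.Xl n) := by
  have : K.Xl n = ⋃ m ∈ Finset.range n, K.X m := by
    ext a
    simp [SCx.Xl]
  rw [this]
  exact isClosed_biUnion_finset fun m _ => hK.closed m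

lemma relD (hK : K.Ok) (n : ℕ) : RelCells ↥(K.X n) {x | x.1 ∈ K.Xl n} (K.E n) n
    (K.κ' hK n) where
  closed := (closed_Xl K hK n).preimage continuous_subtype_val
  bd e t := hK.bd n e t
  inj e e' t t' h h' := hK.inj n e e' t t' (congrArg Subtype.val h) h'
  cover d hd := by
    obtain ⟨e, t, h⟩ := hK.cover n d.1 d.2 hd
    exact ⟨e, t, Subtype.ext h⟩

/-- the space `{0} × X (n+1) ∪ I × X n` -/
def DD (n : ℕ) : Type := {p : I × ↥(K.X (n + 1)) // p.1 = 0 ∨ p.2.1 ∈ K.Xl (n + 1)}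

instance (n : ℕ) : TopologicalSpace (DD K n) :=
  inferInstanceAs (TopologicalSpace {p : I × ↥(K.X (n + 1)) // p.1 = 0 ∨ p.2.1 ∈ K.Xl (n + 1)})

/-- the subspace -/
def BS (n : ℕ) : Set (DD K n) := {q | q.1.1 = 0 ∨ q.1.1 = 1 ∨ q.1.2.1 ∈ K.Xl n}

lemma ddT2 [T2Space A] (n : ℕ) : T2Space (DD K n) :=
  inferInstanceAs (T2Space {p : I × ↥(K.X (n + 1)) // p.1 = 0 ∨ p.2.1 ∈ K.Xl (n + 1)})

lemma compX [CompactSpace A] (hK : K.Ok) (n : ℕ) : CompactSpace ↥(K.X n) :=
  isCompact_iff_compactSpace.1 (hK.closed n).isCompact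

lemma ddComp [CompactSpace A] (hK : K.Ok) (n : ℕ) : CompactSpace (DD K n) := by
  have := compX K hK (n + 1)
  have h : IsClosed {p : I × ↥(K.X (n + 1)) | p.1 = 0 ∨ p.2.1 ∈ K.Xl (n + 1)} := by
    refine IsClosed.union (isClosed_eq continuous_fst continuous_const) ?_
    exact (closed_Xl K hK (n + 1)).preimage (continuous_subtype_val.comp continuous_snd)
  exact isCompact_iff_compactSpace.1 h.isCompact

lemma cont_init (n : ℕ) : Continuous (fun t : Fin (n + 1) → I => (Fin.init t : Fin n → I)) :=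
  continuous_pi fun i => continuous_apply (Fin.castSucc i)

/-- the cells -/
def cel (hK : K.Ok) (n : ℕ) (e : K.E n) : C(Fin (n + 1) → I, DD K n) where
  toFun t := ⟨(t (Fin.last n), ⟨K.κ n e (Fin.init t), hK.mono n (hK.mem n e _)⟩),
    Or.inr ((mem_Xl_succ K hK).2 (hK.mem n e _))⟩
  continuous_toFun := by
    refine Continuous.subtype_mk ?_ _
    refine (continuous_apply _).prodMk ?_
    exact ((K.κ n e).continuous.comp (cont_init n)).subtype_mk _

lemma relDD (hK : K.Ok) (n : ℕ) : RelCells (DD K n) (BS K n) (K.E n) (n + 1) (cel K hK n) where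
  closed := by
    have h1 : IsClosed {q : DD K n | q.1.1 = 0} :=
      isClosed_eq (continuous_fst.comp continuous_subtype_val) continuous_const
    have h2 : IsClosed {q : DD K n | q.1.1 = 1} :=
      isClosed_eq (continuous_fst.comp continuous_subtype_val) continuous_const
    have h3 : IsClosed {q : DD K n | q.1.2.1 ∈ K.Xl n} :=
      (closed_Xl K hK n).preimage (continuous_subtype_val.comp
        (continuous_snd.comp continuous_subtype_val))
    exact h1.union (h2.union h3)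
  bd e t := by
    change (t (Fin.last n) = 0 ∨ t (Fin.last n) = 1 ∨ K.κ n e (Fin.init t) ∈ K.Xl n) ↔ _
    rw [hK.bd n e (Fin.init t)]
    constructor
    · rintro (h | h | ⟨i, hi⟩)
      · exact ⟨Fin.last n, Or.inl h⟩
      · exact ⟨Fin.last n, Or.inr h⟩
      · exact ⟨i.castSucc, hi⟩
    · rintro ⟨i, hi⟩
      induction i using Fin.lastCases with
      | last => tauto
      | cast i => exact Or.inr (Or.inr ⟨i, hi⟩)
  inj e e' t t' h h' := by
    have h1 : t (Fin.last n) = t' (Fin.last n) := congrArg (fun q : DD K n => q.1.1) h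
    have h2 : K.κ n e (Fin.init t) = K.κ n e' (Fin.init t') :=
      congrArg (fun q : DD K n => q.1.2.1) h
    have h3 : K.κ n e (Fin.init t) ∉ K.Xl n := fun hc => h' (Or.inr (Or.inr hc))
    obtain ⟨he, ht⟩ := hK.inj n e e' _ _ h2 h3
    refine ⟨he, ?_⟩
    rw [← Fin.snoc_init_self t, ← Fin.snoc_init_self t', ht, h1]
  cover q hq := by
    have h0 : q.1.1 ≠ 0 := fun hc => hq (Or.inl hc)
    have h1 : q.1.2.1 ∈ K.Xl (n + 1) := q.2.resolve_left h0
    have h2 : q.1.2.1 ∉ K.Xl n := fun hc => hq (Or.inr (Or.inr hc))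
    obtain ⟨e, t, h⟩ := hK.cover n _ ((mem_Xl_succ K hK).1 h1) h2
    refine ⟨e, Fin.snoc t q.1.1, ?_⟩
    refine Subtype.ext (Prod.ext ?_ (Subtype.ext ?_))
    · change (Fin.snoc t q.1.1 : Fin (n + 1) → I) (Fin.last n) = q.1.1
      simp
    · change K.κ n e (Fin.init (Fin.snoc t q.1.1 : Fin (n + 1) → I)) = q.1.2.1
      rw [Fin.init_snoc]
      exact h

lemma bd2_mem (hK : K.Ok) (n : ℕ) (e : K.E (n + 1)) (t : Fin (n + 1) → I) (ht : t ∈ bd2 (n + 1)) :
    K.κ (n + 1) e t ∈ K.Xl n := by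
  obtain ⟨i, j, hij, hi, hj⟩ := ht
  obtain ⟨k, hk⟩ := Fin.exists_succAbove_eq hij.symm
  have hb : (i.removeNth t : Fin n → I) ∈ bdry n := ⟨k, by
    change t (i.succAbove k) = 0 ∨ t (i.succAbove k) = 1
    rw [hk]; exact hj⟩
  have hins : (Fin.insertNth i (t i) (i.removeNth t) : Fin (n + 1) → I) = t :=
    Fin.insertNth_self_removeNth i t
  rcases hi with hi | hi
  · rw [hi] at hins
    by_cases hl : i = Fin.last n
    · subst hl
      rw [← hins, hK.last n e]
      exact (hK.bd n _ _).2 hb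
    · have hlt : (i : ℕ) < n := by
        have := i.2
        have h2 : (i : ℕ) ≠ n := fun hc => hl (Fin.ext hc)
        omega
      rw [← hins]
      exact ⟨i, hlt, hK.zero n e i _⟩
  · rw [hi] at hins
    rw [← hins, hK.one n e i]
    exact (hK.bd n _ _).2 hb

lemma init_insertNth (n : ℕ) (j : Fin (n + 1)) (c : I) (t : Fin (n + 1) → I) :
    (Fin.init (Fin.insertNth j.castSucc c t : Fin (n + 2) → I) : Fin (n + 1) → I) =
      Fin.insertNth j c (Fin.init t) := by
  funext k
  rcases Fin.eq_self_or_eq_succAbove j k with rfl | ⟨l, rfl⟩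
  · simp [Fin.init]
  · have : (j.succAbove l).castSucc = j.castSucc.succAbove l.castSucc := by
      rw [Fin.castSucc_succAbove_castSucc]
    simp only [Fin.init, this, Fin.insertNth_apply_succAbove]

lemma last_insertNth (n : ℕ) (j : Fin (n + 1)) (c : I) (t : Fin (n + 1) → I) :
    (Fin.insertNth j.castSucc c t : Fin (n + 2) → I) (Fin.last (n + 1)) = t (Fin.last n) := by
  have : Fin.last (n + 1) = j.castSucc.succAbove (Fin.last n) := by
    rw [Fin.succAbove_of_le_castSucc _ _ (Fin.castSucc_le_castSucc_iff.2 (Fin.le_last j)),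
      Fin.succ_last]
  rw [this, Fin.insertNth_apply_succAbove]

end cells

theorem main : TaskB := by
  intro hHAT hHt hRC _ hCS A _ _ _ K hK n Y _ y0 b
  classical
  have : CompactSpace ↥(K.X (n + 1)) := compX K hK (n + 1)
  have : CompactSpace (DD K n) := ddComp K hK n
  have : T2Space (DD K n) := ddT2 K n
  have : Finite (K.E n) := hK.fin n
  have : Finite (K.E (n + 1)) := hK.fin (n + 1)
  obtain ⟨r, r1, r2, r3⟩ := hRC ↥(K.X (n + 1)) _ (K.E (n + 1)) (n + 1) _ (relD K hK (n + 1))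
  set b' : K.E n → PiC (n + 1) Y y0 := fun e => if (-1 : ℤ) ^ n = 1 then b e else (b e)⁻¹ with hb'
  obtain ⟨β, hβ⟩ := hCS (DD K n) (BS K n) (K.E n) (n + 1) (cel K hK n) (relDD K hK n) Y y0 b'
  -- the map `ρ`
  set ρ : C(I × ↥(K.X (n + 1)), DD K n) := ⟨fun p => ⟨r p, r1 p⟩, r.continuous.subtype_mk _⟩ with hρ
  have ρ0 : ∀ d, ρ (0, d) = ⟨(0, d), Or.inl rfl⟩ := fun d => Subtype.ext (r2 d)
  have ρB : ∀ s (d : ↥(K.X (n + 1))) (hd : d.1 ∈ K.Xl (n + 1)), ρ (s, d) = ⟨(s, d), Or.inr hd⟩ :=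
    fun s d hd => Subtype.ext (r3 s d hd)
  set φ : C(↥(K.X (n + 1)), DD K n) := ρ.comp ⟨fun d => (1, d), by fun_prop⟩ with hφ
  have hφB : ∀ d ∈ {x : ↥(K.X (n + 1)) | x.1 ∈ K.Xl (n + 1)}, φ d ∈ BS K n := by
    intro d hd
    have : φ d = ⟨(1, d), Or.inr hd⟩ := ρB 1 d hd
    rw [this]
    exact Or.inr (Or.inl rfl)
  set z : K.GG (n + 1) (K.Xl (n + 1)) Y y0 :=
    LG.pull {x : ↥(K.X (n + 1)) | x.1 ∈ K.Xl (n + 1)} φ hφB β with hz
  refine ⟨z, ?_, ?_⟩
  · -- forgetting
    have h0 : ∀ x ∈ {x : ↥(K.X (n + 1)) | x.1 ∈ (∅ : Set A)}, φ x ∈ BS K n :=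
      fun x hx => absurd hx (Set.notMem_empty _)
    set φ₀ : C(↥(K.X (n + 1)), DD K n) := ρ.comp ⟨fun d => (0, d), by fun_prop⟩ with hφ₀
    have h1 : ∀ x ∈ {x : ↥(K.X (n + 1)) | x.1 ∈ (∅ : Set A)}, φ₀ x ∈ BS K n :=
      fun x hx => absurd hx (Set.notMem_empty _)
    have e1 : K.forget (empty_subset _) z =
        LG.pull {x : ↥(K.X (n + 1)) | x.1 ∈ (∅ : Set A)} φ h0 β :=
      pull_pull φ hφB (ContinuousMap.id _) (fun x hx => absurd hx (Set.notMem_empty _)) β
    have e2 := hHt (DD K n) ↥(K.X (n + 1)) (BS K n) {x : ↥(K.X (n + 1)) | x.1 ∈ (∅ : Set A)} Y y0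
      φ₀ φ h1 h0 ρ (fun d => rfl) (fun d => rfl) (fun s b hb => absurd hb (Set.notMem_empty _)) β
    rw [e1, ← e2]
    apply pull_triv
    intro d
    have : φ₀ d = ⟨(0, d), Or.inl rfl⟩ := ρ0 d
    rw [this]
    exact Or.inl rfl
  · intro P _ θ hθ e
    have θ1 : θ 1 = 0 := by
      have := hθ 1 1
      rw [mul_one] at this
      simpa using this
    have θinv : ∀ a, θ a⁻¹ = -θ a := by
      intro a
      have := hθ a⁻¹ a
      rw [inv_mul_cancel, θ1] at this
      exact (neg_eq_of_add_eq_zero_left this.symm).symm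
    -- the map of the cube
    set Ψ : C(Fin (n + 2) → I, DD K n) := ρ.comp ⟨fun t => (t (Fin.last (n + 1)),
      K.κ' hK (n + 1) e (Fin.init t)), (continuous_apply _).prodMk
        ((K.κ' hK (n + 1) e).continuous.comp (cont_init (n + 1)))⟩ with hΨ
    have hΨB : ∀ t ∈ bd2 (n + 2), Ψ t ∈ BS K n := by
      intro t ht
      have hΨt : Ψ t = ρ (t (Fin.last (n + 1)), K.κ' hK (n + 1) e (Fin.init t)) := rfl
      by_cases hb2 : (Fin.init t : Fin (n + 1) → I) ∈ bd2 (n + 1)
      · have h1 := bd2_mem K hK n e _ hb2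
        have h2 : K.κ (n + 1) e (Fin.init t) ∈ K.Xl (n + 1) := by
          obtain ⟨m, hm, h⟩ := h1
          exact ⟨m, by omega, h⟩
        rw [hΨt, ρB _ (K.κ' hK (n + 1) e (Fin.init t)) h2]
        exact Or.inr (Or.inr h1)
      · obtain ⟨i, j, hij, hi, hj⟩ := ht
        have key : (t (Fin.last (n + 1)) = 0 ∨ t (Fin.last (n + 1)) = 1) ∧
            (Fin.init t : Fin (n + 1) → I) ∈ bdry (n + 1) := by
          induction i using Fin.lastCases with
          | last =>
            induction j using Fin.lastCases with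
            | last => exact absurd rfl hij
            | cast j => exact ⟨hi, j, hj⟩
          | cast i =>
            induction j using Fin.lastCases with
            | last => exact ⟨hj, i, hi⟩
            | cast j =>
              exact absurd ⟨i, j, fun h => hij (by rw [h]), hi, hj⟩ hb2
        obtain ⟨h1, h2⟩ := key
        have h3 : K.κ (n + 1) e (Fin.init t) ∈ K.Xl (n + 1) := (hK.bd (n + 1) e _).2 h2
        rw [hΨt, ρB _ (K.κ' hK (n + 1) e (Fin.init t)) h3]
        rcases h1 with h1 | h1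
        · exact Or.inl h1
        · exact Or.inr (Or.inl h1)
    set y := LG.pull (bd2 (n + 2)) Ψ hΨB β with hy
    have hsum := hHAT (n + 1) Y y0 y P θ hθ
    -- the facets
    have hcz : K.coch hK z e = LG.pull (bdry (n + 1)) (φ.comp (K.κ' hK (n + 1) e))
        (fun t ht => hφB _ ((hK.bd (n + 1) e t).2 ht)) β :=
      pull_pull φ hφB (K.κ' hK (n + 1) e) (fun t ht => (hK.bd (n + 1) e t).2 ht) β
    have hl1 : fc1 (Fin.last (n + 1)) y = K.coch hK z e := by
      rw [hcz]
      change LG.pull _ (facet (n + 1) (Fin.last (n + 1)) 1) _ (LG.pull _ Ψ hΨB β) = _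
      rw [pull_pull]
      apply pull_congr
      intro t
      change ρ ((Fin.insertNth (Fin.last (n + 1)) 1 t : Fin (n + 2) → I) (Fin.last (n + 1)),
        K.κ' hK (n + 1) e (Fin.init (Fin.insertNth (Fin.last (n + 1)) 1 t : Fin (n + 2) → I))) =
        ρ (1, K.κ' hK (n + 1) e t)
      rw [Fin.insertNth_apply_same, Fin.insertNth_last', Fin.init_snoc]
    have hl0 : fc0 (Fin.last (n + 1)) y = 1 := by
      change LG.pull _ (facet (n + 1) (Fin.last (n + 1)) 0) _ (LG.pull _ Ψ hΨB β) = 1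
      rw [pull_pull]
      apply pull_triv
      intro t
      change ρ ((Fin.insertNth (Fin.last (n + 1)) 0 t : Fin (n + 2) → I) (Fin.last (n + 1)),
        K.κ' hK (n + 1) e (Fin.init (Fin.insertNth (Fin.last (n + 1)) 0 t : Fin (n + 2) → I))) ∈ _
      rw [Fin.insertNth_apply_same, ρ0]
      exact Or.inl rfl
    have hc : ∀ (j : Fin (n + 1)) (c : I) (e' : K.E n) (hbb : ∀ t ∈ bdry (n + 1),
        facet (n + 1) j.castSucc c t ∈ bd2 (n + 2)),
        (∀ t, K.κ (n + 1) e (Fin.insertNth j c t) = K.κ n e' t) →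
        LG.pull (bdry (n + 1)) (facet (n + 1) j.castSucc c) hbb y = b' e' := by
      intro j c e' hbb hh
      rw [← hβ e']
      change LG.pull _ (facet (n + 1) j.castSucc c) _ (LG.pull _ Ψ hΨB β) = _
      rw [pull_pull]
      apply pull_congr
      intro t
      change ρ ((Fin.insertNth j.castSucc c t : Fin (n + 2) → I) (Fin.last (n + 1)),
        K.κ' hK (n + 1) e (Fin.init (Fin.insertNth j.castSucc c t : Fin (n + 2) → I))) =
        cel K hK n e' t
      rw [last_insertNth, init_insertNth]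
      have hv : K.κ (n + 1) e (Fin.insertNth j c (Fin.init t)) ∈ K.Xl (n + 1) := by
        rw [hh]
        exact (mem_Xl_succ K hK).2 (hK.mem n e' _)
      rw [ρB _ (K.κ' hK (n + 1) e (Fin.insertNth j c (Fin.init t))) hv]
      refine Subtype.ext (Prod.ext rfl (Subtype.ext ?_))
      exact hh (Fin.init t)
    have hf1 : ∀ j : Fin (n + 1), fc1 j.castSucc y = b' (K.d n e j.castSucc) := fun j =>
      hc j 1 _ _ (fun t => hK.one n e j t)
    have hf0l : fc0 (Fin.last n).castSucc y = b' (K.d n e (Fin.last (n + 1))) :=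
      hc (Fin.last n) 0 _ _ (fun t => hK.last n e t)
    have hf0 : ∀ j : Fin (n + 1), j ≠ Fin.last n → fc0 j.castSucc y = 1 := by
      intro j hj
      change LG.pull _ (facet (n + 1) j.castSucc 0) _ (LG.pull _ Ψ hΨB β) = 1
      rw [pull_pull]
      apply pull_triv
      intro t
      change ρ ((Fin.insertNth j.castSucc 0 t : Fin (n + 2) → I) (Fin.last (n + 1)),
        K.κ' hK (n + 1) e (Fin.init (Fin.insertNth j.castSucc 0 t : Fin (n + 2) → I))) ∈ _
      rw [last_insertNth, init_insertNth]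
      have hlt : (j : ℕ) < n := by
        have := j.2
        have h2 : (j : ℕ) ≠ n := fun hc => hj (Fin.ext hc)
        omega
      have hv : K.κ (n + 1) e (Fin.insertNth j 0 (Fin.init t)) ∈ K.Xl n :=
        ⟨j, hlt, hK.zero n e j _⟩
      have hv' : K.κ (n + 1) e (Fin.insertNth j 0 (Fin.init t)) ∈ K.Xl (n + 1) := by
        obtain ⟨m, hm, h⟩ := hv
        exact ⟨m, by omega, h⟩
      rw [ρB _ (K.κ' hK (n + 1) e (Fin.insertNth j 0 (Fin.init t))) hv']
      exact Or.inr (Or.inr hv)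
    -- algebra
    rw [Fin.sum_univ_castSucc] at hsum
    rw [hl1, hl0, θ1, sub_zero] at hsum
    simp only [hf1, smul_sub, Finset.sum_sub_distrib] at hsum
    have h0sum : ∑ j : Fin (n + 1), (-1 : ℤ) ^ ((j.castSucc : Fin (n + 2)) : ℕ) •
        θ (fc0 j.castSucc y) = (-1 : ℤ) ^ n • θ (b' (K.d n e (Fin.last (n + 1)))) := by
      rw [Finset.sum_eq_single (Fin.last n)]
      · rw [hf0l]; simp
      · intro j _ hj
        rw [hf0 j hj, θ1, smul_zero]
      · intro h; exact absurd (Finset.mem_univ _) h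
    rw [h0sum] at hsum
    rw [Fin.sum_univ_castSucc]
    have hbb : ∀ e', θ (b' e') = (-1 : ℤ) ^ n • θ (b e') := by
      intro e'
      simp only [hb']
      rcases neg_one_pow_eq_or ℤ n with h | h
      · rw [if_pos h, h, one_smul]
      · rw [if_neg (by rw [h]; norm_num), h, θinv]
        simp
    simp only [hbb] at hsum
    simp only [Fin.val_last, Fin.val_castSucc] at hsum ⊢
    have hs1 : ∑ j : Fin (n + 1), (-1 : ℤ) ^ (j : ℕ) • (-1 : ℤ) ^ n • θ (b (K.d n e j.castSucc)) =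
        (-1 : ℤ) ^ n • ∑ j : Fin (n + 1), (-1 : ℤ) ^ (j : ℕ) • θ (b (K.d n e j.castSucc)) := by
      rw [Finset.smul_sum]
      refine Finset.sum_congr rfl fun j _ => ?_
      rw [smul_comm]
    rw [hs1] at hsum
    generalize ∑ j : Fin (n + 1), (-1 : ℤ) ^ (j : ℕ) • θ (b (K.d n e j.castSucc)) = S at hsum ⊢
    generalize θ (K.coch hK z e) = c at hsum ⊢
    generalize θ (b (K.d n e (Fin.last (n + 1)))) = u at hsum ⊢
    rw [pow_succ] at hsum ⊢
    rcases neg_one_pow_eq_or ℤ n with h | h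
    · rw [h] at hsum ⊢
      simp only [one_smul, one_mul, neg_smul] at hsum ⊢
      have : S - u - c = 0 := by rw [← hsum]; abel
      have h2 : c = S - u := (sub_eq_zero.1 this).symm
      rw [h2]; abel
    · rw [h] at hsum ⊢
      simp only [one_smul, mul_neg, mul_one, neg_neg, neg_smul] at hsum ⊢
      have : S + u - c = 0 := by rw [← neg_eq_zero, ← hsum]; abel
      have h2 : c = S + u := (sub_eq_zero.1 this).symm
      rw [h2]

theorem _root_.Pool.Agent.H370R3.BX.taskB_proof : TaskB := main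

end Pool.Agent.H370R3.BX.TB
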