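import Pool.Agent.H370R3.BX.Stmts

set_option autoImplicit false

namespace Pool.Agent.H370R3.BX

namespace BBaux

open Classical in
/-- the mod 2 boundary -/
noncomputable def bd {W : Type} [Fintype W] (f : Finset W → ZMod 2) (a : Finset W) : ZMod 2 :=
  ∑ w ∈ Finset.univ \ a, f (insert w a)

section
variable {W : Type} [Fintype W]

theorem bd_add (f g : Finset W → ZMod 2) (a : Finset W) :
    bd (fun a => f a + g a) a = bd f a + bd g a := by
  simp only [bd, Finset.sum_add_distrib]

theorem two (x : ZMod 2) : x + x = 0 := CharTwo.add_self_eq_zero x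

open Classical in
theorem bd_bd (f : Finset W → ZMod 2) (a : Finset W) : bd (bd f) a = 0 := by
  simp only [bd]
  rw [Finset.sum_sigma']
  refine Finset.sum_involution (fun p _ => ⟨p.2, p.1⟩) ?_ ?_ ?_ ?_
  · rintro ⟨w, u⟩ hp
    simp only
    rw [Finset.insert_comm u w a]
    exact two _
  · rintro ⟨w, u⟩ hp _ heq
    simp only [Finset.mem_sigma, Finset.mem_sdiff, Finset.mem_univ, true_and,
      Finset.mem_insert, not_or] at hp
    have h1 : u = w := by
      have := congrArg Sigma.fst heq
      exact this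
    exact hp.2.1 h1
  · rintro ⟨w, u⟩ hp
    simp only [Finset.mem_sigma, Finset.mem_sdiff, Finset.mem_univ, true_and,
      Finset.mem_insert, not_or] at hp ⊢
    exact ⟨hp.2.2, fun h => hp.2.1 h.symm, hp.1⟩
  · rintro ⟨w, u⟩ hp
    rfl

open Classical in
/-- the support of a boundary -/
theorem bd_supp {S : Finset W → Prop} (hS : ∀ a b : Finset W, a ⊆ b → S b → S a)
    {y : Finset W → ZMod 2} {m : ℕ} (hy : ∀ a, y a ≠ 0 → S a ∧ a.card = m + 1) (a : Finset W)
    (ha : bd y a ≠ 0) : S a ∧ a.card = m := by
  obtain ⟨w, hw, hw'⟩ := Finset.exists_ne_zero_of_sum_ne_zero ha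
  simp only [Finset.mem_sdiff, Finset.mem_univ, true_and] at hw
  obtain ⟨h1, h2⟩ := hy _ hw'
  rw [Finset.card_insert_of_notMem hw] at h2
  exact ⟨hS _ _ (Finset.subset_insert _ _) h1, by omega⟩

open Classical in
/-- the cone -/
noncomputable def cone (w0 : W) (f : Finset W → ZMod 2) (a : Finset W) : ZMod 2 :=
  if w0 ∈ a then f (a.erase w0) else 0

open Classical in
theorem bd_cone (w0 : W) (f : Finset W → ZMod 2) (hf : ∀ a, bd f a = 0) (a : Finset W) :
    bd (cone w0 f) a = f a := by
  by_cases h : w0 ∈ a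
  · have h0 := hf (a.erase w0)
    have e1 : (Finset.univ \ a.erase w0 : Finset W) = insert w0 (Finset.univ \ a) := by
      ext x
      simp only [Finset.mem_sdiff, Finset.mem_univ, true_and, Finset.mem_erase,
        Finset.mem_insert]
      tauto
    simp only [bd] at h0 ⊢
    rw [e1, Finset.sum_insert (by simp [h]), Finset.insert_erase h] at h0
    have e2 : ∑ w ∈ Finset.univ \ a, cone w0 f (insert w a) =
        ∑ w ∈ Finset.univ \ a, f (insert w (a.erase w0)) := by
      refine Finset.sum_congr rfl fun w hw => ?_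
      simp only [Finset.mem_sdiff, Finset.mem_univ, true_and] at hw
      have hne : w0 ≠ w := fun hh => hw (hh ▸ h)
      rw [cone, if_pos (Finset.mem_insert_of_mem h), Finset.erase_insert_of_ne hne.symm]
    rw [e2]
    have h1 := two (f a)
    have h2 := congrArg (fun t => f a + t) h0
    simp only [add_zero] at h2
    rw [← add_assoc, h1, zero_add] at h2
    exact h2
  · simp only [bd]
    rw [Finset.sum_eq_single w0]
    · rw [cone, if_pos (Finset.mem_insert_self _ _), Finset.erase_insert h]
    · intro w hw hne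
      rw [cone, if_neg]
      simp only [Finset.mem_insert, not_or]
      exact ⟨fun hh => hne hh.symm, h⟩
    · intro hh
      exact absurd (by simp [h]) hh

/-- the abstract box complex -/
def SS (P : W → Prop) (R : W → W → Prop) (a : Finset W) : Prop :=
  (∀ x ∈ a, ∀ y ∈ a, P x → ¬ P y → R x y) ∧ (∃ y, ¬ P y ∧ ∀ x ∈ a, P x → R x y) ∧
    ∃ x, P x ∧ ∀ y ∈ a, ¬ P y → R x y

theorem SS_down (P : W → Prop) (R : W → W → Prop) (a b : Finset W) (h : a ⊆ b)
    (hb : SS P R b) : SS P R a := by
  obtain ⟨h1, ⟨y, h2, h3⟩, x, h4, h5⟩ := hb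
  exact ⟨fun x hx y hy => h1 x (h hx) y (h hy), ⟨y, h2, fun x hx => h3 x (h hx)⟩,
    x, h4, fun y hy => h5 y (h hy)⟩

open Classical in
theorem step1 (P : W → Prop) (R : W → W → Prop) (m : ℕ) : ∀ (b : ℕ) (z : Finset W → ZMod 2),
    (∀ a, z a ≠ 0 → SS P R a ∧ a.card = m) → (∀ a, bd z a = 0) →
    (∀ a, z a ≠ 0 → (a.filter fun x => ¬ P x).card ≤ b) →
    ∃ y : Finset W → ZMod 2, (∀ a, y a ≠ 0 → SS P R a ∧ a.card = m + 1) ∧
      ∀ a, z a + bd y a ≠ 0 → ∀ x ∈ a, P x := by
  intro b
  induction b with
  | zero =>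
    intro z hz hcyc hb
    refine ⟨fun _ => 0, fun a h => absurd rfl h, ?_⟩
    intro a ha x hx
    have hz0 : z a ≠ 0 := by
      intro h0
      apply ha
      rw [h0]
      simp [bd]
    by_contra hP
    have h1 := hb a hz0
    have h2 : x ∈ a.filter fun x => ¬ P x := Finset.mem_filter.mpr ⟨hx, hP⟩
    have h3 : 0 < (a.filter fun x => ¬ P x).card := Finset.card_pos.mpr ⟨x, h2⟩
    omega
  | succ b ih =>
    intro z hz hcyc hb
    by_cases hne : ∃ a, z a ≠ 0
    swap
    · push Not at hne
      refine ⟨fun _ => 0, fun a h => absurd rfl h, ?_⟩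
      intro a ha
      exfalso
      apply ha
      rw [hne a]
      simp [bd]
    have hPne : Nonempty W := by
      obtain ⟨a, ha⟩ := hne
      obtain ⟨-, -, x, -, -⟩ := (hz a ha).1
      exact ⟨x⟩
    -- choice of the cone vertex
    have hc : ∀ B : Finset W, ∃ c : W, (∃ a, z a ≠ 0 ∧ (a.filter fun x => ¬ P x) = B) →
        P c ∧ ∀ y ∈ B, R c y := by
      intro B
      by_cases h : ∃ a, z a ≠ 0 ∧ (a.filter fun x => ¬ P x) = B
      · obtain ⟨a, ha, rfl⟩ := h
        obtain ⟨-, -, x, hx, hx'⟩ := (hz a ha).1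
        refine ⟨x, fun _ => ⟨hx, fun y hy => ?_⟩⟩
        rw [Finset.mem_filter] at hy
        exact hx' y hy.1 hy.2
      · exact ⟨Classical.arbitrary W, fun h' => absurd h' h⟩
    choose c hc using hc
    let Bp : Finset W → Finset W := fun a => a.filter fun x => ¬ P x
    let y : Finset W → ZMod 2 := fun a =>
      if (Bp a).card = b + 1 ∧ c (Bp a) ∈ a ∧ P (c (Bp a)) then z (a.erase (c (Bp a))) else 0
    have hBerase : ∀ (a : Finset W) (w : W), P w → Bp (a.erase w) = Bp a := by
      intro a w hw
      ext x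
      simp only [Bp, Finset.mem_filter, Finset.mem_erase]
      constructor
      · rintro ⟨⟨-, h2⟩, h3⟩
        exact ⟨h2, h3⟩
      · rintro ⟨h2, h3⟩
        exact ⟨⟨fun h => h3 (h ▸ hw), h2⟩, h3⟩
    have hBins : ∀ (a : Finset W) (w : W), P w → Bp (insert w a) = Bp a := by
      intro a w hw
      ext x
      simp only [Bp, Finset.mem_filter, Finset.mem_insert]
      constructor
      · rintro ⟨rfl | h2, h3⟩
        · exact absurd hw h3
        · exact ⟨h2, h3⟩
      · rintro ⟨h2, h3⟩
        exact ⟨Or.inr h2, h3⟩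
    have hBins' : ∀ (a : Finset W) (w : W), w ∉ a → ¬ P w →
        (Bp (insert w a)).card = (Bp a).card + 1 := by
      intro a w hwa hw
      simp only [Bp]
      rw [Finset.filter_insert, if_pos hw, Finset.card_insert_of_notMem]
      intro h
      exact hwa (Finset.mem_filter.mp h).1
    have hy : ∀ a, y a ≠ 0 → SS P R a ∧ a.card = m + 1 := by
      intro a ha
      simp only [y] at ha
      split_ifs at ha with h
      · obtain ⟨h1, h2, h3⟩ := h
        obtain ⟨h4, h5⟩ := hz _ ha
        have h6 := hc (Bp a) ⟨a.erase (c (Bp a)), ha, hBerase a _ h3⟩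
        rw [Finset.card_erase_of_mem h2] at h5
        have h7 : 0 < a.card := Finset.card_pos.mpr ⟨_, h2⟩
        obtain ⟨h8, h9, x0, h10, h11⟩ := h4
        have h12 : 0 < (Bp a).card := by omega
        obtain ⟨y0, hy0⟩ := Finset.card_pos.mp h12
        have hy0' := Finset.mem_filter.mp hy0
        have key : ∀ x ∈ a, ∀ y ∈ a, P x → ¬ P y → R x y := by
          intro x hx y hy hPx hPy
          have hyc : y ≠ c (Bp a) := fun hh => hPy (hh ▸ h3)
          by_cases hxc : x = c (Bp a)
          · rw [hxc]
            exact h6.2 y (Finset.mem_filter.mpr ⟨hy, hPy⟩)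
          · exact h8 x (Finset.mem_erase.mpr ⟨hxc, hx⟩) y (Finset.mem_erase.mpr ⟨hyc, hy⟩)
              hPx hPy
        refine ⟨⟨key, ⟨y0, hy0'.2, fun x hx hPx => key x hx y0 hy0'.1 hPx hy0'.2⟩,
          x0, h10, ?_⟩, by omega⟩
        intro y hy hPy
        have hyc : y ≠ c (Bp a) := fun hh => hPy (hh ▸ h3)
        exact h11 y (Finset.mem_erase.mpr ⟨hyc, hy⟩) hPy
      · exact absurd rfl ha
    -- the boundary on top
    have htop : ∀ a, (Bp a).card = b + 1 → bd y a = z a := by
      intro a ha
      have hzero : ∀ a' : Finset W, b + 1 < (Bp a').card → z a' = 0 := by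
        intro a' h
        by_contra h0
        have := hb a' h0
        simp only [Bp] at h
        omega
      by_cases hex : ∃ a', z a' ≠ 0 ∧ Bp a' = Bp a
      swap
      · have hz0 : ∀ a', Bp a' = Bp a → z a' = 0 := by
          intro a' h
          by_contra h0
          exact hex ⟨a', h0, h⟩
        rw [hz0 a rfl]
        simp only [bd]
        refine Finset.sum_eq_zero fun w hw => ?_
        simp only [Finset.mem_sdiff, Finset.mem_univ, true_and] at hw
        simp only [y]
        split_ifs with h
        · obtain ⟨h1, h2, h3⟩ := h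
          by_cases hPw : P w
          · rw [hz0]
            rw [hBerase _ _ h3, hBins a w hPw]
          · rw [hBins' a w hw hPw] at h1
            omega
        · rfl
      have hcc := hc (Bp a) hex
      have hval : ∀ w, w ∉ a → y (insert w a) =
          if c (Bp a) ∈ insert w a ∧ P w then z ((insert w a).erase (c (Bp a))) else 0 := by
        intro w hw
        by_cases hPw : P w
        · simp only [y]
          rw [hBins a w hPw]
          by_cases hmem : c (Bp a) ∈ insert w a
          · rw [if_pos ⟨ha, hmem, hcc.1⟩, if_pos ⟨hmem, hPw⟩]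
          · rw [if_neg (fun h => hmem h.2.1), if_neg (fun h => hmem h.1)]
        · rw [if_neg (fun h => hPw h.2)]
          simp only [y]
          rw [if_neg]
          intro h
          have := h.1
          rw [hBins' a w hw hPw] at this
          omega
      by_cases hca : c (Bp a) ∈ a
      · have h0 := hcyc (a.erase (c (Bp a)))
        have e1 : (Finset.univ \ a.erase (c (Bp a)) : Finset W) =
            insert (c (Bp a)) (Finset.univ \ a) := by
          ext x
          simp only [Finset.mem_sdiff, Finset.mem_univ, true_and, Finset.mem_erase,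
            Finset.mem_insert]
          tauto
        simp only [bd] at h0 ⊢
        rw [e1, Finset.sum_insert (by simp [hca]), Finset.insert_erase hca] at h0
        have e2 : ∑ w ∈ Finset.univ \ a, y (insert w a) =
            ∑ w ∈ Finset.univ \ a, z (insert w (a.erase (c (Bp a)))) := by
          refine Finset.sum_congr rfl fun w hw => ?_
          simp only [Finset.mem_sdiff, Finset.mem_univ, true_and] at hw
          have hne : w ≠ c (Bp a) := fun hh => hw (hh ▸ hca)
          rw [hval w hw]
          by_cases hPw : P w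
          · rw [if_pos ⟨Finset.mem_insert_of_mem hca, hPw⟩, Finset.erase_insert_of_ne hne]
          · rw [if_neg (fun h => hPw h.2)]
            symm
            apply hzero
            rw [hBins' _ w (fun h => hw (Finset.mem_erase.mp h).2) hPw, hBerase _ _ hcc.1]
            omega
        rw [e2]
        have h1 := two (z a)
        have h2 := congrArg (fun t => z a + t) h0
        simp only [add_zero] at h2
        rw [← add_assoc, h1, zero_add] at h2
        exact h2
      · simp only [bd]
        rw [Finset.sum_eq_single (c (Bp a))]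
        · rw [hval _ hca, if_pos ⟨Finset.mem_insert_self _ _, hcc.1⟩, Finset.erase_insert hca]
        · intro w hw hne
          simp only [Finset.mem_sdiff, Finset.mem_univ, true_and] at hw
          rw [hval w hw, if_neg]
          rintro ⟨h1, -⟩
          rcases Finset.mem_insert.mp h1 with h1 | h1
          · exact hne h1.symm
          · exact hca h1
        · intro hh
          exact absurd (by simp [hca]) hh
    -- the new cycle
    let z' : Finset W → ZMod 2 := fun a => z a + bd y a
    have hz' : ∀ a, z' a ≠ 0 → SS P R a ∧ a.card = m := by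
      intro a ha
      by_cases h0 : z a = 0
      · apply bd_supp (SS_down P R) hy
        simp only [z', h0, zero_add] at ha
        exact ha
      · exact hz a h0
    have hcyc' : ∀ a, bd z' a = 0 := by
      intro a
      simp only [z']
      rw [bd_add, hcyc a, bd_bd, add_zero]
    have hb' : ∀ a, z' a ≠ 0 → (a.filter fun x => ¬ P x).card ≤ b := by
      intro a ha
      by_contra hlt
      have hlt' : b + 1 ≤ (Bp a).card := by
        simp only [Bp]
        omega
      rcases Nat.eq_or_lt_of_le hlt' with h | h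
      · apply ha
        simp only [z']
        rw [htop a h.symm]
        exact two _
      · apply ha
        simp only [z']
        have h1 : z a = 0 := by
          by_contra h0
          have := hb a h0
          simp only [Bp] at h
          omega
        rw [h1, zero_add]
        simp only [bd]
        refine Finset.sum_eq_zero fun w hw => ?_
        simp only [Finset.mem_sdiff, Finset.mem_univ, true_and] at hw
        simp only [y]
        rw [if_neg]
        rintro ⟨h2, -⟩
        by_cases hPw : P w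
        · rw [hBins a w hPw] at h2
          omega
        · rw [hBins' a w hw hPw] at h2
          omega
    obtain ⟨y', hy1, hy2⟩ := ih z' hz' hcyc' hb'
    refine ⟨fun a => y a + y' a, ?_, ?_⟩
    · intro a ha
      by_cases h0 : y a = 0
      · apply hy1
        intro h1
        apply ha
        change y a + y' a = 0
        rw [h0, h1, add_zero]
      · exact hy a h0
    · intro a ha
      apply hy2 a
      simp only [z']
      rw [bd_add, ← add_assoc] at ha
      exact ha

open Classical in
theorem step1' (P : W → Prop) (R : W → W → Prop) (m : ℕ) (z : Finset W → ZMod 2)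
    (hz : ∀ a, z a ≠ 0 → SS P R a ∧ a.card = m) (hcyc : ∀ a, bd z a = 0) :
    ∃ y : Finset W → ZMod 2, (∀ a, y a ≠ 0 → SS P R a ∧ a.card = m + 1) ∧
      ∀ a, z a + bd y a ≠ 0 → ∀ x ∈ a, P x :=
  step1 P R m m z hz hcyc fun a ha => (Finset.card_filter_le _ _).trans (hz a ha).2.le

open Classical in
theorem cone_supp (Q : W → Prop) (w0 : W) (hQ : Q w0) (m : ℕ) (w : Finset W → ZMod 2)
    (h1 : ∀ a, w a ≠ 0 → a.card = m) (h2 : ∀ a, w a ≠ 0 → ∀ x ∈ a, Q x) (a : Finset W)
    (ha : cone w0 w a ≠ 0) : (∀ x ∈ a, Q x) ∧ a.card = m + 1 := by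
  simp only [cone] at ha
  split_ifs at ha with h
  · have h3 := h1 _ ha
    have h4 := h2 _ ha
    rw [Finset.card_erase_of_mem h] at h3
    have h5 : 0 < a.card := Finset.card_pos.mpr ⟨_, h⟩
    refine ⟨fun x hx => ?_, by omega⟩
    by_cases hx0 : x = w0
    · rw [hx0]
      exact hQ
    · exact h4 x (Finset.mem_erase.mpr ⟨hx0, hx⟩)
  · exact absurd rfl ha

end

/-- the box complex as an abstract box complex -/
theorem BB_iff {V : Type} [Fintype V] (G : SimpleGraph V) (s : Bool) (a : Finset (V × Bool)) :
    BB G a ↔ SS (fun x : V × Bool => x.2 = s) (fun x y => G.Adj x.1 y.1) a := by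
  cases s
  · constructor
    · rintro ⟨h1, ⟨w, h2⟩, v, h3⟩
      refine ⟨?_, ⟨(w, true), by simp, ?_⟩, ⟨(v, false), rfl, ?_⟩⟩
      · rintro ⟨x, s⟩ hx ⟨y, t⟩ hy hs ht
        simp only at hs ht
        subst hs
        have ht' : t = true := by simpa using ht
        subst ht'
        exact h1 x y hx hy
      · rintro ⟨x, s⟩ hx hs
        simp only at hs
        subst hs
        exact h2 x hx
      · rintro ⟨y, t⟩ hy ht
        have ht' : t = true := by simpa using ht
        subst ht'
        exact h3 y hy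
    · rintro ⟨h1, ⟨w, -, h2⟩, v, -, h3⟩
      refine ⟨fun x y hx hy => h1 (x, false) hx (y, true) hy rfl (by simp), ⟨w.1, fun x hx =>
        h2 (x, false) hx rfl⟩, v.1, fun y hy => h3 (y, true) hy (by simp)⟩
  · constructor
    · rintro ⟨h1, ⟨w, h2⟩, v, h3⟩
      refine ⟨?_, ⟨(v, false), by simp, ?_⟩, ⟨(w, true), rfl, ?_⟩⟩
      · rintro ⟨x, s⟩ hx ⟨y, t⟩ hy hs ht
        simp only at hs ht
        subst hs
        have ht' : t = false := by simpa using ht
        subst ht'
        exact (h1 y x hy hx).symm
      · rintro ⟨x, s⟩ hx hs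
        simp only at hs
        subst hs
        exact (h3 x hx).symm
      · rintro ⟨y, t⟩ hy ht
        have ht' : t = false := by simpa using ht
        subst ht'
        exact (h2 y hy).symm
    · rintro ⟨h1, ⟨w, -, h2⟩, v, -, h3⟩
      refine ⟨fun x y hx hy => (h1 (y, true) hy (x, false) hx rfl (by simp)).symm, ⟨v.1, fun x hx =>
        (h3 (x, false) hx (by simp)).symm⟩, w.1, fun y hy => (h2 (y, true) hy rfl).symm⟩

end BBaux

open BBaux in
theorem taskBB_proof : TaskBB := by
  intro V _ G n hB0 m hm z hz hcyc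
  have hcyc' : ∀ a, bd z a = 0 := hcyc
  by_cases hne : ∃ a, z a ≠ 0
  swap
  · push Not at hne
    exact ⟨fun _ => 0, fun a h => absurd rfl h, fun a => by rw [hne a]; simp⟩
  obtain ⟨v0⟩ : Nonempty V := by
    obtain ⟨a, ha⟩ := hne
    obtain ⟨-, ⟨w, -⟩, -⟩ := (hz a ha).1
    exact ⟨w⟩
  have hdown : ∀ a b : Finset (V × Bool), a ⊆ b → BB G b → BB G a := by
    intro a b hab hb
    rw [BB_iff G false] at hb ⊢
    exact SS_down _ _ a b hab hb
  have hst : ∀ s : Bool, ∃ y : Finset (V × Bool) → ZMod 2,
      (∀ a, y a ≠ 0 → BB G a ∧ a.card = m + 1) ∧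
      ∀ a, z a + bd y a ≠ 0 → ∀ x ∈ a, x.2 = s := by
    intro s
    obtain ⟨y, h1, h2⟩ := step1' (fun x : V × Bool => x.2 = s) (fun x y => G.Adj x.1 y.1) m z
      (fun a ha => ⟨(BB_iff G s a).mp (hz a ha).1, (hz a ha).2⟩) hcyc'
    exact ⟨y, fun a ha => ⟨(BB_iff G s a).mpr (h1 a ha).1, (h1 a ha).2⟩, h2⟩
  obtain ⟨y1, hy1, hy1'⟩ := hst false
  obtain ⟨y2, hy2, hy2'⟩ := hst true
  let z1 : Finset (V × Bool) → ZMod 2 := fun a => z a + bd y1 a
  let z2 : Finset (V × Bool) → ZMod 2 := fun a => z a + bd y2 a
  have hz1c : ∀ a, bd z1 a = 0 := by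
    intro a
    simp only [z1]
    rw [bd_add, hcyc' a, bd_bd, add_zero]
  have hz2c : ∀ a, bd z2 a = 0 := by
    intro a
    simp only [z2]
    rw [bd_add, hcyc' a, bd_bd, add_zero]
  have hz1card : ∀ a, z1 a ≠ 0 → a.card = m := by
    intro a ha
    by_cases h0 : z a = 0
    · simp only [z1, h0, zero_add] at ha
      exact (bd_supp hdown hy1 a ha).2
    · exact (hz a h0).2
  have hz2card : ∀ a, z2 a ≠ 0 → a.card = m := by
    intro a ha
    by_cases h0 : z a = 0
    · simp only [z2, h0, zero_add] at ha
      exact (bd_supp hdown hy2 a ha).2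
    · exact (hz a h0).2
  let f1 := cone (v0, false) z1
  let f2 := cone (v0, true) z2
  have hcone : ∀ (s : Bool) (w : Finset (V × Bool) → ZMod 2),
      (∀ a, w a ≠ 0 → a.card = m) → (∀ a, w a ≠ 0 → ∀ x ∈ a, x.2 = s) →
      ∀ a, cone (v0, s) w a ≠ 0 → (∀ x ∈ a, x.2 = s) ∧ a.card = m + 1 := by
    exact fun s w h1 h2 => cone_supp (fun x : V × Bool => x.2 = s) (v0, s) rfl m w h1 h2
  have hf1 := hcone false z1 hz1card hy1'
  have hf2 := hcone true z2 hz2card hy2'
  let E : Finset (V × Bool) → ZMod 2 := fun a => (y1 a + y2 a) + (f1 a + f2 a)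
  have hEc : ∀ a, bd E a = 0 := by
    intro a
    simp only [E]
    rw [bd_add, bd_add, bd_add, bd_cone _ z1 hz1c, bd_cone _ z2 hz2c]
    simp only [z1, z2]
    have h1 := two (z a)
    have h2 := two (bd y1 a)
    have h3 := two (bd y2 a)
    linear_combination h1 + h2 + h3
  have hES : ∀ a, E a ≠ 0 → B0 G a ∧ a.card = m + 1 := by
    intro a ha
    by_cases h1 : y1 a = 0
    swap
    · exact ⟨(hy1 a h1).1.1, (hy1 a h1).2⟩
    by_cases h2 : y2 a = 0
    swap
    · exact ⟨(hy2 a h2).1.1, (hy2 a h2).2⟩
    by_cases h3 : f1 a = 0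
    swap
    · refine ⟨fun v w _ hw => ?_, (hf1 a h3).2⟩
      have := (hf1 a h3).1 _ hw
      simp at this
    by_cases h4 : f2 a = 0
    swap
    · refine ⟨fun v w hv _ => ?_, (hf2 a h4).2⟩
      have := (hf2 a h4).1 _ hv
      simp at this
    exfalso
    apply ha
    simp only [E]
    rw [h1, h2, h3, h4]
    simp
  obtain ⟨g, hg1, hg2⟩ := hB0 (m + 1) (by omega) E hES hEc
  have hg2' : ∀ a, E a = bd g a := hg2
  classical
  let g1 : Finset (V × Bool) → ZMod 2 := fun a => if ∀ x ∈ a, x.2 = false then g a else 0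
  let g2 : Finset (V × Bool) → ZMod 2 := fun a => if ∀ x ∈ a, x.2 = true then g a else 0
  let gB : Finset (V × Bool) → ZMod 2 := fun a => g a + (g1 a + g2 a)
  have hg1S : ∀ a, g1 a ≠ 0 → (∀ x ∈ a, x.2 = false) ∧ a.card = m + 1 + 1 := by
    intro a ha
    simp only [g1] at ha
    split_ifs at ha with h
    · exact ⟨h, (hg1 a ha).2⟩
    · exact absurd rfl ha
  have hg2S : ∀ a, g2 a ≠ 0 → (∀ x ∈ a, x.2 = true) ∧ a.card = m + 1 + 1 := by
    intro a ha
    simp only [g2] at ha
    split_ifs at ha with h
    · exact ⟨h, (hg1 a ha).2⟩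
    · exact absurd rfl ha
  have hgBS : ∀ a, gB a ≠ 0 → BB G a ∧ a.card = m + 1 + 1 := by
    intro a ha
    have hga : g a ≠ 0 := by
      intro h0
      apply ha
      simp only [gB, g1, g2]
      rw [h0]
      simp
    obtain ⟨h1, h2⟩ := hg1 a hga
    have hf : ¬ ∀ x ∈ a, x.2 = false := by
      intro hall
      have hnt : ¬ ∀ x ∈ a, x.2 = true := by
        intro hall'
        have : 0 < a.card := by omega
        obtain ⟨x, hx⟩ := Finset.card_pos.mp this
        have e1 := hall x hx
        have e2 := hall' x hx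
        rw [e1] at e2
        simp at e2
      apply ha
      simp only [gB, g1, g2]
      rw [if_pos hall, if_neg hnt, add_zero]
      exact two _
    have ht : ¬ ∀ x ∈ a, x.2 = true := by
      intro hall
      apply ha
      simp only [gB, g1, g2]
      rw [if_pos hall, if_neg hf, zero_add]
      exact two _
    push Not at hf ht
    obtain ⟨⟨x, s⟩, hx, hs⟩ := hf
    obtain ⟨⟨y, t⟩, hy, ht⟩ := ht
    have hs' : s = true := by simpa using hs
    have ht' : t = false := by simpa using ht
    subst hs' ht'
    exact ⟨⟨h1, ⟨x, fun v hv => h1 v x hv hx⟩, y, fun w hw => h1 y w hy hw⟩, h2⟩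
  let h1 : Finset (V × Bool) → ZMod 2 := fun a => bd g1 a + f1 a
  let h2 : Finset (V × Bool) → ZMod 2 := fun a => bd g2 a + f2 a
  have hpart : ∀ s : Bool, ∀ a b : Finset (V × Bool), a ⊆ b → (∀ x ∈ b, x.2 = s) →
      ∀ x ∈ a, x.2 = s := fun s a b hab hb x hx => hb x (hab hx)
  have hh1 : ∀ a, h1 a ≠ 0 → (∀ x ∈ a, x.2 = false) ∧ a.card = m + 1 := by
    intro a ha
    by_cases h0 : f1 a = 0
    · simp only [h1, h0, add_zero] at ha
      exact bd_supp (hpart false) hg1S a ha
    · exact hf1 a h0
  have hh2 : ∀ a, h2 a ≠ 0 → (∀ x ∈ a, x.2 = true) ∧ a.card = m + 1 := by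
    intro a ha
    by_cases h0 : f2 a = 0
    · simp only [h2, h0, add_zero] at ha
      exact bd_supp (hpart true) hg2S a ha
    · exact hf2 a h0
  have hsum : ∀ a, (y1 a + y2 a) + bd gB a = h1 a + h2 a := by
    intro a
    simp only [gB, h1, h2]
    rw [bd_add, bd_add, ← hg2' a]
    simp only [E]
    have k1 := two (y1 a)
    have k2 := two (y2 a)
    linear_combination k1 + k2
  have hh1B : ∀ a, h1 a ≠ 0 → BB G a ∧ a.card = m + 1 := by
    intro a ha
    obtain ⟨k1, k2⟩ := hh1 a ha
    refine ⟨?_, k2⟩
    have k3 : h2 a = 0 := by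
      by_contra hne2
      obtain ⟨k4, -⟩ := hh2 a hne2
      have : 0 < a.card := by omega
      obtain ⟨x, hx⟩ := Finset.card_pos.mp this
      have e1 := k1 x hx
      have e2 := k4 x hx
      rw [e1] at e2
      simp at e2
    have k5 := hsum a
    rw [k3, add_zero] at k5
    by_cases l1 : y1 a = 0
    swap
    · exact (hy1 a l1).1
    by_cases l2 : y2 a = 0
    swap
    · exact (hy2 a l2).1
    rw [l1, l2, add_zero, zero_add] at k5
    refine (bd_supp hdown hgBS a ?_).1
    rw [k5]
    exact ha
  refine ⟨fun a => h1 a + y1 a, ?_, ?_⟩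
  · intro a ha
    by_cases l1 : y1 a = 0
    · apply hh1B
      intro h0
      apply ha
      simp only [h0, l1, add_zero]
    · exact hy1 a l1
  · intro a
    have k1 : bd (fun a => h1 a + y1 a) a = z a := by
      simp only [h1]
      rw [bd_add, bd_add, bd_bd, zero_add, bd_cone _ z1 hz1c]
      simp only [z1]
      have := two (bd y1 a)
      linear_combination this
    exact k1.symm

end Pool.Agent.H370R3.BX
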