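import Pool.Agent.H370R3.BX.Stmts

set_option autoImplicit false

open Set Filter Topology unitInterval

namespace Pool.Agent.H370R3.BX

namespace TBase

open Classical in
/-- a point of the 0-skeleton is a vertex -/
theorem vertex {W : Type} [Fintype W] {S : Finset W → Prop} (x : RealC W S)
    (hx : x ∈ Skel W S 0) : ∃ w : W, x.1 = Pi.single w (1 : ℝ) := by
  obtain ⟨x, h1, h2, h3⟩ := x
  have hx' : (supp x).card ≤ 1 := by simpa [Skel] using hx
  have hne : (supp x).Nonempty := by
    by_contra hcon
    rw [Finset.not_nonempty_iff_eq_empty] at hcon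
    have h4 : ∑ w, x w = 0 := by
      apply Finset.sum_eq_zero
      intro w _
      by_contra hw
      have : w ∈ supp x := by simp [supp, hw]
      rw [hcon] at this
      simp at this
    rw [h4] at h2
    norm_num at h2
  obtain ⟨w, hw⟩ := hne
  have huniq : ∀ v, v ≠ w → x v = 0 := by
    intro v hv
    by_contra hxv
    have hv' : v ∈ supp x := by simp [supp, hxv]
    exact hv (Finset.card_le_one.1 hx' v hv' w hw)
  refine ⟨w, ?_⟩
  have hw1 : x w = 1 := by
    rw [← h2]
    symm
    apply Finset.sum_eq_single w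
    · intro v _ hv
      exact huniq v hv
    · intro h
      exact absurd (Finset.mem_univ w) h
  funext v
  by_cases hv : v = w
  · subst hv; simp [hw1]
  · simp [hv, huniq v hv]

theorem finite0 (W : Type) [Fintype W] (S : Finset W → Prop) : Finite ↥(Skel W S 0) := by
  classical
  have h : ∀ x : ↥(Skel W S 0), ∃ w : W, x.1.1 = Pi.single w (1 : ℝ) := fun x => vertex x.1 x.2
  choose f hf using h
  apply Finite.of_injective f
  intro x y hxy
  apply Subtype.ext
  apply Subtype.ext
  rw [hf x, hf y, hxy]

theorem t2 (W : Type) [Fintype W] (S : Finset W → Prop) : T2Space (RealC W S) :=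
  inferInstanceAs (T2Space {x : W → ℝ // (∀ w, 0 ≤ x w) ∧ ∑ w, x w = 1 ∧ S (supp x)})

theorem discrete0 (W : Type) [Fintype W] (S : Finset W → Prop) :
    DiscreteTopology ↥(Skel W S 0) := by
  have := finite0 W S
  have := t2 W S
  infer_instance

end TBase

open TBase in
theorem taskBase_proof : TaskBase := by
  intro W _ S n hpc h x0
  have hd := discrete0 W S
  have hj : ∀ x : ↥(Skel W S 0), JoinedIn (Skel W S n) x.1 x0.1 := fun x =>
    hpc.joinedIn x.1 (h x.2) x0.1 x0.2
  choose γ hγ using hj
  refine ⟨⟨fun p => ⟨γ p.2 p.1, hγ p.2 p.1⟩, ?_⟩, ?_, ?_⟩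
  · rw [continuous_prod_of_discrete_right]
    intro x
    exact (γ x).continuous.subtype_mk _
  · intro x
    apply Subtype.ext
    exact (γ x).source
  · intro x
    apply Subtype.ext
    exact (γ x).target

end Pool.Agent.H370R3.BX
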