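import Pool.Agent.H370R3.BX.Stmts

set_option autoImplicit false

open Set Filter Topology unitInterval

namespace Pool.Agent.H370R3.BX

noncomputable section

namespace Box632

theorem pull_pull {D D' D'' : Type} [TopologicalSpace D] [TopologicalSpace D'] [TopologicalSpace D'']
    {B : Set D} {B' : Set D'} {B'' : Set D''} {Y : Type} [TopologicalSpace Y] {y0 : Y}
    (φ : C(D', D)) (h : ∀ b ∈ B', φ b ∈ B) (ψ : C(D'', D')) (h' : ∀ b ∈ B'', ψ b ∈ B')
    (h'' : ∀ b ∈ B'', (φ.comp ψ) b ∈ B) (x : LG D B Y y0) :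
    LG.pull B'' ψ h' (LG.pull B' φ h x) = LG.pull B'' (φ.comp ψ) h'' x := by
  induction x using Quotient.inductionOn
  rfl

theorem pull_id {D : Type} [TopologicalSpace D] {B : Set D} {Y : Type} [TopologicalSpace Y] {y0 : Y}
    (h : ∀ b ∈ B, (ContinuousMap.id D) b ∈ B) (x : LG D B Y y0) :
    LG.pull B (ContinuousMap.id D) h x = x := by
  induction x using Quotient.inductionOn
  rfl

/-- straight line -/
def lerp (s a b : I) : I :=
  ⟨(1 - (s : ℝ)) * a + s * b, by
    have h1 := s.2.1; have h2 := s.2.2; have h3 := a.2.1; have h4 := a.2.2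
    have h5 := b.2.1; have h6 := b.2.2
    constructor
    · have := mul_nonneg (sub_nonneg.2 h2) h3
      have := mul_nonneg h1 h5
      linarith
    · have := mul_le_mul_of_nonneg_left h4 (sub_nonneg.2 h2)
      have := mul_le_mul_of_nonneg_left h6 h1
      linarith⟩

lemma lerp_zero (a b : I) : lerp 0 a b = a := by
  apply Subtype.ext; simp [lerp]

lemma lerp_one (a b : I) : lerp 1 a b = b := by
  apply Subtype.ext; simp [lerp]

lemma lerp_self (s a : I) : lerp s a a = a := by
  apply Subtype.ext; simp only [lerp]; ring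

lemma continuous_lerp {Z : Type} [TopologicalSpace Z] {s a b : Z → I} (hs : Continuous s)
    (ha : Continuous a) (hb : Continuous b) : Continuous fun z => lerp (s z) (a z) (b z) := by
  unfold lerp
  refine Continuous.subtype_mk ?_ _
  have h1 := continuous_subtype_val.comp hs
  have h2 := continuous_subtype_val.comp ha
  have h3 := continuous_subtype_val.comp hb
  exact ((continuous_const.sub h1).mul h2).add (h1.mul h3)

variable {n : ℕ}

/-- all facets but one -/
def JJ (n : ℕ) : Set (Fin (n + 1) → I) :=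
  {t | t (Fin.last n) = 0 ∨ (fun k : Fin n => t k.castSucc) ∈ bdry n}

/-- index set of the facets -/
abbrev Jx (n : ℕ) : Type := {p : Fin (n + 1) × Bool // p ≠ (Fin.last n, true)}

def ev (b : Bool) : I := if b then 1 else 0

lemma ev_mem (b : Bool) : ev b = 0 ∨ ev b = 1 := by cases b <;> simp [ev]

lemma ev_inj {b b' : Bool} (h : ev b = ev b') : b = b' := by
  cases b <;> cases b' <;> simp [ev] at h ⊢

lemma facet_self (i : Fin (n + 1)) (e : I) (t : Fin n → I) : facet n i e t i = e := by
  simp [facet]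

lemma facet_succ (i : Fin (n + 1)) (e : I) (t : Fin n → I) (k : Fin n) :
    facet n i e t (i.succAbove k) = t k := by
  simp [facet]

lemma facet_mem_JJ (p : Jx n) (t : Fin n → I) : facet n p.1.1 (ev p.1.2) t ∈ JJ n := by
  obtain ⟨⟨i, b⟩, hp⟩ := p
  by_cases hi : i = Fin.last n
  · left
    subst hi
    have hb : b = false := by
      cases b
      · rfl
      · exact absurd rfl hp
    subst hb
    exact facet_self _ _ _
  · right
    obtain ⟨k, hk⟩ := Fin.exists_castSucc_eq.2 hi
    refine ⟨k, ?_⟩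
    simp only
    rw [hk, facet_self]
    exact ev_mem b

lemma facet_bd2 (i : Fin (n + 1)) (b : Bool) (t : Fin n → I) :
    facet n i (ev b) t ∈ bd2 (n + 1) ↔ t ∈ bdry n := by
  constructor
  · rintro ⟨i1, i2, hne, h1, h2⟩
    by_cases hi : i1 = i
    · have hi2 : i2 ≠ i := fun h => hne (hi.trans h.symm)
      obtain ⟨k, hk⟩ := Fin.exists_succAbove_eq hi2
      rw [← hk, facet_succ] at h2
      exact ⟨k, h2⟩
    · obtain ⟨k, hk⟩ := Fin.exists_succAbove_eq hi
      rw [← hk, facet_succ] at h1
      exact ⟨k, h1⟩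
  · exact facet_mem n i _ (ev_mem b) t

lemma bd2_sub_JJ : bd2 (n + 1) ⊆ JJ n := by
  rintro t ⟨i, j, hne, hi, hj⟩
  right
  by_cases h : i = Fin.last n
  · have hj' : j ≠ Fin.last n := fun h' => hne (h.trans h'.symm)
    obtain ⟨k, hk⟩ := Fin.exists_castSucc_eq.2 hj'
    exact ⟨k, by simp only; rw [hk]; exact hj⟩
  · obtain ⟨k, hk⟩ := Fin.exists_castSucc_eq.2 h
    exact ⟨k, by simp only; rw [hk]; exact hi⟩

lemma isClosed_bdry (n : ℕ) : IsClosed (bdry n) := by
  have : bdry n = ⋃ i : Fin n, {t | t i = 0 ∨ t i = 1} := by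
    ext t; simp [bdry]
  rw [this]
  refine isClosed_iUnion_of_finite (fun i => ?_)
  exact (isClosed_singleton.preimage (continuous_apply i)).union
    (isClosed_singleton.preimage (continuous_apply i))

lemma isClosed_bd2 (n : ℕ) : IsClosed (bd2 n) := by
  have : bd2 n = ⋃ i : Fin n, ⋃ j : Fin n, {t | i ≠ j ∧ ((t i = 0 ∨ t i = 1) ∧ (t j = 0 ∨ t j = 1))} := by
    ext t; simp [bd2]
  rw [this]
  refine isClosed_iUnion_of_finite (fun i => isClosed_iUnion_of_finite (fun j => ?_))
  by_cases h : i = j
  · have : {t : Fin n → I | i ≠ j ∧ ((t i = 0 ∨ t i = 1) ∧ (t j = 0 ∨ t j = 1))} = ∅ := by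
      ext t; simp [h]
    rw [this]; exact isClosed_empty
  · have : {t : Fin n → I | i ≠ j ∧ ((t i = 0 ∨ t i = 1) ∧ (t j = 0 ∨ t j = 1))} =
        {t | t i = 0 ∨ t i = 1} ∩ {t | t j = 0 ∨ t j = 1} := by
      ext t; simp [h]
    rw [this]
    exact ((isClosed_singleton.preimage (continuous_apply i)).union
      (isClosed_singleton.preimage (continuous_apply i))).inter
      ((isClosed_singleton.preimage (continuous_apply j)).union
      (isClosed_singleton.preimage (continuous_apply j)))

/-- `init` -/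
def ini (t : Fin (n + 1) → I) : Fin n → I := fun k => t k.castSucc

lemma continuous_ini : Continuous (ini : (Fin (n + 1) → I) → Fin n → I) :=
  continuous_pi fun k => continuous_apply _

lemma isClosed_JJ (n : ℕ) : IsClosed (JJ n) :=
  (isClosed_singleton.preimage (continuous_apply (Fin.last n))).union
    ((isClosed_bdry n).preimage continuous_ini)

instance : CompactSpace ↥(JJ n) := isCompact_iff_compactSpace.1 (isClosed_JJ n).isCompact

/-- the characteristic maps -/
def kap (n : ℕ) (p : Jx n) : C(Fin n → I, ↥(JJ n)) :=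
  ⟨fun t => ⟨facet n p.1.1 (ev p.1.2) t, facet_mem_JJ p t⟩,
    (facet n p.1.1 (ev p.1.2)).continuous.subtype_mk _⟩

/-- the codimension two faces in `JJ` -/
def BJ (n : ℕ) : Set ↥(JJ n) := {x | x.1 ∈ bd2 (n + 1)}

lemma relCells (n : ℕ) : RelCells ↥(JJ n) (BJ n) (Jx n) n (kap n) where
  closed := (isClosed_bd2 (n + 1)).preimage continuous_subtype_val
  bd p t := facet_bd2 p.1.1 p.1.2 t
  inj := by
    rintro ⟨⟨i, b⟩, hp⟩ ⟨⟨i', b'⟩, hp'⟩ t t' h hB
    have h1 : facet n i (ev b) t = facet n i' (ev b') t' := congrArg Subtype.val h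
    have hB' : facet n i (ev b) t ∉ bd2 (n + 1) := hB
    have hii : i = i' := by
      by_contra hne
      apply hB'
      refine ⟨i, i', hne, ?_, ?_⟩
      · rw [facet_self]; exact ev_mem b
      · rw [h1, facet_self]; exact ev_mem b'
    subst hii
    have hb : b = b' := by
      have h2 := congrFun h1 i
      rw [facet_self, facet_self] at h2
      exact ev_inj h2
    subst hb
    refine ⟨rfl, ?_⟩
    funext k
    have h2 := congrFun h1 (i.succAbove k)
    rwa [facet_succ, facet_succ] at h2
  cover := by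
    rintro ⟨x, hx⟩ hB
    have key : ∃ p : Jx n, x p.1.1 = ev p.1.2 := by
      rcases hx with h | ⟨k, hk⟩
      · exact ⟨⟨(Fin.last n, false), by simp⟩, h⟩
      · rcases hk with hk | hk
        · exact ⟨⟨(k.castSucc, false), by simp⟩, hk⟩
        · exact ⟨⟨(k.castSucc, true), by
            intro h
            have := congrArg Prod.fst h
            exact (Fin.castSucc_lt_last k).ne this⟩, hk⟩
    obtain ⟨p, hp⟩ := key
    refine ⟨p, fun k => x (p.1.1.succAbove k), ?_⟩
    apply Subtype.ext
    show facet n p.1.1 (ev p.1.2) (fun k => x (p.1.1.succAbove k)) = x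
    funext j
    rcases Fin.eq_self_or_eq_succAbove p.1.1 j with h | ⟨k, h⟩
    · rw [h, facet_self, hp]
    · rw [h, facet_succ]

/-- the retraction of the cube to `JJ` -/
def rho (r : C(I × (Fin n → I), I × (Fin n → I))) (t : Fin (n + 1) → I) : Fin (n + 1) → I :=
  Fin.snoc (α := fun _ => I) (r (t (Fin.last n), ini t)).2 (r (t (Fin.last n), ini t)).1

lemma continuous_rho (r : C(I × (Fin n → I), I × (Fin n → I))) : Continuous (rho r) := by
  have h0 : Continuous fun t : Fin (n + 1) → I => r (t (Fin.last n), ini t) :=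
    r.continuous.comp ((continuous_apply _).prodMk continuous_ini)
  refine continuous_pi fun j => ?_
  unfold rho
  refine Fin.lastCases ?_ (fun k => ?_) j
  · simp only [Fin.snoc_last]
    exact continuous_fst.comp h0
  · simp only [Fin.snoc_castSucc]
    exact (continuous_apply k).comp (continuous_snd.comp h0)

lemma snoc_ini (t : Fin (n + 1) → I) : Fin.snoc (α := fun _ => I) (ini t) (t (Fin.last n)) = t := by
  funext j
  refine Fin.lastCases ?_ (fun k => ?_) j
  · simp
  · simp [ini]

end Box632

open Box632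

theorem taskBox_proof : TaskBox := by
  intro hHt hCube hInj n Y _ y0 y h0 h1
  obtain ⟨r, hr1, hr2, hr3⟩ := hCube n
  have hrmem : ∀ t : Fin (n + 1) → I, rho r t ∈ JJ n := by
    intro t
    rcases hr1 (t (Fin.last n), ini t) with h | h
    · left; simp only [rho, Fin.snoc_last]; exact h
    · right
      have : (fun k : Fin n => rho r t k.castSucc) = (r (t (Fin.last n), ini t)).2 := by
        funext k; simp [rho]
      rw [this]; exact h
  have hrfix : ∀ t ∈ JJ n, rho r t = t := by
    intro t ht
    have : r (t (Fin.last n), ini t) = (t (Fin.last n), ini t) := by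
      rcases ht with h | h
      · rw [h]; exact hr2 _
      · exact hr3 _ _ h
    unfold rho
    rw [this]
    exact snoc_ini t
  let inc : C(↥(JJ n), Fin (n + 1) → I) := ⟨Subtype.val, continuous_subtype_val⟩
  have hinc : ∀ b ∈ BJ n, inc b ∈ bd2 (n + 1) := fun b hb => hb
  let rJ : C(Fin (n + 1) → I, ↥(JJ n)) := ⟨fun t => ⟨rho r t, hrmem t⟩,
    (continuous_rho r).subtype_mk _⟩
  have hrJ : ∀ b ∈ bd2 (n + 1), rJ b ∈ BJ n := by
    intro b hb
    show rho r b ∈ bd2 (n + 1)
    rw [hrfix b (bd2_sub_JJ hb)]; exact hb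
  -- `y` restricted to `JJ` is trivial
  have hx' : LG.pull (BJ n) inc hinc y = 1 := by
    apply hInj ↥(JJ n) (BJ n) (Jx n) n (kap n) (relCells n) Y y0
    intro p
    rw [pull_pull inc hinc (kap n p) _ (fun b hb => by
      exact (facet_bd2 p.1.1 p.1.2 b).2 hb)]
    obtain ⟨⟨i, b⟩, hp⟩ := p
    cases b
    · exact h0 i
    · have hi : i ≠ Fin.last n := fun h => hp (by rw [h])
      exact h1 i hi
  -- homotopy
  let Φ : C(I × (Fin (n + 1) → I), Fin (n + 1) → I) :=
    ⟨fun z i => lerp z.1 (z.2 i) (rho r z.2 i), continuous_pi fun i =>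
      continuous_lerp continuous_fst ((continuous_apply i).comp continuous_snd)
        ((continuous_apply i).comp ((continuous_rho r).comp continuous_snd))⟩
  have hid : ∀ b ∈ bd2 (n + 1), (ContinuousMap.id (Fin (n + 1) → I)) b ∈ bd2 (n + 1) :=
    fun b hb => hb
  have hcomp : ∀ b ∈ bd2 (n + 1), (inc.comp rJ) b ∈ bd2 (n + 1) := fun b hb => hrJ b hb
  have key := hHt (Fin (n + 1) → I) (Fin (n + 1) → I) (bd2 (n + 1)) (bd2 (n + 1)) Y y0
    (ContinuousMap.id _) (inc.comp rJ) hid hcomp Φ
    (fun d => by funext i; exact lerp_zero _ _)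
    (fun d => by funext i; exact lerp_one _ _)
    (fun s b hb => by
      have : Φ (s, b) = b := by
        funext i
        show lerp s (b i) (rho r b i) = b i
        rw [hrfix b (bd2_sub_JJ hb)]
        exact lerp_self _ _
      rw [this]; exact hb) y
  rw [pull_id] at key
  have hy : y = 1 := by
    rw [key, ← pull_pull inc hinc rJ hrJ hcomp y, hx', map_one]
  rw [hy, map_one]

end

end Pool.Agent.H370R3.BX
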