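import Mathlib
import Pool.Agent.H370R3.BX.Stmts

set_option autoImplicit false
set_option maxHeartbeats 4000000

open Set Filter Topology unitInterval

namespace Pool.Agent.H370R3.BX

namespace CellInj

theorem mk_const (D : Type) [TopologicalSpace D] (B : Set D) (Y : Type) [TopologicalSpace Y]
    (y0 : Y) : LG.mk B (ContinuousMap.const (I × D) y0) (fun _ => rfl) (fun _ => rfl)
      (fun _ _ _ => rfl) = (1 : LG D B Y y0) := by
  rw [FundamentalGroup.one_def]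
  rfl

theorem pull_mk {D D' : Type} [TopologicalSpace D] [TopologicalSpace D'] {B : Set D} (B' : Set D')
    {Y : Type} [TopologicalSpace Y] {y0 : Y} (φ : C(D', D)) (hφ : ∀ b ∈ B', φ b ∈ B)
    (h : C(I × D, Y)) (h0 : ∀ d, h (0, d) = y0) (h1 : ∀ d, h (1, d) = y0)
    (hB : ∀ t, ∀ b ∈ B, h (t, b) = y0) :
    LG.pull B' φ hφ (LG.mk B h h0 h1 hB) =
      LG.mk B' (h.comp ((ContinuousMap.id I).prodMap φ)) (fun d => h0 (φ d)) (fun d => h1 (φ d))
        (fun t b hb => hB t _ (hφ b hb)) := by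
  rfl

end CellInj

open CellInj in
theorem taskCellInj_proof (hS : TaskMkSurj) (hE : TaskMkEq) (hG : TaskGlue) : TaskCellInj := by
  intro D _ _ _ B J _ n κ hR Y _ y0 x hx
  obtain ⟨h, h0, h1, hB, rfl⟩ := hS D B Y y0 x
  rw [← mk_const, hE]
  have hcell : ∀ j, ∃ H : C(I × (I × (Fin n → I)), Y),
      (∀ t d, H (0, (t, d)) = h (t, κ j d)) ∧ (∀ t d, H (1, (t, d)) = y0) ∧
      (∀ s d, H (s, (0, d)) = y0) ∧ (∀ s d, H (s, (1, d)) = y0) ∧
      ∀ s t, ∀ b ∈ bdry n, H (s, (t, b)) = y0 := by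
    intro j
    have hj := hx j
    rw [pull_mk, ← mk_const, hE] at hj
    exact hj
  choose H H0 H1 H2 H3 H4 using hcell
  obtain ⟨G, hG1, hG2⟩ := hG D B J n κ hR (I × I) Y (ContinuousMap.const _ y0)
    (fun j => (H j).comp ⟨fun p => (p.1.1, (p.1.2, p.2)), by fun_prop⟩) (by
      intro j s t ht
      exact H4 j s.1 s.2 t ((hR.bd j t).1 ht))
  refine ⟨G.comp ⟨fun p => ((p.1, p.2.1), p.2.2), by fun_prop⟩, ?_, ?_, ?_, ?_, ?_⟩
  · intro t d
    by_cases hd : d ∈ B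
    · exact (hG1 (0, t) ⟨d, hd⟩).trans (hB t d hd).symm
    · obtain ⟨j, u, rfl⟩ := hR.cover d hd
      exact (hG2 j (0, t) u).trans (H0 j t u)
  · intro t d
    by_cases hd : d ∈ B
    · exact hG1 (1, t) ⟨d, hd⟩
    · obtain ⟨j, u, rfl⟩ := hR.cover d hd
      exact (hG2 j (1, t) u).trans (H1 j t u)
  · intro s d
    by_cases hd : d ∈ B
    · exact hG1 (s, 0) ⟨d, hd⟩
    · obtain ⟨j, u, rfl⟩ := hR.cover d hd
      exact (hG2 j (s, 0) u).trans (H2 j s u)
  · intro s d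
    by_cases hd : d ∈ B
    · exact hG1 (s, 1) ⟨d, hd⟩
    · obtain ⟨j, u, rfl⟩ := hR.cover d hd
      exact (hG2 j (s, 1) u).trans (H3 j s u)
  · intro s t b hb
    exact hG1 (s, t) ⟨b, hb⟩

end Pool.Agent.H370R3.BX
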