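import Mathlib
import Pool.Agent.H370R3.BX.Stmts

set_option autoImplicit false

open Set Filter Topology unitInterval

namespace Pool.Agent.H370R3.BX

/-- the pull-back of the class of a map is the class of the composite -/
theorem LG.pull_mk {D D' : Type} [TopologicalSpace D] [TopologicalSpace D'] {B : Set D} (B' : Set D')
    {Y : Type} [TopologicalSpace Y] {y0 : Y} (φ : C(D', D)) (hφ : ∀ b ∈ B', φ b ∈ B)
    (h : C(I × D, Y)) (h0 : ∀ d, h (0, d) = y0) (h1 : ∀ d, h (1, d) = y0)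
    (hB : ∀ t, ∀ b ∈ B, h (t, b) = y0)
    (k : C(I × D', Y)) (k0 : ∀ d, k (0, d) = y0) (k1 : ∀ d, k (1, d) = y0)
    (kB : ∀ t, ∀ b ∈ B', k (t, b) = y0) (hk : ∀ t d, h (t, φ d) = k (t, d)) :
    LG.pull B' φ hφ (LG.mk B h h0 h1 hB) = LG.mk B' k k0 k1 kB := by
  have key : (LG.loop B h h0 h1 hB).map (RC.pull B B' Y y0 φ hφ).continuous =
      (LG.loop B' k k0 k1 kB : Path (RC.base D' B' Y y0) (RC.base D' B' Y y0)) := by
    apply Path.ext
    funext t
    apply Subtype.ext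
    ext d
    exact hk t d
  show FundamentalGroup.map (RC.pull B B' Y y0 φ hφ) (RC.base D B Y y0)
    (FundamentalGroup.fromPath (Path.Homotopic.Quotient.mk (LG.loop B h h0 h1 hB))) = _
  have e1 : FundamentalGroup.map (RC.pull B B' Y y0 φ hφ) (RC.base D B Y y0)
      (FundamentalGroup.fromPath (Path.Homotopic.Quotient.mk (LG.loop B h h0 h1 hB))) =
      FundamentalGroup.fromPath (Path.Homotopic.Quotient.mk
        ((LG.loop B h h0 h1 hB).map (RC.pull B B' Y y0 φ hφ).continuous)) := rfl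
  rw [e1, key]
  rfl

theorem taskCellSurj_proof (T1 : TaskMkSurj) (T3 : TaskGlue) : TaskCellSurj := by
  intro D _ _ _ B J _ n κ h Y _ y0 c
  choose k k0 k1 kB hk using fun j => T1 (Fin n → I) (bdry n) Y y0 (c j)
  obtain ⟨G, hG1, hG2⟩ := T3 D B J n κ h I Y (ContinuousMap.const _ y0) k (by
    intro j s t ht
    exact kB j s t ((h.bd j t).1 ht))
  have hG0 : ∀ s, (∀ j t, k j (s, t) = y0) → ∀ d, G (s, d) = y0 := by
    intro s hs d
    by_cases hd : d ∈ B
    · exact hG1 s ⟨d, hd⟩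
    · obtain ⟨j, t, rfl⟩ := h.cover d hd
      rw [hG2]
      exact hs j t
  refine ⟨LG.mk B G (hG0 0 k0) (hG0 1 k1) (fun t b hb => hG1 t ⟨b, hb⟩), fun j => ?_⟩
  rw [hk j]
  exact LG.pull_mk (bdry n) (κ j) _ G _ _ _ (k j) (k0 j) (k1 j) (kB j) (fun t d => hG2 j t d)

end Pool.Agent.H370R3.BX
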