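import Pool.Agent.H370R3.BX.Stmts

/-!
Task `TaskCircle` of the project BX.
-/

set_option autoImplicit false

open Set Filter Topology unitInterval

namespace Pool.Agent.H370R3.BX

namespace Circ

/-- height of a point of the circle -/
noncomputable def tt (x : Sph 1) : I := Set.projIcc 0 1 zero_le_one ((1 + x.1 0) / 2)

theorem coord_cont (i : Fin 2) : Continuous fun x : Sph 1 => x.1 i :=
  (EuclideanSpace.proj (𝕜 := ℝ) i).continuous.comp continuous_subtype_val

theorem tt_cont : Continuous tt :=
  continuous_projIcc.comp ((continuous_const.add (coord_cont 0)).div_const 2)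

theorem neg_coord (x : Sph 1) (i : Fin 2) : (-x).1 i = - x.1 i := by
  rw [show ((-x : Sph 1)).1 = -x.1 from rfl]
  simp

theorem tt_neg (x : Sph 1) : tt (-x) = σ (tt x) := by
  unfold tt
  rw [unitInterval.symm_projIcc, neg_coord]
  congr 1
  ring

theorem sq_sum (x : Sph 1) : x.1 0 ^ 2 + x.1 1 ^ 2 = 1 := by
  have h : ‖x.1‖ = 1 := mem_sphere_zero_iff_norm.1 x.2
  have h2 := EuclideanSpace.norm_sq_eq x.1
  rw [h, Fin.sum_univ_two] at h2
  simp only [Real.norm_eq_abs, sq_abs] at h2
  linarith

theorem pole (x : Sph 1) (h : x.1 1 = 0) : tt x = 0 ∨ tt x = 1 := by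
  have h2 := sq_sum x
  rw [h] at h2
  have h3 : (x.1 0 - 1) * (x.1 0 + 1) = 0 := by linarith
  rcases mul_eq_zero.1 h3 with h4 | h4
  · right
    unfold tt
    rw [show (1 + x.1 0) / 2 = 1 by linarith]
    exact Set.projIcc_right (zero_le_one (α := ℝ))
  · left
    unfold tt
    rw [show (1 + x.1 0) / 2 = 0 by linarith]
    exact Set.projIcc_left (zero_le_one (α := ℝ))

theorem mk_pole {A : Type} [TopologicalSpace A] {t : I} (h : t = 0 ∨ t = 1) (a b : A) :
    Su.mk A (t, a) = Su.mk A (t, b) := by
  rcases h with rfl | rfl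
  · exact Quot.sound (SuRel.zero a b)
  · exact Quot.sound (SuRel.one a b)

end Circ

open Circ in
theorem taskCircle_proof : TaskCircle := by
  intro A _ ν hν ⟨a⟩
  have hc : Continuous fun x : Sph 1 => if (0:ℝ) ≤ x.1 1 then Su.mk A (tt x, a)
      else Su.mk A (tt x, ν a) := by
    refine Continuous.if_le ?_ ?_ continuous_const (coord_cont 1) ?_
    · exact (Su.mk A).continuous.comp (tt_cont.prodMk continuous_const)
    · exact (Su.mk A).continuous.comp (tt_cont.prodMk continuous_const)
    · intro x hx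
      exact mk_pole (pole x hx.symm) _ _
  have hinv : ∀ t b, Su.inv ν (Su.mk A (t, b)) = Su.mk A (σ t, ν b) := fun _ _ => rfl
  refine ⟨⟨_, hc⟩, fun x => ?_⟩
  show (if (0:ℝ) ≤ (-x).1 1 then Su.mk A (tt (-x), a) else Su.mk A (tt (-x), ν a)) =
    Su.inv ν (if (0:ℝ) ≤ x.1 1 then Su.mk A (tt x, a) else Su.mk A (tt x, ν a))
  rw [neg_coord, tt_neg]
  rcases lt_trichotomy (x.1 1) 0 with h | h | h
  · rw [if_pos (by linarith), if_neg (by linarith), hinv, hν]
  · rw [if_pos (by linarith), if_pos (by linarith), hinv]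
    apply mk_pole
    rcases pole x h with h1 | h1
    · right; rw [h1]; exact unitInterval.symm_zero
    · left; rw [h1]; exact unitInterval.symm_one
  · rw [if_neg (by linarith), if_pos h.le, hinv]

end Pool.Agent.H370R3.BX
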