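import Pool.Agent.H370R3.BX.Stmts

open Set Filter Topology unitInterval

namespace Pool.Agent.H370R3.BX

namespace Coord

lemma cc0 (t : Fin 0 → I) (j : Fin 1) : cc 0 t j = 1 := by
  simp [cc]

lemma cc_zero (n : ℕ) (t : Fin (n + 1) → I) : cc (n + 1) t 0 = 1 - (t 0 : ℝ) := by
  simp [cc]

lemma cc_succ (n : ℕ) (t : Fin (n + 1) → I) (j : Fin (n + 1)) :
    cc (n + 1) t j.succ = (t 0 : ℝ) * cc n (Fin.tail t) j := by
  unfold cc
  rw [Fin.prod_univ_succ]
  have h1 : ∀ l : Fin n, (if ((l.succ : Fin (n + 1)) : ℕ) < ((j.succ : Fin (n + 2)) : ℕ)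
      then (t l.succ : ℝ) else 1) = if (l : ℕ) < (j : ℕ) then ((Fin.tail t l : I) : ℝ) else 1 := by
    intro l
    simp [Fin.tail]
  simp_rw [h1]
  have h2 : (if h : ((j.succ : Fin (n + 2)) : ℕ) < n + 1 then 1 - (t ⟨j.succ, h⟩ : ℝ) else 1) =
      if h : (j : ℕ) < n then 1 - ((Fin.tail t ⟨j, h⟩ : I) : ℝ) else 1 := by
    by_cases h : (j : ℕ) < n
    · have h' : ((j.succ : Fin (n + 2)) : ℕ) < n + 1 := by simpa using h
      rw [dif_pos h, dif_pos h']
      rfl
    · have h' : ¬ ((j.succ : Fin (n + 2)) : ℕ) < n + 1 := by simpa using h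
      rw [dif_neg h, dif_neg h']
  rw [h2]
  have h3 : (if (((0 : Fin (n + 1)) : ℕ) < ((j.succ : Fin (n + 2)) : ℕ)) then (t 0 : ℝ) else 1) =
      t 0 := by simp
  rw [h3, mul_assoc]

lemma insert_succ {n : ℕ} {α : Type} (i : Fin (n + 1)) (a : α) (t : Fin (n + 1) → α) :
    (Fin.insertNth i.succ a t : Fin (n + 2) → α) =
      Fin.cons (t 0) (Fin.insertNth i a (Fin.tail t) : Fin (n + 1) → α) := by
  refine Fin.insertNth_eq_iff.2 ⟨?_, ?_⟩
  · simp
  · ext k
    refine Fin.cases ?_ (fun k => ?_) k
    · simp [Fin.removeNth]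
    · simp [Fin.removeNth, Fin.tail]

lemma nonneg : ∀ n (t : Fin n → I) j, 0 ≤ cc n t j := by
  intro n
  induction n with
  | zero => intro t j; rw [cc0]; exact zero_le_one
  | succ n ih =>
    intro t j
    refine Fin.cases ?_ (fun j => ?_) j
    · rw [cc_zero]; have := (t 0).2.2; linarith
    · rw [cc_succ]; exact mul_nonneg (t 0).2.1 (ih _ _)

lemma sum_one : ∀ n (t : Fin n → I), ∑ j, cc n t j = 1 := by
  intro n
  induction n with
  | zero => intro t; simp [cc0]
  | succ n ih =>
    intro t
    rw [Fin.sum_univ_succ, cc_zero]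
    simp_rw [cc_succ]
    rw [← Finset.mul_sum, ih]; ring

lemma cont (n : ℕ) (j : Fin (n + 1)) : Continuous fun t : Fin n → I => cc n t j := by
  unfold cc
  apply Continuous.mul
  · apply continuous_finsetProd
    intro l _
    by_cases h : (l : ℕ) < (j : ℕ)
    · simp only [h, if_true]; fun_prop
    · simp only [h, if_false]; fun_prop
  · by_cases h : (j : ℕ) < n
    · simp only [h, dif_pos]; fun_prop
    · simp only [h, dif_neg, not_false_iff]; fun_prop

lemma tail_cons' {n : ℕ} {α : Type} (a : α) (t : Fin n → α) :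
    Fin.tail (Fin.cons a t : Fin (n + 1) → α) = t := by
  ext k; simp [Fin.tail]

lemma insert_one : ∀ n (j : Fin (n + 1)) (t : Fin n → I),
    cc (n + 1) (Fin.insertNth j 1 t) = Fin.insertNth j.castSucc 0 (cc n t) := by
  intro n
  induction n with
  | zero =>
    intro j t
    have hj : j = 0 := Fin.ext (by simp)
    subst hj
    ext k
    refine Fin.cases ?_ (fun k => ?_) k
    · rw [cc_zero]; simp
    · rw [cc_succ, cc0]
      have : k = 0 := Fin.ext (by simp)
      subst this
      simp [cc0]
  | succ n ih =>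
    intro j t
    refine Fin.cases ?_ (fun i => ?_) j
    · ext k
      rw [Fin.insertNth_zero']
      refine Fin.cases ?_ (fun k => ?_) k
      · rw [cc_zero]; simp
      · rw [cc_succ, tail_cons']; simp
    · rw [insert_succ]
      have e : (i.succ).castSucc = (i.castSucc).succ := rfl
      rw [e, insert_succ]
      ext k
      refine Fin.cases ?_ (fun k => ?_) k
      · rw [cc_zero]; simp [cc_zero]
      · rw [cc_succ, tail_cons', ih]
        simp only [Fin.cons_zero, Fin.cons_succ]
        have h1 : (Fin.tail (cc (n + 1) t) : Fin (n + 1) → ℝ) =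
            fun k => (t 0 : ℝ) * cc n (Fin.tail t) k := by
          ext k; simp [Fin.tail, ← cc_succ]
        rw [h1]
        rcases Fin.eq_self_or_eq_succAbove i.castSucc k with rfl | ⟨l, rfl⟩
        · simp
        · simp

lemma insert_last : ∀ n (t : Fin n → I), cc (n + 1) (Fin.insertNth (Fin.last n) 0 t) =
    Fin.insertNth (Fin.last (n + 1)) 0 (cc n t) := by
  intro n
  induction n with
  | zero =>
    intro t
    ext k
    refine Fin.cases ?_ (fun k => ?_) k
    · rw [cc_zero]
      have : (Fin.insertNth (Fin.last 0) (0 : I) t : Fin 1 → I) 0 = 0 := by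
        have := Fin.insertNth_apply_same (α := fun _ => I) (Fin.last 0) (0 : I) t
        exact this
      rw [this]
      have h2 : (Fin.insertNth (Fin.last 1) (0 : ℝ) (cc 0 t) : Fin 2 → ℝ) 0 = cc 0 t 0 := by
        have := Fin.insertNth_apply_succAbove (α := fun _ => ℝ) (Fin.last 1) (0 : ℝ) (cc 0 t) 0
        exact this
      rw [h2, cc0]; simp
    · rw [cc_succ]
      have : (Fin.insertNth (Fin.last 0) (0 : I) t : Fin 1 → I) 0 = 0 := by
        have := Fin.insertNth_apply_same (α := fun _ => I) (Fin.last 0) (0 : I) t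
        exact this
      rw [this]
      have hk : k = 0 := Fin.ext (by simp)
      subst hk
      have h2 : (Fin.insertNth (Fin.last 1) (0 : ℝ) (cc 0 t) : Fin 2 → ℝ) 1 = 0 := by
        have := Fin.insertNth_apply_same (α := fun _ => ℝ) (Fin.last 1) (0 : ℝ) (cc 0 t)
        exact this
      have h3 : (Fin.succ 0 : Fin 2) = 1 := rfl
      rw [h3, h2]; simp
  | succ n ih =>
    intro t
    have e1 : Fin.last (n + 1) = (Fin.last n).succ := rfl
    have e2 : Fin.last (n + 1 + 1) = (Fin.last (n + 1)).succ := rfl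
    rw [e2, e1, insert_succ, insert_succ]
    ext k
    refine Fin.cases ?_ (fun k => ?_) k
    · rw [cc_zero]; simp [cc_zero]
    · rw [cc_succ, tail_cons', ih]
      simp only [Fin.cons_zero, Fin.cons_succ]
      have h1 : (Fin.tail (cc (n + 1) t) : Fin (n + 1) → ℝ) =
          fun k => (t 0 : ℝ) * cc n (Fin.tail t) k := by
        ext k; simp [Fin.tail, ← cc_succ]
      rw [h1, ← e1]
      rcases Fin.eq_self_or_eq_succAbove (Fin.last (n + 1)) k with rfl | ⟨l, rfl⟩
      · rw [Fin.insertNth_apply_same, Fin.insertNth_apply_same]; simp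
      · rw [Fin.insertNth_apply_succAbove, Fin.insertNth_apply_succAbove]

lemma insert_zero : ∀ n (j : Fin (n + 1)) (t : Fin n → I) (k : Fin (n + 2)), (j : ℕ) < (k : ℕ) →
    cc (n + 1) (Fin.insertNth j 0 t) k = 0 := by
  intro n
  induction n with
  | zero =>
    intro j t k
    have hj : j = 0 := Fin.ext (by simp)
    subst hj
    refine Fin.cases ?_ (fun k => ?_) k
    · intro h; simp at h
    · intro _; rw [cc_succ]; simp
  | succ n ih =>
    intro j t k
    refine Fin.cases ?_ (fun i => ?_) j
    · refine Fin.cases ?_ (fun k => ?_) k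
      · intro h; simp at h
      · intro _; rw [cc_succ]; simp
    · refine Fin.cases ?_ (fun k => ?_) k
      · intro h; simp at h
      · intro h
        rw [insert_succ, cc_succ, tail_cons', ih i _ k (by simpa using h), mul_zero]

lemma bdry_iff : ∀ n (t : Fin n → I), t ∈ bdry n ↔ ∃ j, cc n t j = 0 := by
  intro n
  induction n with
  | zero =>
    intro t
    constructor
    · rintro ⟨i, -⟩; exact i.elim0
    · rintro ⟨j, hj⟩; rw [cc0] at hj; norm_num at hj
  | succ n ih =>
    intro t
    constructor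
    · rintro ⟨i, hi⟩
      revert hi
      refine Fin.cases ?_ (fun i => ?_) i
      · rintro (h | h)
        · exact ⟨Fin.succ 0, by rw [cc_succ, h]; simp⟩
        · exact ⟨0, by rw [cc_zero, h]; simp⟩
      · intro h
        obtain ⟨j, hj⟩ := (ih (Fin.tail t)).1 ⟨i, h⟩
        exact ⟨j.succ, by rw [cc_succ, hj, mul_zero]⟩
    · rintro ⟨j, hj⟩
      revert hj
      refine Fin.cases ?_ (fun j => ?_) j
      · intro h
        rw [cc_zero] at h
        refine ⟨0, Or.inr ?_⟩
        apply Subtype.ext
        show (t 0 : ℝ) = 1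
        linarith
      · intro h
        rw [cc_succ] at h
        rcases mul_eq_zero.1 h with h | h
        · refine ⟨0, Or.inl ?_⟩
          apply Subtype.ext
          exact h
        · obtain ⟨i, hi⟩ := (ih (Fin.tail t)).2 ⟨j, h⟩
          exact ⟨i.succ, hi⟩

lemma inj : ∀ n (t t' : Fin n → I), (∀ j, cc n t j ≠ 0) → cc n t = cc n t' → t = t' := by
  intro n
  induction n with
  | zero => intro t t' _ _; ext i; exact i.elim0
  | succ n ih =>
    intro t t' h0 h
    have e0 := congrFun h 0
    rw [cc_zero, cc_zero] at e0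
    have e1 : (t 0 : ℝ) = t' 0 := by linarith
    have h1 : (t 0 : ℝ) ≠ 0 := by
      intro hz
      apply h0 (Fin.succ 0)
      rw [cc_succ, hz, zero_mul]
    have e2 : Fin.tail t = Fin.tail t' := by
      apply ih
      · intro j hj
        apply h0 j.succ
        rw [cc_succ, hj, mul_zero]
      · ext j
        have := congrFun h j.succ
        rw [cc_succ, cc_succ, ← e1] at this
        exact mul_left_cancel₀ h1 this
    ext i
    refine Fin.cases ?_ (fun i => ?_) i
    · exact e1
    · have := congrFun e2 i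
      exact congrArg Subtype.val this

lemma surj : ∀ n (x : Fin (n + 1) → ℝ), (∀ j, 0 ≤ x j) → ∑ j, x j = 1 → ∃ t, cc n t = x := by
  intro n
  induction n with
  | zero =>
    intro x _ hs
    refine ⟨fun _ => 0, ?_⟩
    ext j
    have hj : j = 0 := Fin.ext (by simp)
    subst hj
    rw [cc0]
    simpa using hs.symm
  | succ n ih =>
    intro x h0 hs
    rw [Fin.sum_univ_succ] at hs
    have hrest : 0 ≤ ∑ j : Fin (n + 1), x j.succ := Finset.sum_nonneg fun j _ => h0 _
    have ha0 : 0 ≤ 1 - x 0 := by linarith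
    have ha1 : 1 - x 0 ≤ 1 := by have := h0 0; linarith
    rcases ha0.eq_or_lt with ha | ha
    · refine ⟨Fin.cons 0 (fun _ => 0), ?_⟩
      have hz : ∀ j : Fin (n + 1), x j.succ = 0 := by
        intro j
        have hsum : ∑ j : Fin (n + 1), x j.succ = 0 := by linarith
        exact (Finset.sum_eq_zero_iff_of_nonneg (fun j _ => h0 _)).1 hsum j (Finset.mem_univ _)
      ext j
      refine Fin.cases ?_ (fun j => ?_) j
      · rw [cc_zero]; simp; linarith
      · rw [cc_succ, hz]; simp
    · obtain ⟨t', ht'⟩ := ih (fun j => x j.succ / (1 - x 0)) (fun j => div_nonneg (h0 _) ha0) (by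
        rw [← Finset.sum_div]
        rw [div_eq_one_iff_eq ha.ne']; linarith)
      refine ⟨Fin.cons ⟨1 - x 0, ha0, ha1⟩ t', ?_⟩
      ext j
      refine Fin.cases ?_ (fun j => ?_) j
      · rw [cc_zero]; simp
      · rw [cc_succ, tail_cons', ht']
        simp only [Fin.cons_zero]
        field_simp

end Coord

theorem taskCoord_proof : TaskCoord :=
  ⟨Coord.nonneg, Coord.sum_one, Coord.cont, Coord.insert_one, Coord.insert_last,
    Coord.insert_zero, Coord.bdry_iff, Coord.inj, Coord.surj⟩

end Pool.Agent.H370R3.BX
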