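import Mathlib
import Pool.Agent.H370R3.BX.Stmts

set_option autoImplicit false
set_option maxHeartbeats 4000000

open Set Filter Topology unitInterval

namespace Pool.Agent.H370R3.BX

noncomputable section

namespace Ex

/-- every class is the class of a map `I × D → Y` -/
theorem mk_surj {D : Type} [TopologicalSpace D] [CompactSpace D] [T2Space D] (B : Set D)
    {Y : Type} [TopologicalSpace Y] {y0 : Y} (x : LG D B Y y0) :
    ∃ (h : C(I × D, Y)) (h0 : ∀ d, h (0, d) = y0) (h1 : ∀ d, h (1, d) = y0)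
      (hB : ∀ t, ∀ b ∈ B, h (t, b) = y0), x = LG.mk B h h0 h1 hB := by
  obtain ⟨p, hp⟩ := Path.Homotopic.Quotient.mk_surjective (FundamentalGroup.toPath x)
  have hc : Continuous (fun q : I × D => (p q.1).1 q.2) := by
    have h1 : Continuous (fun q : I × D => ((p q.1).1, q.2)) :=
      ((continuous_subtype_val.comp p.continuous).comp continuous_fst).prodMk continuous_snd
    exact ContinuousEval.continuous_eval.comp h1
  refine ⟨⟨fun q => (p q.1).1 q.2, hc⟩, ?_, ?_, ?_, ?_⟩
  · intro d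
    change (p 0).1 d = y0
    rw [p.source]
    rfl
  · intro d
    change (p 1).1 d = y0
    rw [p.target]
    rfl
  · intro t b hb
    exact (p t).2 b hb
  · have : LG.loop B ⟨fun q => (p q.1).1 q.2, hc⟩ (by
        intro d
        change (p 0).1 d = y0
        rw [p.source]
        rfl) (by
        intro d
        change (p 1).1 d = y0
        rw [p.target]
        rfl) (fun t b hb => (p t).2 b hb) = p := by
      ext t
      rfl
    unfold LG.mk
    rw [this, hp]

/-- a homotopy gives equality of classes -/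
theorem mk_eq {D : Type} [TopologicalSpace D] (B : Set D)
    {Y : Type} [TopologicalSpace Y] {y0 : Y}
    (h : C(I × D, Y)) (h0 : ∀ d, h (0, d) = y0) (h1 : ∀ d, h (1, d) = y0)
    (hB : ∀ t, ∀ b ∈ B, h (t, b) = y0)
    (k : C(I × D, Y)) (k0 : ∀ d, k (0, d) = y0) (k1 : ∀ d, k (1, d) = y0)
    (kB : ∀ t, ∀ b ∈ B, k (t, b) = y0)
    (H : C(I × (I × D), Y)) (H0 : ∀ t d, H (0, (t, d)) = h (t, d))
    (H1 : ∀ t d, H (1, (t, d)) = k (t, d))
    (Hs : ∀ s d, H (s, (0, d)) = y0) (Ht : ∀ s d, H (s, (1, d)) = y0)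
    (HB : ∀ s t, ∀ b ∈ B, H (s, (t, b)) = y0) :
    LG.mk B h h0 h1 hB = LG.mk B k k0 k1 kB := by
  have hq : Path.Homotopic (LG.loop B h h0 h1 hB) (LG.loop B k k0 k1 kB) := by
    let H' : C((I × I) × D, Y) := ⟨fun q => H (q.1.1, (q.1.2, q.2)), by fun_prop⟩
    refine ⟨⟨⟨⟨fun q => ⟨H'.curry q, fun b hb => HB q.1 q.2 b hb⟩, ?_⟩, ?_, ?_⟩, ?_⟩⟩
    · exact Continuous.subtype_mk H'.curry.continuous _
    · intro t
      apply Subtype.ext
      ext d
      exact H0 t d
    · intro t
      apply Subtype.ext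
      ext d
      exact H1 t d
    · intro s t ht
      apply Subtype.ext
      ext d
      rcases ht with rfl | ht
      · change H (s, (0, d)) = h (0, d)
        rw [Hs, h0]
      · have ht' : t = 1 := ht
        subst ht'
        change H (s, (1, d)) = h (1, d)
        rw [Ht, h1]
  unfold LG.mk
  rw [Path.Homotopic.Quotient.eq.2 hq]

/-- equality of classes gives a homotopy -/
theorem of_mk_eq {D : Type} [TopologicalSpace D] [CompactSpace D] [T2Space D] (B : Set D)
    {Y : Type} [TopologicalSpace Y] {y0 : Y}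
    (h : C(I × D, Y)) (h0 : ∀ d, h (0, d) = y0) (h1 : ∀ d, h (1, d) = y0)
    (hB : ∀ t, ∀ b ∈ B, h (t, b) = y0)
    (k : C(I × D, Y)) (k0 : ∀ d, k (0, d) = y0) (k1 : ∀ d, k (1, d) = y0)
    (kB : ∀ t, ∀ b ∈ B, k (t, b) = y0)
    (he : LG.mk B h h0 h1 hB = LG.mk B k k0 k1 kB) :
    ∃ H : C(I × (I × D), Y), (∀ t d, H (0, (t, d)) = h (t, d)) ∧
      (∀ t d, H (1, (t, d)) = k (t, d)) ∧
      (∀ s d, H (s, (0, d)) = y0) ∧ (∀ s d, H (s, (1, d)) = y0) ∧
      ∀ s t, ∀ b ∈ B, H (s, (t, b)) = y0 := by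
  have hq : Path.Homotopic (LG.loop B h h0 h1 hB) (LG.loop B k k0 k1 kB) :=
    Path.Homotopic.Quotient.exact he
  obtain ⟨F⟩ := hq
  have hc : Continuous (fun q : I × (I × D) => (F (q.1, q.2.1)).1 q.2.2) := by
    have h1 : Continuous (fun q : I × (I × D) => ((F (q.1, q.2.1)).1, q.2.2)) := by
      refine Continuous.prodMk ?_ (continuous_snd.comp continuous_snd)
      exact continuous_subtype_val.comp (F.continuous.comp
        (continuous_fst.prodMk (continuous_fst.comp continuous_snd)))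
    exact ContinuousEval.continuous_eval.comp h1
  refine ⟨⟨fun q => (F (q.1, q.2.1)).1 q.2.2, hc⟩, ?_, ?_, ?_, ?_, ?_⟩
  · intro t d
    change (F (0, t)).1 d = h (t, d)
    rw [F.apply_zero]
    rfl
  · intro t d
    change (F (1, t)).1 d = k (t, d)
    rw [F.apply_one]
    rfl
  · intro s d
    change (F (s, 0)).1 d = y0
    rw [F.source]
    rfl
  · intro s d
    change (F (s, 1)).1 d = y0
    rw [F.target]
    rfl
  · intro s t b hb
    exact (F (s, t)).2 b hb

/-- the class of the constant map -/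
theorem mk_one {D : Type} [TopologicalSpace D] (B : Set D)
    {Y : Type} [TopologicalSpace Y] {y0 : Y} :
    LG.mk B (ContinuousMap.const (I × D) y0) (fun _ => rfl) (fun _ => rfl) (fun _ _ _ => rfl)
      = (1 : LG D B Y y0) := by
  have : LG.loop B (ContinuousMap.const (I × D) y0) (fun _ => rfl) (fun _ => rfl)
      (fun _ _ _ => rfl) = Path.refl (RC.base D B Y y0) := by
    ext t
    rfl
  unfold LG.mk
  rw [this]
  rfl

/-- pull-back of a class -/
theorem pull_mk {D D' : Type} [TopologicalSpace D] [TopologicalSpace D'] {B : Set D} (B' : Set D')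
    {Y : Type} [TopologicalSpace Y] {y0 : Y} (φ : C(D', D)) (hφ : ∀ b ∈ B', φ b ∈ B)
    (h : C(I × D, Y)) (h0 : ∀ d, h (0, d) = y0) (h1 : ∀ d, h (1, d) = y0)
    (hB : ∀ t, ∀ b ∈ B, h (t, b) = y0) :
    LG.pull B' φ hφ (LG.mk B h h0 h1 hB) =
      LG.mk B' (h.comp ((ContinuousMap.id I).prodMap φ)) (fun d => h0 (φ d))
        (fun d => h1 (φ d)) (fun t b hb => hB t (φ b) (hφ b hb)) := by
  rfl

end Ex

theorem taskExact_proof : TaskExact := by
  intro D _ _ _ B C hBc hCB hRet Y _ y0 x hx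
  classical
  obtain ⟨h, h0, h1, hC, rfl⟩ := Ex.mk_surj C x
  have hx2 := ((Ex.pull_mk (B := C) {b : ↥B | b.1 ∈ C}
    (⟨Subtype.val, continuous_subtype_val⟩ : C(↥B, D)) (fun _ hb => hb) h h0 h1 hC).symm.trans
      hx).trans (Ex.mk_one {b : ↥B | b.1 ∈ C}).symm
  haveI : CompactSpace ↥B := isCompact_iff_compactSpace.1 hBc.isCompact
  obtain ⟨G, G0, G1, Gs, Gt, GC⟩ := Ex.of_mk_eq _ _ _ _ _ _ _ _ _ hx2
  obtain ⟨r, r1, r2, r3⟩ := hRet
  let Hf : I × (I × D) → Y := fun q =>
    if hb : (r (q.1, q.2.2)).2 ∈ B then G ((r (q.1, q.2.2)).1, (q.2.1, ⟨(r (q.1, q.2.2)).2, hb⟩))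
    else h (q.2.1, (r (q.1, q.2.2)).2)
  have hrc : Continuous (fun q : I × (I × D) => r (q.1, q.2.2)) := by fun_prop
  let P1 : Set (I × (I × D)) := {q | (r (q.1, q.2.2)).1 = 0}
  let P2 : Set (I × (I × D)) := {q | (r (q.1, q.2.2)).2 ∈ B}
  have hP1 : IsClosed P1 := isClosed_eq (continuous_fst.comp hrc) continuous_const
  have hP2 : IsClosed P2 := hBc.preimage (continuous_snd.comp hrc)
  have hc1 : ContinuousOn Hf P1 := by
    have hcc : Continuous (fun q : I × (I × D) => h (q.2.1, (r (q.1, q.2.2)).2)) := by fun_prop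
    refine hcc.continuousOn.congr ?_
    intro q hq
    have hq' : (r (q.1, q.2.2)).1 = 0 := hq
    by_cases hb : (r (q.1, q.2.2)).2 ∈ B
    · change (if hb : (r (q.1, q.2.2)).2 ∈ B then _ else _) = _
      rw [dif_pos hb, hq', G0]
      rfl
    · change (if hb : (r (q.1, q.2.2)).2 ∈ B then _ else _) = _
      rw [dif_neg hb]
  have hc2 : ContinuousOn Hf P2 := by
    rw [continuousOn_iff_continuous_domRestrict]
    have hcc : Continuous (fun q : ↥P2 => G ((r (q.1.1, q.1.2.2)).1,
        (q.1.2.1, (⟨(r (q.1.1, q.1.2.2)).2, q.2⟩ : ↥B)))) := by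
      refine G.continuous.comp ?_
      refine Continuous.prodMk ?_ (Continuous.prodMk ?_ ?_)
      · exact continuous_fst.comp (hrc.comp continuous_subtype_val)
      · exact continuous_fst.comp (continuous_snd.comp continuous_subtype_val)
      · exact Continuous.subtype_mk (continuous_snd.comp (hrc.comp continuous_subtype_val)) _
    refine hcc.congr ?_
    intro q
    have hq2 : (r (q.1.1, q.1.2.2)).2 ∈ B := q.2
    change _ = (if hb : (r (q.1.1, q.1.2.2)).2 ∈ B then _ else _)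
    rw [dif_pos hq2]
  have hcov : P1 ∪ P2 = univ := by
    ext q
    simp only [mem_union, mem_univ, iff_true]
    exact r1 (q.1, q.2.2)
  have hHc : Continuous Hf := by
    rw [← continuousOn_univ, ← hcov]
    exact hc1.union_of_isClosed hc2 hP1 hP2
  have HB' : ∀ s t (b : D) (hb : b ∈ B), Hf (s, (t, b)) = G (s, (t, ⟨b, hb⟩)) := by
    intro s t b hb
    have e1 : r (s, b) = (s, b) := r3 s b hb
    have e2 : (r (s, b)).2 ∈ B := by rw [e1]; exact hb
    change (if hb : (r (s, b)).2 ∈ B then _ else _) = _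
    rw [dif_pos e2]
    congr 1
    refine Prod.ext ?_ (Prod.ext rfl (Subtype.ext ?_))
    · change (r (s, b)).1 = s
      rw [e1]
    · change (r (s, b)).2 = b
      rw [e1]
  have H0' : ∀ t d, Hf (0, (t, d)) = h (t, d) := by
    intro t d
    have e1 : r (0, d) = (0, d) := r2 d
    by_cases hb : d ∈ B
    · rw [HB' 0 t d hb, G0]
      rfl
    · have e2 : (r (0, d)).2 ∉ B := by rw [e1]; exact hb
      change (if hb : (r (0, d)).2 ∈ B then _ else _) = _
      rw [dif_neg e2]
      change h (t, (r (0, d)).2) = _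
      rw [e1]
  have Hs' : ∀ s d, Hf (s, (0, d)) = y0 := by
    intro s d
    by_cases hb : (r (s, d)).2 ∈ B
    · change (if hb : (r (s, d)).2 ∈ B then _ else _) = _
      rw [dif_pos hb]
      exact Gs _ _
    · change (if hb : (r (s, d)).2 ∈ B then _ else _) = _
      rw [dif_neg hb]
      exact h0 _
  have Ht' : ∀ s d, Hf (s, (1, d)) = y0 := by
    intro s d
    by_cases hb : (r (s, d)).2 ∈ B
    · change (if hb : (r (s, d)).2 ∈ B then _ else _) = _
      rw [dif_pos hb]
      exact Gt _ _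
    · change (if hb : (r (s, d)).2 ∈ B then _ else _) = _
      rw [dif_neg hb]
      exact h1 _
  let H : C(I × (I × D), Y) := ⟨Hf, hHc⟩
  let k : C(I × D, Y) := ⟨fun q => Hf (1, q), hHc.comp (continuous_const.prodMk continuous_id)⟩
  have k0 : ∀ d, k (0, d) = y0 := fun d => Hs' 1 d
  have k1 : ∀ d, k (1, d) = y0 := fun d => Ht' 1 d
  have kB : ∀ t, ∀ b ∈ B, k (t, b) = y0 := by
    intro t b hb
    change Hf (1, (t, b)) = y0
    rw [HB' 1 t b hb, G1]
    rfl
  refine ⟨LG.mk B k k0 k1 kB, ?_⟩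
  have e1 : LG.less C hCB (LG.mk B k k0 k1 kB) =
      LG.mk C k k0 k1 (fun t b hb => kB t b (hCB hb)) := by
    rfl
  rw [e1]
  refine (Ex.mk_eq C h h0 h1 hC k k0 k1 (fun t b hb => kB t b (hCB hb)) H H0'
    (fun t d => rfl) Hs' Ht' ?_).symm
  intro s t b hb
  change Hf (s, (t, b)) = y0
  rw [HB' s t b (hCB hb)]
  exact GC s t ⟨b, hCB hb⟩ hb

end

end Pool.Agent.H370R3.BX
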