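import Pool.Agent.H370R3.BX.Stmts

set_option autoImplicit false
open Set Filter Topology unitInterval

namespace Pool.Agent.H370R3.BX

noncomputable section

namespace Ext

abbrev J : Type := Set.Icc (-1:ℝ) 1

theorem sph_iff {n : ℕ} (x : EuclideanSpace ℝ (Fin (n + 1))) :
    x ∈ Metric.sphere (0 : EuclideanSpace ℝ (Fin (n + 1))) 1 ↔ ∑ i, x i ^ 2 = 1 := by
  rw [mem_sphere_zero_iff_norm, ← EuclideanSpace.real_norm_sq_eq]
  constructor
  · intro h; rw [h]; norm_num
  · intro h
    have h0 := norm_nonneg x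
    nlinarith

theorem one_sub_nonneg (s : J) : 0 ≤ 1 - (s:ℝ) ^ 2 := by
  have h1 := s.2.1
  have h2 := s.2.2
  nlinarith

/-- the point of the sphere at height `s` -/
def q (n : ℕ) (p : J × Sph n) : Sph (n + 1) :=
  ⟨WithLp.toLp 2 (Fin.snoc (α := fun _ => ℝ) (fun i => Real.sqrt (1 - (p.1:ℝ)^2) * p.2.1 i) (p.1:ℝ)), by
    rw [sph_iff, Fin.sum_univ_castSucc]
    have hx := (sph_iff p.2.1).1 p.2.2
    simp only [Fin.snoc_castSucc, Fin.snoc_last, mul_pow, Real.sq_sqrt (one_sub_nonneg p.1)]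
    rw [← Finset.mul_sum, hx]
    ring⟩

theorem q_last (n : ℕ) (p : J × Sph n) : (q n p).1 (Fin.last (n + 1)) = (p.1:ℝ) := by
  simp [q]

theorem q_cast (n : ℕ) (p : J × Sph n) (i : Fin (n + 1)) :
    (q n p).1 i.castSucc = Real.sqrt (1 - (p.1:ℝ)^2) * p.2.1 i := by
  simp [q]

theorem q_cont (n : ℕ) : Continuous (q n) := by
  refine Continuous.subtype_mk ?_ _
  refine (PiLp.continuous_toLp 2 _).comp ?_
  refine continuous_pi fun i => ?_
  refine Fin.lastCases ?_ (fun i => ?_) i
  · simp only [Fin.snoc_last]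
    exact continuous_subtype_val.comp continuous_fst
  · simp only [Fin.snoc_castSucc]
    refine Continuous.mul ?_ ?_
    · refine Real.continuous_sqrt.comp (continuous_const.sub ?_)
      exact (continuous_subtype_val.comp continuous_fst).pow 2
    · exact (PiLp.continuous_apply 2 _ i).comp (continuous_subtype_val.comp continuous_snd)

theorem q_surj (n : ℕ) : Function.Surjective (q n) := by
  intro z
  have hz := (sph_iff z.1).1 z.2
  rw [Fin.sum_univ_castSucc] at hz
  have hn : 0 ≤ ∑ i : Fin (n + 1), z.1 i.castSucc ^ 2 := Finset.sum_nonneg fun i _ => sq_nonneg _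
  have hs : (z.1 (Fin.last (n + 1))) ∈ Set.Icc (-1:ℝ) 1 := by
    constructor <;> nlinarith
  by_cases h : 1 - (z.1 (Fin.last (n + 1))) ^ 2 = 0
  · have hzero : ∀ i : Fin (n + 1), z.1 i.castSucc = 0 := by
      intro i
      have h1 : ∑ i : Fin (n + 1), z.1 i.castSucc ^ 2 = 0 := by linarith
      have h2 := (Finset.sum_eq_zero_iff_of_nonneg (fun i _ => sq_nonneg _)).1 h1 i (Finset.mem_univ i)
      exact pow_eq_zero_iff (two_ne_zero) |>.1 h2
    refine ⟨(⟨_, hs⟩, ⟨EuclideanSpace.single 0 1, by simp⟩), ?_⟩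
    apply Subtype.ext
    ext i
    refine Fin.lastCases ?_ (fun i => ?_) i
    · rw [q_last]
    · rw [q_cast, hzero]
      simp [h]
  · have hpos : 0 < 1 - (z.1 (Fin.last (n + 1))) ^ 2 := by
      rcases lt_or_eq_of_le (show 0 ≤ 1 - (z.1 (Fin.last (n + 1))) ^ 2 by linarith) with h' | h'
      · exact h'
      · exact absurd h'.symm h
    have hsq : 0 < Real.sqrt (1 - (z.1 (Fin.last (n + 1))) ^ 2) := Real.sqrt_pos.2 hpos
    refine ⟨(⟨_, hs⟩, ⟨WithLp.toLp 2 (fun i => z.1 i.castSucc /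
      Real.sqrt (1 - (z.1 (Fin.last (n + 1))) ^ 2)), ?_⟩), ?_⟩
    · rw [sph_iff]
      simp only [div_pow, Real.sq_sqrt hpos.le]
      rw [← Finset.sum_div, div_eq_one_iff_eq hpos.ne']
      linarith
    · apply Subtype.ext
      ext i
      refine Fin.lastCases ?_ (fun i => ?_) i
      · rw [q_last]
      · rw [q_cast]
        simp only
        rw [mul_div_cancel₀ _ hsq.ne']

/-- the map of the cylinder -/
def G {T : Type} [TopologicalSpace T] (ν : C(T, T)) (n : ℕ) (H : C(I × Sph n, T)) (p : J × Sph n) : T :=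
  if 0 ≤ (p.1:ℝ) then H (Set.projIcc 0 1 zero_le_one (p.1:ℝ), p.2)
    else ν (H (Set.projIcc 0 1 zero_le_one (-(p.1:ℝ)), -p.2))

end Ext

open Ext in
theorem taskExt_proof : TaskExt := by
  intro T _ ν hν n f hf ⟨y, ⟨H0⟩⟩
  let H : C(I × Sph n, T) := H0.toContinuousMap
  have H0' : ∀ x, H (0, x) = f x := fun x => H0.map_zero_left x
  have H1' : ∀ x, H (1, x) = y := fun x => H0.map_one_left x
  have hG : Continuous (G ν n H) := by
    have hc : Continuous fun p : J × Sph n => ((p.1 : J) : ℝ) :=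
      continuous_subtype_val.comp continuous_fst
    refine Continuous.if_le ?_ ?_ continuous_const hc ?_
    · exact H.continuous.comp ((continuous_projIcc.comp hc).prodMk continuous_snd)
    · exact ν.continuous.comp (H.continuous.comp
        ((continuous_projIcc.comp hc.neg).prodMk continuous_snd.neg))
    · intro p hp
      rw [← hp, neg_zero]
      have : Set.projIcc (0:ℝ) 1 zero_le_one 0 = 0 := by norm_num
      rw [this, H0', H0', hf, hν]
  have hpos : ∀ (p : J × Sph n), 0 < (p.1:ℝ) → G ν n H p = H (Set.projIcc 0 1 zero_le_one (p.1:ℝ), p.2) :=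
    fun p hp => if_pos hp.le
  have hneg : ∀ (p : J × Sph n), (p.1:ℝ) < 0 →
      G ν n H p = ν (H (Set.projIcc 0 1 zero_le_one (-(p.1:ℝ)), -p.2)) :=
    fun p hp => if_neg (not_le.2 hp)
  have hzero : ∀ (p : J × Sph n), (p.1:ℝ) = 0 → G ν n H p = f p.2 := by
    intro p hp
    have : G ν n H p = H (Set.projIcc 0 1 zero_le_one (p.1:ℝ), p.2) := if_pos hp.ge
    rw [this, hp]
    have h1 : Set.projIcc (0:ℝ) 1 zero_le_one 0 = 0 := by norm_num
    rw [h1, H0']
  let qc : C(J × Sph n, Sph (n + 1)) := ⟨q n, q_cont n⟩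
  have hq : IsQuotientMap qc := (q_cont n).isClosedMap.isQuotientMap (q_cont n) (q_surj n)
  have hfac : ∀ a b : J × Sph n, q n a = q n b → G ν n H a = G ν n H b := by
    intro a b hab
    have h1 : a.1 = b.1 := by
      apply Subtype.ext
      rw [← q_last, ← q_last, hab]
    by_cases h2 : Real.sqrt (1 - (a.1:ℝ)^2) = 0
    · rw [Real.sqrt_eq_zero (one_sub_nonneg _)] at h2
      have h3 : (a.1:ℝ) = 1 ∨ (a.1:ℝ) = -1 := by
        have : ((a.1:ℝ) - 1) * ((a.1:ℝ) + 1) = 0 := by linarith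
        rcases mul_eq_zero.1 this with h | h
        · left; linarith
        · right; linarith
      rcases h3 with h3 | h3
      · have h4 : (b.1:ℝ) = 1 := by rw [← h1]; exact h3
        rw [hpos a (by rw [h3]; norm_num), hpos b (by rw [h4]; norm_num), h3, h4]
        have h1 : Set.projIcc (0:ℝ) 1 zero_le_one 1 = 1 := by norm_num
        rw [h1, H1', H1']
      · have h4 : (b.1:ℝ) = -1 := by rw [← h1]; exact h3
        rw [hneg a (by rw [h3]; norm_num), hneg b (by rw [h4]; norm_num), h3, h4, neg_neg]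
        have h1 : Set.projIcc (0:ℝ) 1 zero_le_one 1 = 1 := by norm_num
        rw [h1, H1', H1']
    · have h3 : a.2 = b.2 := by
        apply Subtype.ext
        ext i
        have h4 := q_cast n a i
        rw [hab, q_cast, h1] at h4
        rw [h1] at h2
        exact (mul_left_cancel₀ h2 h4).symm
      rw [Prod.ext h1 h3]
  let Gc : C(J × Sph n, T) := ⟨G ν n H, hG⟩
  have hfc : Function.FactorsThrough Gc qc := fun a b hab => hfac a b hab
  let g : C(Sph (n + 1), T) := hq.lift Gc hfc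
  have hgq : ∀ a, g (q n a) = G ν n H a := fun a =>
    DFunLike.congr_fun (hq.lift_comp Gc hfc) a
  refine ⟨g, fun z => ?_⟩
  obtain ⟨⟨s, x⟩, rfl⟩ := q_surj n z
  have hns : -(s:ℝ) ∈ Set.Icc (-1:ℝ) 1 := ⟨by linarith [s.2.2], by linarith [s.2.1]⟩
  have hqn : -(q n (s, x)) = q n (⟨-(s:ℝ), hns⟩, -x) := by
    apply Subtype.ext
    ext i
    refine Fin.lastCases ?_ (fun i => ?_) i
    · rw [q_last]
      have := q_last n (s, x)
      simp [this]
    · rw [q_cast]
      have := q_cast n (s, x) i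
      simp [this]
  rw [hqn, hgq, hgq]
  rcases lt_trichotomy (s:ℝ) 0 with h | h | h
  · rw [hpos _ (by simpa using h), hneg _ h, hν]
  · rw [hzero _ (by simpa using h), hzero _ h, hf]
  · rw [hneg _ (by simpa using h), hpos _ h]
    simp

end

end Pool.Agent.H370R3.BX
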