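import Pool.Agent.H370R3.BX.Stmts

/-! TaskGlue of project H370-BX (helper370), by helper471. -/

set_option autoImplicit false

open Set Filter Topology unitInterval

namespace Pool.Agent.H370R3.BX

theorem taskGlue_proof : TaskGlue := by
  intro D _ _ _ B J _ n κ hR S _ _ T _ gB g hg
  classical
  choose jj tt hjt using hR.cover
  let G : S × D → T := fun p =>
    if h : p.2 ∈ B then gB (p.1, ⟨p.2, h⟩) else g (jj p.2 h) (p.1, tt p.2 h)
  have hGB : ∀ s (b : ↥B), G (s, b.1) = gB (s, b) := by
    intro s b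
    show (if h : b.1 ∈ B then gB (s, ⟨b.1, h⟩) else g (jj b.1 h) (s, tt b.1 h)) = _
    rw [dif_pos b.2]
  have hGg : ∀ j s t, G (s, κ j t) = g j (s, t) := by
    intro j s t
    by_cases h : κ j t ∈ B
    · rw [hg j s t h, ← hGB]
    · show (if h : κ j t ∈ B then gB (s, ⟨κ j t, h⟩)
        else g (jj (κ j t) h) (s, tt (κ j t) h)) = _
      rw [dif_neg h]
      have h1 := hjt (κ j t) h
      have h2 : κ (jj (κ j t) h) (tt (κ j t) h) ∉ B := by rw [h1]; exact h
      obtain ⟨h3, h4⟩ := hR.inj _ _ _ _ h1 h2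
      rw [h3, h4]
  have hcont : Continuous G := by
    rw [continuous_iff_isClosed]
    intro C hC
    have e : G ⁻¹' C = (fun p : S × ↥B => (p.1, p.2.1)) '' (gB ⁻¹' C) ∪
        ⋃ j, (fun p : S × (Fin n → I) => (p.1, κ j p.2)) '' (g j ⁻¹' C) := by
      ext ⟨s, d⟩
      constructor
      · intro hp
        by_cases h : d ∈ B
        · left
          refine ⟨(s, ⟨d, h⟩), ?_, rfl⟩
          show gB (s, ⟨d, h⟩) ∈ C
          rw [← hGB]
          exact hp
        · right
          refine mem_iUnion.2 ⟨jj d h, (s, tt d h), ?_, ?_⟩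
          · show g (jj d h) (s, tt d h) ∈ C
            rw [← hGg, hjt d h]
            exact hp
          · show (s, κ (jj d h) (tt d h)) = (s, d)
            rw [hjt d h]
      · rintro (⟨⟨s', b⟩, hp, he⟩ | hp)
        · obtain ⟨rfl, rfl⟩ := Prod.mk.inj he
          show G (s', b.1) ∈ C
          rw [hGB]
          exact hp
        · obtain ⟨j, ⟨s', t⟩, hp2, he⟩ := mem_iUnion.1 hp
          obtain ⟨rfl, rfl⟩ := Prod.mk.inj he
          show G (s', κ j t) ∈ C
          rw [hGg]
          exact hp2
    rw [e]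
    refine IsClosed.union ?_ (isClosed_iUnion_of_finite fun j => ?_)
    · have h1 : IsProperMap (Prod.map (id : S → S) (Subtype.val : ↥B → D)) :=
        isProperMap_id.prodMap hR.closed.isProperMap_subtypeVal
      exact h1.isClosedMap _ (hC.preimage gB.continuous)
    · have h1 : IsProperMap (Prod.map (id : S → S) (κ j)) :=
        isProperMap_id.prodMap (κ j).continuous.isProperMap
      exact h1.isClosedMap _ (hC.preimage (g j).continuous)
  exact ⟨⟨G, hcont⟩, hGB, hGg⟩

end Pool.Agent.H370R3.BX
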