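import Mathlib
import Pool.Agent.H370R3.BX.Stmts

set_option autoImplicit false

namespace Pool.Agent.H370R3.BX

/-- the algebra behind the homotopy addition for cubes -/
theorem hat_abstract {G H : Type*} [Group G] [Group H] (n : ℕ) (f0 f1 : Fin (n + 1) → (G →* H))
    (hD : ∀ (i : Fin (n + 1)) (a : H), ∃ y : G, f0 i y = a ∧ f1 i y = a ∧
      ∀ j, j ≠ i → f0 j y = 1 ∧ f1 j y = 1)
    (hC : ∀ (i : Fin n) (a : H), ∃ y : G, f0 i.castSucc y = a ∧ f0 i.succ y = a ∧
      (∀ j, j ≠ i.castSucc → j ≠ i.succ → f0 j y = 1) ∧ ∀ j, f1 j y = 1)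
    (hB : ∀ y : G, (∀ j, f0 j y = 1) → (∀ j, j ≠ Fin.last n → f1 j y = 1) →
      f1 (Fin.last n) y = 1)
    (y : G) (P : Type*) [AddCommGroup P] (θ : H → P) (hθ : ∀ a b, θ (a * b) = θ a + θ b) :
    ∑ i : Fin (n + 1), (-1 : ℤ) ^ (i : ℕ) • (θ (f1 i y) - θ (f0 i y)) = 0 := by
  classical
  have hθ1 : θ 1 = 0 := by
    have := hθ 1 1
    rw [mul_one] at this
    exact left_eq_add.1 this
  set Λ : G → P := fun z => ∑ i : Fin (n + 1), (-1 : ℤ) ^ (i : ℕ) • (θ (f1 i z) - θ (f0 i z))
    with hΛ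
  have hadd : ∀ a b, Λ (a * b) = Λ a + Λ b := by
    intro a b
    simp only [hΛ, map_mul, hθ]
    rw [← Finset.sum_add_distrib]
    refine Finset.sum_congr rfl fun i _ => ?_
    rw [← smul_add]
    congr 1
    abel
  have hΛD : ∀ (i : Fin (n + 1)) (d : G), f0 i d = f1 i d →
      (∀ j, j ≠ i → f0 j d = 1 ∧ f1 j d = 1) → Λ d = 0 := by
    intro i d h1 h2
    refine Finset.sum_eq_zero fun j _ => ?_
    by_cases hj : j = i
    · subst hj
      rw [h1, sub_self, smul_zero]
    · rw [(h2 j hj).1, (h2 j hj).2, sub_self, smul_zero]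
  have hΛC : ∀ (i : Fin n) (d : G), f0 i.castSucc d = f0 i.succ d →
      (∀ j, j ≠ i.castSucc → j ≠ i.succ → f0 j d = 1) → (∀ j, f1 j d = 1) → Λ d = 0 := by
    intro i d h1 h2 h3
    have hne : i.castSucc ≠ i.succ := (Fin.castSucc_lt_succ).ne
    have h4 : Λ d = ∑ j ∈ ({i.castSucc, i.succ} : Finset (Fin (n + 1))),
        (-1 : ℤ) ^ (j : ℕ) • (θ (f1 j d) - θ (f0 j d)) := by
      symm
      refine Finset.sum_subset (Finset.subset_univ _) fun j _ hj => ?_
      simp only [Finset.mem_insert, Finset.mem_singleton, not_or] at hj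
      rw [h2 j hj.1 hj.2, h3 j, sub_self, smul_zero]
    rw [h4, Finset.sum_pair hne, h3, h3, h1, Fin.val_castSucc, Fin.val_succ, pow_succ]
    simp
  have key : Λ y = 0 := by
    -- first step : kill the faces `f1`
    have s1 : ∀ k : ℕ, ∃ z, Λ z = Λ y ∧ ∀ j : Fin (n + 1), (j : ℕ) < k → f1 j z = 1 := by
      intro k
      induction k with
      | zero => exact ⟨y, rfl, fun j hj => absurd hj (Nat.not_lt_zero _)⟩
      | succ k ih =>
        obtain ⟨z, hz1, hz2⟩ := ih
        by_cases hk : k < n + 1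
        · obtain ⟨d, hd1, hd2, hd3⟩ := hD ⟨k, hk⟩ (f1 ⟨k, hk⟩ z)⁻¹
          refine ⟨z * d, ?_, ?_⟩
          · rw [hadd, hz1, hΛD ⟨k, hk⟩ d (hd1.trans hd2.symm) hd3, add_zero]
          · intro j hj
            by_cases hjk : j = ⟨k, hk⟩
            · subst hjk
              rw [map_mul, hd2, mul_inv_cancel]
            · have : (j : ℕ) < k := by
                have h1 : (j : ℕ) ≠ k := fun h => hjk (Fin.ext h)
                omega
              rw [map_mul, hz2 j this, (hd3 j hjk).2, mul_one]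
        · refine ⟨z, hz1, fun j hj => hz2 j ?_⟩
          have := j.2
          omega
    obtain ⟨z1, hz1, hz1'⟩ := s1 (n + 1)
    have hz1'' : ∀ j, f1 j z1 = 1 := fun j => hz1' j j.2
    -- second step : kill the faces `f0`, except the last one
    have s2 : ∀ k : ℕ, k ≤ n → ∃ z, Λ z = Λ y ∧ (∀ j, f1 j z = 1) ∧
        ∀ j : Fin (n + 1), (j : ℕ) < k → f0 j z = 1 := by
      intro k
      induction k with
      | zero => exact fun _ => ⟨z1, hz1, hz1'', fun j hj => absurd hj (Nat.not_lt_zero _)⟩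
      | succ k ih =>
        intro hk
        obtain ⟨z, hz1, hz2, hz3⟩ := ih (by omega)
        obtain ⟨d, hd1, hd2, hd3, hd4⟩ := hC ⟨k, hk⟩ (f0 (Fin.castSucc ⟨k, hk⟩) z)⁻¹
        refine ⟨z * d, ?_, ?_, ?_⟩
        · rw [hadd, hz1, hΛC ⟨k, hk⟩ d (hd1.trans hd2.symm) hd3 hd4, add_zero]
        · intro j
          rw [map_mul, hz2, hd4, mul_one]
        · intro j hj
          by_cases hjk : j = Fin.castSucc ⟨k, hk⟩
          · subst hjk
            rw [map_mul, hd1, mul_inv_cancel]
          · have h1 : (j : ℕ) ≠ k := fun h => hjk (Fin.ext h)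
            have h2 : j ≠ Fin.succ ⟨k, hk⟩ := by
              intro h
              have := congrArg Fin.val h
              simp only [Fin.val_succ] at this
              omega
            rw [map_mul, hz3 j (by omega), hd3 j hjk h2, mul_one]
    obtain ⟨z2, hz2, hz2', hz2''⟩ := s2 n le_rfl
    -- third step
    obtain ⟨d, hd1, hd2, hd3⟩ := hD (Fin.last n) (f0 (Fin.last n) z2)⁻¹
    have h0 : ∀ j, f0 j (z2 * d) = 1 := by
      intro j
      by_cases hj : j = Fin.last n
      · subst hj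
        rw [map_mul, hd1, mul_inv_cancel]
      · have : (j : ℕ) < n := by
          have h1 : (j : ℕ) ≠ n := fun h => hj (Fin.ext h)
          have := j.2
          omega
        rw [map_mul, hz2'' j this, (hd3 j hj).1, mul_one]
    have h1 : ∀ j, j ≠ Fin.last n → f1 j (z2 * d) = 1 := by
      intro j hj
      rw [map_mul, hz2', (hd3 j hj).2, mul_one]
    have h2 := hB _ h0 h1
    have h3 : Λ (z2 * d) = 0 := by
      refine Finset.sum_eq_zero fun j _ => ?_
      have h4 : f1 j (z2 * d) = 1 := by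
        by_cases hj : j = Fin.last n
        · subst hj
          exact h2
        · exact h1 j hj
      rw [h4, h0 j, sub_self, smul_zero]
    rw [hadd, hz2, hΛD (Fin.last n) d (hd1.trans hd2.symm) hd3, add_zero] at h3
    exact h3
  exact key

theorem taskHAT : TaskHAT := by
  intro hD hC hB n Y _ y0 y P _ θ hθ
  refine hat_abstract n fc0 fc1 (hD n Y y0) ?_ (hB n Y y0) y P θ hθ
  exact hC n Y y0

end Pool.Agent.H370R3.BX
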