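import Pool.Agent.H370R3.BX.Stmts

set_option autoImplicit false
set_option maxHeartbeats 4000000

open Set Filter Topology unitInterval

namespace Pool.Agent.H370R3.BX

theorem taskHtpy_proof : TaskHtpy := by
  intro D D' _ _ _ _ _ _ B B' Y _ y0 φ ψ hφ hψ Φ h0 h1 hB x
  induction x using Path.Homotopic.Quotient.ind with
  | _ p =>
  show Path.Homotopic.Quotient.mk (p.map (RC.pull B B' Y y0 φ hφ).continuous) =
    Path.Homotopic.Quotient.mk (p.map (RC.pull B B' Y y0 ψ hψ).continuous)
  refine Quotient.sound ⟨?_⟩
  refine
    { toFun := fun z => ⟨(p z.2).1.comp (Φ.curry z.1), fun b hb => (p z.2).2 _ (hB z.1 b hb)⟩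
      continuous_toFun := ?_
      map_zero_left := ?_
      map_one_left := ?_
      prop' := ?_ }
  · refine Continuous.subtype_mk ?_ _
    have hc : Continuous fun z : I × I => (p z.2).1 :=
      continuous_subtype_val.comp (p.continuous.comp continuous_snd)
    have hd : Continuous fun z : I × I => Φ.curry z.1 :=
      Φ.curry.continuous.comp continuous_fst
    exact hc.compCM hd
  · intro t
    apply Subtype.ext
    ext d
    show (p t).1 (Φ (0, d)) = (p t).1 (φ d)
    rw [h0]
  · intro t
    apply Subtype.ext
    ext d
    show (p t).1 (Φ (1, d)) = (p t).1 (ψ d)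
    rw [h1]
  · intro s t ht
    apply Subtype.ext
    ext d
    have hp : ∀ e, (p t).1 e = y0 := by
      intro e
      rcases ht with rfl | ht
      · rw [p.source]; rfl
      · rw [mem_singleton_iff] at ht
        subst ht
        rw [p.target]; rfl
    show (p t).1 (Φ (s, d)) = (p t).1 (φ d)
    rw [hp, hp]

end Pool.Agent.H370R3.BX
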