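import Pool.Agent.H370R3.BX.Stmts

set_option autoImplicit false
set_option maxHeartbeats 4000000

open Set Filter Topology unitInterval

namespace Pool.Agent.H370R3.BX

noncomputable section

namespace MapAux

open Classical in
/-- the unnormalised weights -/
def P {V : Type} [Fintype V] (G : SimpleGraph V) (s : ℝ) (x : V × Bool → ℝ) (v : V) (ε : Bool) : ℝ :=
  max 0 (x (v, ε) - s) + (∏ u : V, max 0 (2 * s - x (u, ε))) *
    ∏ u : V, (if G.Adj v u then 1 else max 0 (s - x (u, !ε)))

variable {V : Type} [Fintype V] (G : SimpleGraph V)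

lemma P_nonneg (s : ℝ) (x : V × Bool → ℝ) (v : V) (ε : Bool) : 0 ≤ P G s x v ε := by
  classical
  unfold P
  refine add_nonneg (le_max_left _ _) (mul_nonneg (Finset.prod_nonneg fun _ _ => le_max_left _ _)
    (Finset.prod_nonneg fun u _ => ?_))
  split_ifs
  · norm_num
  · exact le_max_left _ _

lemma P_sw (s : ℝ) (x : V × Bool → ℝ) (v : V) (ε : Bool) : P G s (x ∘ sw) v ε = P G s x v (!ε) := by
  classical
  unfold P
  simp [sw]

lemma P_cases {s : ℝ} {x : V × Bool → ℝ} {v : V} {ε : Bool} (h : P G s x v ε ≠ 0) :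
    s < x (v, ε) ∨ ((∀ u, x (u, ε) < 2 * s) ∧ ∀ u, ¬ G.Adj v u → x (u, !ε) < s) := by
  classical
  by_contra hcon
  push Not at hcon
  obtain ⟨h1, h2⟩ := hcon
  apply h
  unfold P
  rw [max_eq_left (by linarith), zero_add]
  by_cases h3 : ∀ u, x (u, ε) < 2 * s
  · obtain ⟨u, hu1, hu2⟩ := h2 h3
    have : ∏ u : V, (if G.Adj v u then 1 else max 0 (s - x (u, !ε))) = 0 := by
      refine Finset.prod_eq_zero (Finset.mem_univ u) ?_
      rw [if_neg hu1, max_eq_left (by linarith)]
    rw [this, mul_zero]
  · push Not at h3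
    obtain ⟨u, hu⟩ := h3
    have : (∏ u : V, max 0 (2 * s - x (u, ε))) = 0 := by
      refine Finset.prod_eq_zero (Finset.mem_univ u) ?_
      rw [max_eq_left (by linarith)]
    rw [this, zero_mul]

lemma P_pos1 {s : ℝ} {x : V × Bool → ℝ} {v : V} {ε : Bool} (h : s < x (v, ε)) : 0 < P G s x v ε := by
  classical
  unfold P
  refine add_pos_of_pos_of_nonneg (lt_max_of_lt_right (by linarith))
    (mul_nonneg (Finset.prod_nonneg fun _ _ => le_max_left _ _) (Finset.prod_nonneg fun u _ => ?_))
  split_ifs
  · norm_num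
  · exact le_max_left _ _

lemma P_pos2 {s : ℝ} {x : V × Bool → ℝ} {v : V} {ε : Bool} (h : ∀ u, x (u, ε) < 2 * s)
    (h' : ∀ u, ¬ G.Adj v u → x (u, !ε) < s) : 0 < P G s x v ε := by
  classical
  unfold P
  refine add_pos_of_nonneg_of_pos (le_max_left _ _)
    (mul_pos (Finset.prod_pos fun u _ => lt_max_of_lt_right (by linarith [h u]))
      (Finset.prod_pos fun u _ => ?_))
  split_ifs with hu
  · norm_num
  · exact lt_max_of_lt_right (by linarith [h' u hu])

lemma P_cont (s : ℝ) (v : V) (ε : Bool) : Continuous fun x : V × Bool → ℝ => P G s x v ε := by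
  classical
  unfold P
  refine Continuous.add (by fun_prop) (Continuous.mul (by fun_prop) ?_)
  refine continuous_finsetProd _ fun u _ => ?_
  split_ifs
  · exact continuous_const
  · fun_prop

/-- the tent functions -/
def tent (i : ℝ) (t : ℝ) : ℝ := max 0 (1 - |3 * t - i|)

lemma tent_cont (i : ℝ) : Continuous (tent i) := by
  unfold tent; fun_prop

lemma tent_nonneg (i t : ℝ) : 0 ≤ tent i t := le_max_left _ _

lemma tent_symm (i t : ℝ) : tent i (1 - t) = tent (3 - i) t := by
  unfold tent
  rw [show 3 * (1 - t) - i = -(3 * t - (3 - i)) by ring, abs_neg]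

lemma tent_ne {i t : ℝ} (h : tent i t ≠ 0) : i - 1 < 3 * t ∧ 3 * t < i + 1 := by
  unfold tent at h
  by_contra hcon
  apply h
  apply max_eq_left
  rw [not_and_or] at hcon
  rcases hcon with hc | hc <;> push Not at hc
  · have := neg_le_abs (3 * t - i)
    linarith
  · have := le_abs_self (3 * t - i)
    linarith

lemma tent_sum {t : ℝ} (h0 : 0 ≤ t) (h1 : t ≤ 1) : tent 0 t + tent 1 t + tent 2 t + tent 3 t = 1 := by
  unfold tent
  rcases le_total (3 * t) 1 with h | h
  · rw [abs_of_nonneg (by linarith), abs_of_nonpos (by linarith : 3 * t - 1 ≤ 0),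
      abs_of_nonpos (by linarith : 3 * t - 2 ≤ 0), abs_of_nonpos (by linarith : 3 * t - 3 ≤ 0),
      max_eq_right (by linarith), max_eq_right (by linarith), max_eq_left (by linarith),
      max_eq_left (by linarith)]
    ring
  rcases le_total (3 * t) 2 with h' | h'
  · rw [abs_of_nonneg (by linarith), abs_of_nonneg (by linarith : 0 ≤ 3 * t - 1),
      abs_of_nonpos (by linarith : 3 * t - 2 ≤ 0), abs_of_nonpos (by linarith : 3 * t - 3 ≤ 0),
      max_eq_left (by linarith), max_eq_right (by linarith), max_eq_right (by linarith),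
      max_eq_left (by linarith)]
    ring
  · rw [abs_of_nonneg (by linarith), abs_of_nonneg (by linarith : 0 ≤ 3 * t - 1),
      abs_of_nonneg (by linarith : 0 ≤ 3 * t - 2), abs_of_nonpos (by linarith : 3 * t - 3 ≤ 0),
      max_eq_left (by linarith), max_eq_left (by linarith), max_eq_right (by linarith),
      max_eq_right (by linarith)]
    ring

/-- the coordinates of `q` -/
def Q (s : ℝ) (t : ℝ) (x : V × Bool → ℝ) (w : V × Bool) : ℝ :=
  if w.2 then tent 2 t * (P G s x w.1 true / ∑ u, P G s x u true) + tent 3 t * (1 / Fintype.card V)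
  else tent 0 t * (1 / Fintype.card V) + tent 1 t * (P G s x w.1 false / ∑ u, P G s x u false)

lemma Q_sw (s t : ℝ) (x : V × Bool → ℝ) (w : V × Bool) : Q G s (1 - t) (x ∘ sw) w = Q G s t x (sw w) := by
  obtain ⟨v, ε⟩ := w
  cases ε
  · simp only [Q, sw, P_sw, tent_symm, Bool.not_false, Bool.false_eq_true, if_false, if_true]
    norm_num
    ring
  · simp only [Q, sw, P_sw, tent_symm, Bool.not_true, Bool.false_eq_true, if_false, if_true]
    norm_num
    ring

end MapAux

open MapAux in
theorem taskMap_proof : TaskMap := by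
  classical
  intro V _ _ G
  have hcard : (0 : ℝ) < Fintype.card V := by exact_mod_cast Fintype.card_pos
  set s : ℝ := 1 / (8 * Fintype.card V) with hs
  have hs0 : 0 < s := by positivity
  -- positivity of the sums
  have hpos : ∀ (x : RealC (V × Bool) (BB G)) (ε : Bool), 0 < ∑ u, P G s x.1 u ε := by
    intro x ε
    obtain ⟨hx0, hx1, hxS⟩ := x.2
    have hsupp : ∀ w, x.1 w ≠ 0 → w ∈ supp x.1 := fun w hw => by simp [supp, hw]
    suffices h : ∃ v, 0 < P G s x.1 v ε by
      obtain ⟨v, hv⟩ := h
      exact Finset.sum_pos' (fun u _ => P_nonneg G s x.1 u ε) ⟨v, Finset.mem_univ v, hv⟩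
    by_cases hbig : ∃ v, s < x.1 (v, ε)
    · obtain ⟨v, hv⟩ := hbig
      exact ⟨v, P_pos1 G hv⟩
    · push Not at hbig
      have h2 : ∃ v, ∀ u, x.1 (u, !ε) ≠ 0 → G.Adj v u := by
        cases ε with
        | false =>
          obtain ⟨v, hv⟩ := hxS.2.2
          exact ⟨v, fun u hu => hv u (hsupp _ hu)⟩
        | true =>
          obtain ⟨w, hw⟩ := hxS.2.1
          exact ⟨w, fun u hu => (hw u (hsupp _ hu)).symm⟩
      obtain ⟨v, hv⟩ := h2
      refine ⟨v, P_pos2 G (fun u => by linarith [hbig u]) fun u hu => ?_⟩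
      have : x.1 (u, !ε) = 0 := by
        by_contra h0
        exact hu (hv u h0)
      rw [this]; exact hs0
  -- adjacency
  have hadj : ∀ (x : RealC (V × Bool) (BB G)) (v w : V), P G s x.1 v false ≠ 0 →
      P G s x.1 w true ≠ 0 → G.Adj v w := by
    intro x v w h1 h2
    obtain ⟨hx0, hx1, hxS⟩ := x.2
    have hsupp : ∀ w, x.1 w ≠ 0 → w ∈ supp x.1 := fun w hw => by simp [supp, hw]
    rcases P_cases G h1 with h1 | ⟨h1, h1'⟩ <;> rcases P_cases G h2 with h2 | ⟨h2, h2'⟩
    · exact hxS.1 v w (hsupp _ (ne_of_gt (hs0.trans h1))) (hsupp _ (ne_of_gt (hs0.trans h2)))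
    · by_contra hc
      have := h2' v (fun h => hc h.symm)
      simp only [Bool.not_true] at this
      linarith
    · by_contra hc
      have := h1' w hc
      simp only [Bool.not_false] at this
      linarith
    · exfalso
      have h3 : ∑ z : V × Bool, x.1 z ≤ ∑ z : V × Bool, 2 * s := by
        refine Finset.sum_le_sum fun z _ => ?_
        obtain ⟨u, ε⟩ := z
        cases ε
        · exact (h1 u).le
        · exact (h2 u).le
      rw [hx1] at h3
      simp only [Finset.sum_const, Finset.card_univ, Fintype.card_prod, Fintype.card_bool,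
        nsmul_eq_mul, hs] at h3
      push_cast at h3
      field_simp at h3
      norm_num at h3
  have hcard1 : (0 : ℝ) < 1 / Fintype.card V := by positivity
  -- the point
  have hQ0 : ∀ (t : I) (x : RealC (V × Bool) (BB G)) (w : V × Bool), 0 ≤ Q G s t x.1 w := by
    intro t x w
    have h1 := fun i => tent_nonneg i (t : ℝ)
    have h2 := fun ε => hpos x ε
    have h3 := fun ε => P_nonneg G s x.1 w.1 ε
    unfold Q
    split_ifs
    · exact add_nonneg (mul_nonneg (h1 2) (div_nonneg (h3 true) (h2 true).le))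
        (mul_nonneg (h1 3) hcard1.le)
    · exact add_nonneg (mul_nonneg (h1 0) hcard1.le)
        (mul_nonneg (h1 1) (div_nonneg (h3 false) (h2 false).le))
  have hQ1 : ∀ (t : I) (x : RealC (V × Bool) (BB G)), ∑ w, Q G s t x.1 w = 1 := by
    intro t x
    have h2 := fun ε => (hpos x ε).ne'
    rw [Fintype.sum_prod_type]
    have h3 : ∀ v : V, ∑ ε : Bool, Q G s t x.1 (v, ε) =
        (tent 2 t * (P G s x.1 v true / ∑ u, P G s x.1 u true) + tent 3 t * (1 / Fintype.card V)) +
        (tent 0 t * (1 / Fintype.card V) + tent 1 t * (P G s x.1 v false / ∑ u, P G s x.1 u false)) := by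
      intro v
      rw [Fintype.sum_bool]
      simp [Q]
    rw [Finset.sum_congr rfl fun v _ => h3 v]
    have e : ∀ ε, ∑ v, P G s x.1 v ε / ∑ u, P G s x.1 u ε = 1 := fun ε => by
      rw [← Finset.sum_div, div_self (h2 ε)]
    have e' : ∑ v : V, (1 : ℝ) / Fintype.card V = 1 := by
      rw [Finset.sum_const, Finset.card_univ, nsmul_eq_mul]
      field_simp
    have h5 := tent_sum t.2.1 t.2.2
    simp only [Finset.sum_add_distrib, ← Finset.mul_sum, e, e', mul_one]
    linarith
  have hQB : ∀ (t : I) (x : RealC (V × Bool) (BB G)), B0 G (supp (Q G s t x.1)) := by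
    intro t x v w hv hw
    have hv' : Q G s t x.1 (v, false) ≠ 0 := by simpa [supp] using hv
    have hw' : Q G s t x.1 (w, true) ≠ 0 := by simpa [supp] using hw
    simp only [Q, Bool.false_eq_true, if_false, if_true] at hv' hw'
    have ht0 := t.2.1
    have ht1 := t.2.2
    by_cases a0 : tent 0 (t : ℝ) = 0
    · by_cases a3 : tent 3 (t : ℝ) = 0
      · rw [a0, zero_mul, zero_add] at hv'
        rw [a3, zero_mul, add_zero] at hw'
        refine hadj x v w ?_ ?_
        · intro h; apply hv'; rw [h]; simp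
        · intro h; apply hw'; rw [h]; simp
      · exfalso
        have b3 := tent_ne a3
        have b1 : tent 1 (t : ℝ) = 0 := by
          by_contra hc
          have := tent_ne hc
          linarith [b3.1, this.2]
        apply hv'
        rw [a0, b1]; simp
    · exfalso
      have b0 := tent_ne a0
      have b2 : tent 2 (t : ℝ) = 0 := by
        by_contra hc
        have := tent_ne hc
        linarith [b0.2, this.1]
      have b3 : tent 3 (t : ℝ) = 0 := by
        by_contra hc
        have := tent_ne hc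
        linarith [b0.2, this.1]
      apply hw'
      rw [b2, b3]; simp
  have hcont : Continuous fun p : I × RealC (V × Bool) (BB G) => Q G s (p.1 : ℝ) p.2.1 := by
    have hx : Continuous fun p : I × RealC (V × Bool) (BB G) => (p.2.1 : V × Bool → ℝ) :=
      continuous_subtype_val.comp continuous_snd
    have ht : Continuous fun p : I × RealC (V × Bool) (BB G) => ((p.1 : I) : ℝ) :=
      continuous_subtype_val.comp continuous_fst
    have hP : ∀ v ε, Continuous fun p : I × RealC (V × Bool) (BB G) => P G s p.2.1 v ε :=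
      fun v ε => (P_cont G s v ε).comp hx
    have hT : ∀ i, Continuous fun p : I × RealC (V × Bool) (BB G) => tent i (p.1 : ℝ) :=
      fun i => (tent_cont i).comp ht
    have hS : ∀ ε, Continuous fun p : I × RealC (V × Bool) (BB G) => ∑ u, P G s p.2.1 u ε :=
      fun ε => continuous_finsetSum _ fun u _ => hP u ε
    refine continuous_pi fun w => ?_
    obtain ⟨v, ε⟩ := w
    cases ε
    · simp only [Q, Bool.false_eq_true, if_false]
      exact ((hT 0).mul continuous_const).add
        ((hT 1).mul ((hP v false).div (hS false) fun p => (hpos p.2 false).ne'))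
    · simp only [Q, if_true]
      exact ((hT 2).mul ((hP v true).div (hS true) fun p => (hpos p.2 true).ne')).add
        ((hT 3).mul continuous_const)
  let q : C(I × RealC (V × Bool) (BB G), RealC (V × Bool) (B0 G)) :=
    ⟨fun p => ⟨Q G s (p.1 : ℝ) p.2.1, hQ0 p.1 p.2, hQ1 p.1 p.2, hQB p.1 p.2⟩,
      hcont.subtype_mk _⟩
  have tent00 : tent 0 0 = 1 := by unfold tent; norm_num
  have tent10 : tent 1 0 = 0 := by unfold tent; norm_num
  have tent20 : tent 2 0 = 0 := by unfold tent; norm_num
  have tent30 : tent 3 0 = 0 := by unfold tent; norm_num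
  have tent01 : tent 0 1 = 0 := by unfold tent; norm_num
  have tent11 : tent 1 1 = 0 := by unfold tent; norm_num
  have tent21 : tent 2 1 = 0 := by unfold tent; norm_num
  have tent31 : tent 3 1 = 1 := by unfold tent; norm_num
  refine ⟨q, ?_, ?_, ?_⟩
  · intro x y
    apply Subtype.ext
    funext w
    show Q G s ((0 : I) : ℝ) x.1 w = Q G s ((0 : I) : ℝ) y.1 w
    simp [Q, tent10, tent20, tent30]
  · intro x y
    apply Subtype.ext
    funext w
    show Q G s ((1 : I) : ℝ) x.1 w = Q G s ((1 : I) : ℝ) y.1 w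
    simp [Q, tent11, tent21, tent01]
  · intro t x y hxy
    funext w
    show Q G s ((σ t : I) : ℝ) y.1 w = Q G s (t : ℝ) x.1 (sw w)
    rw [hxy, coe_symm_eq, Q_sw]

end

end Pool.Agent.H370R3.BX
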