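import Mathlib
import Pool.Agent.H370R3.BX.Stmts

set_option autoImplicit false
set_option maxHeartbeats 4000000

open Set Filter Topology unitInterval

namespace Pool.Agent.H370R3.BX

theorem taskMkEq_proof : TaskMkEq := by
  intro D _ _ _ B Y _ y0 h h0 h1 hB k k0 k1 kB
  have key : (LG.mk B h h0 h1 hB = LG.mk B k k0 k1 kB) ↔
      (LG.loop B h h0 h1 hB).Homotopic (LG.loop B k k0 k1 kB) :=
    Path.Homotopic.Quotient.eq
  rw [key]
  constructor
  · rintro ⟨F⟩
    let c : C(I × I, C(D, Y)) :=
      ⟨fun p => (F p).1, continuous_subtype_val.comp F.continuous⟩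
    let G : C((I × I) × D, Y) := c.uncurry
    let a : C(I × (I × D), (I × I) × D) :=
      ⟨fun p => ((p.1, p.2.1), p.2.2), by fun_prop⟩
    refine ⟨G.comp a, ?_, ?_, ?_, ?_, ?_⟩
    · intro t d
      change (F (0, t)).1 d = h (t, d)
      have e : F (0, t) = (LG.loop B h h0 h1 hB) t := F.apply_zero t
      rw [e]; rfl
    · intro t d
      change (F (1, t)).1 d = k (t, d)
      have e : F (1, t) = (LG.loop B k k0 k1 kB) t := F.apply_one t
      rw [e]; rfl
    · intro s d
      change (F (s, 0)).1 d = y0
      have e : F (s, 0) = RC.base D B Y y0 := Path.Homotopy.source F s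
      rw [e]; rfl
    · intro s d
      change (F (s, 1)).1 d = y0
      have e : F (s, 1) = RC.base D B Y y0 := Path.Homotopy.target F s
      rw [e]; rfl
    · intro s t b hb
      exact (F (s, t)).2 b hb
  · rintro ⟨H, H0, H1, Hs, Ht, HB⟩
    let a : C((I × I) × D, I × (I × D)) :=
      ⟨fun p => (p.1.1, (p.1.2, p.2)), by fun_prop⟩
    let c : C(I × I, C(D, Y)) := (H.comp a).curry
    let c' : C(I × I, RC D B Y y0) :=
      ⟨fun p => ⟨c p, fun b hb => HB p.1 p.2 b hb⟩, c.continuous.subtype_mk _⟩
    refine ⟨{ toContinuousMap := c', map_zero_left := ?_, map_one_left := ?_, prop' := ?_ }⟩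
    · intro t
      apply Subtype.ext; ext d
      exact H0 t d
    · intro t
      apply Subtype.ext; ext d
      exact H1 t d
    · intro s t ht
      rcases ht with rfl | ht
      · apply Subtype.ext; ext d
        exact (Hs s d).trans (h0 d).symm
      · rw [mem_singleton_iff] at ht
        subst ht
        apply Subtype.ext; ext d
        exact (Ht s d).trans (h1 d).symm

end Pool.Agent.H370R3.BX
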