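import Pool.Agent.H370R3.BX.Stmts

set_option autoImplicit false

open Set Filter Topology unitInterval

namespace Pool.Agent.H370R3.BX

/-- every loop in the space of maps comes from a map `I × D → Y` -/
theorem loop_surj {D : Type} [TopologicalSpace D] [CompactSpace D] [T2Space D] (B : Set D)
    {Y : Type} [TopologicalSpace Y] {y0 : Y} (p : Path (RC.base D B Y y0) (RC.base D B Y y0)) :
    ∃ (h : C(I × D, Y)) (h0 : ∀ d, h (0, d) = y0) (h1 : ∀ d, h (1, d) = y0)
      (hB : ∀ t, ∀ b ∈ B, h (t, b) = y0), p = LG.loop B h h0 h1 hB := by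
  let q : C(I, C(D, Y)) := ⟨fun t => (p t).1, continuous_subtype_val.comp p.continuous⟩
  refine ⟨q.uncurry, ?_, ?_, ?_, ?_⟩
  · intro d
    change (p 0).1 d = y0
    rw [p.source]; rfl
  · intro d
    change (p 1).1 d = y0
    rw [p.target]; rfl
  · intro t b hb
    exact (p t).2 b hb
  · apply Path.ext
    funext t
    apply Subtype.ext
    ext d
    rfl

theorem taskMkSurj_proof : TaskMkSurj := by
  intro D _ _ _ B Y _ y0 x
  induction x using Path.Homotopic.Quotient.ind with
  | mk p =>
    obtain ⟨h, h0, h1, hB, hp⟩ := loop_surj B p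
    refine ⟨h, h0, h1, hB, ?_⟩
    rw [hp]; rfl

end Pool.Agent.H370R3.BX
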