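import Pool.Agent.H370R3.BX.Stmts

set_option autoImplicit false
set_option maxHeartbeats 4000000
set_option linter.unusedSectionVars false

open Set Filter Topology unitInterval

namespace Pool.Agent.H370R3.BX

noncomputable section

namespace OddAux

variable {W : Type} [Fintype W] [LinearOrder W]

/-- all integral chains -/
abbrev Ch (W : Type) : Type := Finset W →₀ ℤ

/-- sign of a face -/
def eps (a : Finset W) (w : W) : ℤ := (-1) ^ (a.filter (· < w)).card

/-- boundary of a basis element -/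
def bde (a : Finset W) : Ch W := ∑ w ∈ a, eps a w • Finsupp.single (a.erase w) (1 : ℤ)

/-- the boundary -/
def bdr : Ch W →ₗ[ℤ] Ch W := Finsupp.linearCombination ℤ bde

lemma bdr_single (a : Finset W) (n : ℤ) : bdr (Finsupp.single a n) = n • bde a := by
  simp [bdr]

lemma eps_lt {a : Finset W} {v w : W} (hw : w ∈ a) (hvw : v < w) : eps (a.erase w) v = eps a v := by
  unfold eps
  congr 2
  ext u
  simp only [Finset.mem_filter, Finset.mem_erase]
  constructor
  · rintro ⟨⟨_, h⟩, h'⟩; exact ⟨h, h'⟩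
  · rintro ⟨h, h'⟩; exact ⟨⟨(h'.trans hvw).ne, h⟩, h'⟩

lemma eps_gt {a : Finset W} {v w : W} (hv : v ∈ a) (hvw : v < w) :
    eps (a.erase v) w = - eps a w := by
  unfold eps
  have h1 : a.filter (· < w) = insert v ((a.erase v).filter (· < w)) := by
    ext u
    simp only [Finset.mem_filter, Finset.mem_erase, Finset.mem_insert]
    constructor
    · rintro ⟨h, h'⟩
      by_cases hu : u = v
      · exact Or.inl hu
      · exact Or.inr ⟨⟨hu, h⟩, h'⟩
    · rintro (rfl | ⟨⟨_, h⟩, h'⟩)
      · exact ⟨hv, hvw⟩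
      · exact ⟨h, h'⟩
  rw [h1, Finset.card_insert_of_notMem (by simp), pow_succ]
  ring

lemma bdr_bde (a : Finset W) : bdr (bde a) = 0 := by
  unfold bde
  rw [map_sum]
  have h1 : ∀ w ∈ a, bdr (eps a w • Finsupp.single (a.erase w) (1 : ℤ)) =
      ∑ v ∈ a.erase w, (eps a w * eps (a.erase w) v) • Finsupp.single ((a.erase w).erase v) (1 : ℤ) := by
    intro w hw
    rw [map_smul, bdr_single, one_smul, bde, Finset.smul_sum]
    refine Finset.sum_congr rfl fun v _ => ?_
    rw [smul_smul]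
  rw [Finset.sum_congr rfl h1, Finset.sum_sigma']
  refine Finset.sum_involution (fun p _ => ⟨p.2, p.1⟩) ?_ ?_ ?_ ?_
  · rintro ⟨w, v⟩ hp
    simp only [Finset.mem_sigma, Finset.mem_erase] at hp
    obtain ⟨hw, hvw, hv⟩ := hp
    have hcomm : (a.erase w).erase v = (a.erase v).erase w := Finset.erase_right_comm
    simp only
    rw [hcomm, ← add_smul]
    have : eps a w * eps (a.erase w) v + eps a v * eps (a.erase v) w = 0 := by
      rcases lt_or_gt_of_ne hvw with h | h
      · rw [eps_lt hw h, eps_gt hv h]; ring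
      · rw [eps_gt hw h, eps_lt hv h]; ring
    rw [this, zero_smul]
  · rintro ⟨w, v⟩ hp _ heq
    simp only [Finset.mem_sigma, Finset.mem_erase] at hp
    have := congrArg Sigma.fst heq
    exact hp.2.1 this
  · rintro ⟨w, v⟩ hp
    simp only [Finset.mem_sigma, Finset.mem_erase] at hp ⊢
    exact ⟨hp.2.2, fun h => hp.2.1 h.symm, hp.1⟩
  · rintro ⟨w, v⟩ hp
    rfl

lemma bdr_bdr (z : Ch W) : bdr (bdr z) = 0 := by
  induction z using Finsupp.induction_linear with
  | zero => simp
  | add f g hf hg => rw [map_add, map_add, hf, hg, add_zero]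
  | single a n => rw [bdr_single, map_smul, bdr_bde, smul_zero]

/-- chains of a given size -/
def CC (S : Finset W → Prop) (m : ℕ) : Submodule ℤ (Ch W) := Finsupp.supported ℤ ℤ {a | S a ∧ a.card = m}

lemma single_mem {S : Finset W → Prop} {m : ℕ} {a : Finset W} (h : S a) (hm : a.card = m) (n : ℤ) :
    Finsupp.single a n ∈ CC S m := Finsupp.single_mem_supported ℤ _ ⟨h, hm⟩

lemma bde_mem {S : Finset W → Prop} (hS : Down S) {m : ℕ} {a : Finset W} (h : S a)
    (hm : a.card = m + 1) : bde a ∈ CC S m := by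
  unfold bde
  refine Submodule.sum_mem _ fun w hw => Submodule.smul_mem _ _ (single_mem ?_ ?_ _)
  · exact hS _ _ (Finset.erase_subset _ _) h
  · rw [Finset.card_erase_of_mem hw, hm]; rfl

lemma mem_CC_iff {S : Finset W → Prop} {m : ℕ} {z : Ch W} :
    z ∈ CC S m ↔ ∀ a, z a ≠ 0 → S a ∧ a.card = m := by
  unfold CC
  rw [Finsupp.mem_supported]
  constructor
  · intro h a ha
    exact h (Finset.mem_coe.mpr (Finsupp.mem_support_iff.mpr ha))
  · intro h a ha
    exact h a (Finsupp.mem_support_iff.mp (Finset.mem_coe.mp ha))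

/-- a linear statement on `CC S m` may be checked on basis elements -/
lemma CC_induct {S : Finset W → Prop} {m : ℕ} {N : Type} [AddCommGroup N] (f g : Ch W →ₗ[ℤ] N)
    (h : ∀ a, S a → a.card = m → f (Finsupp.single a 1) = g (Finsupp.single a 1)) {z : Ch W}
    (hz : z ∈ CC S m) : f z = g z := by
  have hz' := mem_CC_iff.mp hz
  rw [← Finsupp.sum_single z, Finsupp.sum, map_sum, map_sum]
  refine Finset.sum_congr rfl fun a ha => ?_
  obtain ⟨h1, h2⟩ := hz' a (Finsupp.mem_support_iff.mp ha)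
  have e : Finsupp.single a (z a) = z a • Finsupp.single a (1 : ℤ) := by simp
  rw [e, map_smul, map_smul, h a h1 h2]

lemma bdr_mem {S : Finset W → Prop} (hS : Down S) {m : ℕ} {z : Ch W} (hz : z ∈ CC S (m + 1)) :
    bdr z ∈ CC S m := by
  have hz' := mem_CC_iff.mp hz
  rw [← Finsupp.sum_single z, Finsupp.sum, map_sum]
  refine Submodule.sum_mem _ fun a ha => ?_
  obtain ⟨h1, h2⟩ := hz' a (Finsupp.mem_support_iff.mp ha)
  rw [bdr_single]
  exact Submodule.smul_mem _ _ (bde_mem hS h1 h2)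

/-- coefficients of the boundary mod 2 -/
lemma bdr_mod2 (z : Ch W) (a : Finset W) :
    ((bdr z a : ℤ) : ZMod 2) = ∑ w ∈ Finset.univ \ a, ((z (insert w a) : ℤ) : ZMod 2) := by
  induction z using Finsupp.induction_linear with
  | zero => simp
  | add f g hf hg =>
    rw [map_add]
    simp only [Finsupp.add_apply, Int.cast_add, hf, hg, Finset.sum_add_distrib]
  | single b n =>
    rw [bdr_single, bde]
    have h1 : ∀ w ∈ (Finset.univ : Finset W), ((((eps b w • Finsupp.single (b.erase w) (1 : ℤ)) : Ch W) a : ℤ) : ZMod 2) =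
        if b.erase w = a then 1 else 0 := by
      intro w _
      have h2 : ((eps b w : ℤ) : ZMod 2) = 1 := by
        unfold eps
        push_cast
        rw [show (-1 : ZMod 2) = 1 from by decide, one_pow]
      rw [Finsupp.smul_apply, smul_eq_mul, Int.cast_mul, h2, one_mul, Finsupp.single_apply]
      split_ifs <;> simp
    rw [Finsupp.smul_apply, smul_eq_mul, Int.cast_mul, Finsupp.finsetSum_apply, Int.cast_sum,
      Finset.sum_congr rfl fun w _ => h1 w (Finset.mem_univ w), ← Finset.sum_filter]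
    have h3 : ∀ w ∈ Finset.univ \ a, (((Finsupp.single b n : Ch W) (insert w a) : ℤ) : ZMod 2) =
        if b = insert w a then (n : ZMod 2) else 0 := by
      intro w _
      rw [Finsupp.single_apply]
      split_ifs <;> simp
    rw [Finset.sum_congr rfl h3, ← Finset.sum_filter, Finset.sum_const, Finset.sum_const,
      nsmul_eq_mul, nsmul_eq_mul, mul_one, mul_comm]
    congr 3
    ext w
    simp only [Finset.mem_filter, Finset.mem_sdiff, Finset.mem_univ, true_and]
    constructor
    · rintro ⟨h4, rfl⟩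
      exact ⟨Finset.notMem_erase _ _, (Finset.insert_erase h4).symm⟩
    · rintro ⟨h4, rfl⟩
      exact ⟨Finset.mem_insert_self _ _, Finset.erase_insert h4⟩

omit [LinearOrder W] in
lemma inst_swap {M : Type} [AddCommMonoid M] (D1 D2 : DecidableEq W) (a : Finset W)
    (F : Finset W → M) :
    (letI := D1; ∑ w ∈ Finset.univ \ a, F (insert w a)) =
      (letI := D2; ∑ w ∈ Finset.univ \ a, F (insert w a)) := by
  have h : D1 = D2 := Subsingleton.elim _ _
  subst h
  rfl

lemma step {S : Finset W → Prop} (hS : Down S) {m : ℕ} (hA : Acyc2 W S m) {z : Ch W}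
    (hz : z ∈ CC S m) (hz0 : bdr z = 0) :
    ∃ y ∈ CC S (m + 1), ∃ z' ∈ CC S m, bdr z' = 0 ∧ z = bdr y + (2 : ℤ) • z' := by
  classical
  obtain ⟨g, hg1, hg2⟩ := hA (fun a => ((z a : ℤ) : ZMod 2))
    (fun a ha => mem_CC_iff.mp hz a (fun h => ha (by simp [h])))
    (fun a => by
      have := bdr_mod2 z a
      rw [hz0] at this
      simp only [Finsupp.coe_zero, Pi.zero_apply, Int.cast_zero] at this
      rw [eq_comm] at this
      exact (inst_swap _ _ a (fun b => ((z b : ℤ) : ZMod 2))).trans this)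
  let y : Ch W := Finsupp.equivFunOnFinite.symm fun a => (((g a).val : ℕ) : ℤ)
  have hy : ∀ a, y a = (((g a).val : ℕ) : ℤ) := fun a => rfl
  have hyC : y ∈ CC S (m + 1) := mem_CC_iff.mpr fun a ha => hg1 a fun h => ha (by rw [hy, h]; rfl)
  have hy2 : ∀ a, ((y a : ℤ) : ZMod 2) = g a := fun a => by
    rw [hy]; push_cast; exact ZMod.natCast_zmod_val (g a)
  have heven : ∀ a, (2 : ℤ) ∣ (z - bdr y) a := by
    intro a
    have : (((z - bdr y) a : ℤ) : ZMod 2) = 0 := by
      rw [Finsupp.sub_apply, Int.cast_sub, bdr_mod2, hg2 a, sub_eq_zero]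
      exact (inst_swap _ _ a g).trans (Finset.sum_congr rfl fun w _ => (hy2 _).symm)
    exact (ZMod.intCast_zmod_eq_zero_iff_dvd _ 2).mp this
  let z' : Ch W := Finsupp.equivFunOnFinite.symm fun a => (z - bdr y) a / 2
  have hz' : (2 : ℤ) • z' = z - bdr y := by
    ext a
    rw [Finsupp.smul_apply, smul_eq_mul]
    exact Int.mul_ediv_cancel' (heven a)
  have hmem : z - bdr y ∈ CC S m := Submodule.sub_mem _ hz (bdr_mem hS hyC)
  refine ⟨y, hyC, z', mem_CC_iff.mpr fun a ha => mem_CC_iff.mp hmem a fun h => ha ?_, ?_, ?_⟩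
  · show (z - bdr y) a / 2 = 0
    rw [h]; rfl
  · have h2 : (2 : ℤ) • bdr z' = 0 := by
      rw [← map_smul, hz', map_sub, hz0, bdr_bdr, sub_zero]
    exact (smul_eq_zero.mp h2).resolve_left (by norm_num)
  · rw [hz']; abel

lemma kill {S : Finset W → Prop} (hS : Down S) {m : ℕ} (hA : Acyc2 W S m) :
    ∃ M : ℕ, Odd M ∧ ∀ z ∈ CC S m, bdr z = 0 → ∃ y ∈ CC S (m + 1), bdr y = (M : ℤ) • z := by
  classical
  let B : Submodule ℤ (Ch W) := (CC S (m + 1)).map bdr
  let Z : Submodule ℤ (Ch W) := CC S m ⊓ LinearMap.ker bdr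
  let N : Submodule ℤ (Ch W ⧸ B) := Z.map B.mkQ
  have hfin : Module.Finite ℤ (Ch W) := inferInstance
  have hfg : N.FG := IsNoetherian.noetherian N
  have hle : N ≤ (Ideal.span {(2 : ℤ)}) • N := by
    rintro _ ⟨z, hz, rfl⟩
    obtain ⟨hz1, hz2⟩ := hz
    obtain ⟨y, hy, z', hz', hz'0, he⟩ := step hS hA hz1 (LinearMap.mem_ker.mp hz2)
    have : B.mkQ z = (2 : ℤ) • B.mkQ z' := by
      rw [he, map_add, map_smul]
      have : B.mkQ (bdr y) = 0 := by
        rw [Submodule.mkQ_apply, Submodule.Quotient.mk_eq_zero]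
        exact ⟨y, hy, rfl⟩
      rw [this, zero_add]
    rw [this]
    exact Submodule.smul_mem_smul (Ideal.mem_span_singleton_self 2)
      ⟨z', ⟨hz', LinearMap.mem_ker.mpr hz'0⟩, rfl⟩
  obtain ⟨r, hr1, hr2⟩ := Submodule.exists_sub_one_mem_and_smul_eq_zero_of_fg_of_le_smul _ N hfg hle
  have hrodd : Odd r := by
    rw [Ideal.mem_span_singleton] at hr1
    obtain ⟨k, hk⟩ := hr1
    exact ⟨k, by linarith⟩
  refine ⟨r.natAbs, Int.natAbs_odd.mpr hrodd, fun z hz hz0 => ?_⟩
  have h1 : r • B.mkQ z = 0 := hr2 _ ⟨z, ⟨hz, LinearMap.mem_ker.mpr hz0⟩, rfl⟩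
  rw [← map_smul, Submodule.mkQ_apply, Submodule.Quotient.mk_eq_zero] at h1
  obtain ⟨y, hy, hy'⟩ := h1
  rcases Int.natAbs_eq r with h | h
  · refine ⟨y, hy, ?_⟩
    rw [hy', ← h]
  · refine ⟨-y, Submodule.neg_mem _ hy, ?_⟩
    rw [map_neg, hy', ← neg_smul]
    congr 1
    omega

/-- projection to the cycles -/
lemma proj {S : Finset W → Prop} (m : ℕ) :
    ∃ π : ↥(CC S m) →ₗ[ℤ] Ch W, (∀ x, π x ∈ CC S m ∧ bdr (π x) = 0) ∧
      ∀ x : ↥(CC S m), bdr x.1 = 0 → π x = x.1 := by
  let D : ↥(CC S m) →ₗ[ℤ] Ch W := bdr.comp (CC S m).subtype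
  have hfree : Module.Free ℤ ↥(LinearMap.range D) := inferInstance
  have hproj : Module.Projective ℤ ↥(LinearMap.range D) := inferInstance
  obtain ⟨se, hσ⟩ := Module.projective_lifting_property D.rangeRestrict LinearMap.id
    (LinearMap.surjective_rangeRestrict D)
  have hσ' : ∀ y, bdr (se y).1 = y.1 := fun y => by
    have := LinearMap.congr_fun hσ y
    have := congrArg Subtype.val this
    exact this
  refine ⟨(CC S m).subtype ∘ₗ (LinearMap.id - se ∘ₗ D.rangeRestrict), fun x => ⟨?_, ?_⟩, fun x hx => ?_⟩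
  · exact (x - se (D.rangeRestrict x)).2
  · show bdr (x.1 - (se (D.rangeRestrict x)).1) = 0
    rw [map_sub, hσ']
    show bdr x.1 - bdr x.1 = 0
    rw [sub_self]
  · show x.1 - (se (D.rangeRestrict x)).1 = x.1
    have : D.rangeRestrict x = 0 := Subtype.ext hx
    rw [this, map_zero]
    simp

/-- the two forms of the boundary -/
lemma sum_face {P : Type} [AddCommGroup P] (n : ℕ) (a : Finset W) (h : a.card = n) (b : Finset W → P) :
    ∑ j : Fin n, (-1 : ℤ) ^ (j : ℕ) • b (face n a h j) = Finsupp.linearCombination ℤ b (bde a) := by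
  classical
  unfold bde
  rw [map_sum]
  have h1 : ∀ j : Fin n, (-1 : ℤ) ^ (j : ℕ) • b (face n a h j) =
      (fun w => Finsupp.linearCombination ℤ b (eps a w • Finsupp.single (a.erase w) (1 : ℤ)))
        (a.orderEmbOfFin h j) := by
    intro j
    simp only
    rw [map_smul, Finsupp.linearCombination_single, one_smul]
    have h2 : eps a (a.orderEmbOfFin h j) = (-1) ^ (j : ℕ) := by
      unfold eps
      congr 1
      have : a.filter (· < a.orderEmbOfFin h j) =
          (Finset.univ.filter (fun i : Fin n => i < j)).map (a.orderEmbOfFin h).toEmbedding := by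
        ext w
        simp only [Finset.mem_filter, Finset.mem_map, Finset.mem_univ, true_and,
          RelEmbedding.coe_toEmbedding]
        constructor
        · rintro ⟨hw, hlt⟩
          have : w ∈ Set.range (a.orderEmbOfFin h) := by
            rw [Finset.range_orderEmbOfFin]; exact hw
          obtain ⟨i, rfl⟩ := this
          exact ⟨i, (a.orderEmbOfFin h).lt_iff_lt.mp hlt, rfl⟩
        · rintro ⟨i, hi, rfl⟩
          exact ⟨Finset.orderEmbOfFin_mem _ _ _, (a.orderEmbOfFin h).lt_iff_lt.mpr hi⟩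
      rw [this, Finset.card_map]
      have : (Finset.univ.filter (fun i : Fin n => i < j)) = Finset.Iio j := by
        ext i; simp
      rw [this, Fin.card_Iio]
    rw [h2]
    congr 2
  rw [Finset.sum_congr rfl fun j _ => h1 j]
  have h3 : a = Finset.univ.map (a.orderEmbOfFin h).toEmbedding := by
    ext w
    simp only [Finset.mem_map, Finset.mem_univ, true_and, RelEmbedding.coe_toEmbedding]
    constructor
    · intro hw
      have : w ∈ Set.range (a.orderEmbOfFin h) := by
        rw [Finset.range_orderEmbOfFin]; exact hw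
      exact this
    · rintro ⟨i, rfl⟩
      exact Finset.orderEmbOfFin_mem _ _ _
  have h4 : ∀ F : W → P, ∑ w ∈ a, F w = ∑ j : Fin n, F (a.orderEmbOfFin h j) := by
    intro F
    conv_lhs => rw [h3]
    rw [Finset.sum_map]
    rfl
  rw [h4]

end OddAux

open OddAux in
theorem taskOdd_proof : TaskOdd := by
  classical
  intro W _ _ S hS n hA P _ c hc
  obtain ⟨M1, hM1, k1⟩ := kill hS (hA (n + 2) le_rfl)
  obtain ⟨M2, hM2, k2⟩ := kill hS (hA (n + 1) (by omega))
  obtain ⟨π, hπ1, hπ2⟩ := proj (S := S) (n + 1)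
  let cl : Ch W →ₗ[ℤ] P := Finsupp.linearCombination ℤ c
  have hcl : ∀ y ∈ CC S (n + 3), cl (bdr y) = 0 := by
    intro y hy
    have := CC_induct (S := S) (m := n + 3) (cl ∘ₗ bdr) 0 (fun a h1 h2 => by
      rw [LinearMap.comp_apply, bdr_single, one_smul, LinearMap.zero_apply, ← sum_face (n + 3) a h2 c]
      exact hc a h2 h1) hy
    simpa using this
  -- the choice on basis elements
  have hch : ∀ a : Finset W, ∃ y : Ch W, y ∈ CC S (n + 2) ∧
      ∀ h : S a ∧ a.card = n + 1, bdr y = (M2 : ℤ) • π ⟨Finsupp.single a 1, single_mem h.1 h.2 1⟩ := by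
    intro a
    by_cases h : S a ∧ a.card = n + 1
    · obtain ⟨y, hy1, hy2⟩ := k2 _ (hπ1 ⟨Finsupp.single a 1, single_mem h.1 h.2 1⟩).1
        (hπ1 ⟨Finsupp.single a 1, single_mem h.1 h.2 1⟩).2
      exact ⟨y, hy1, fun _ => hy2⟩
    · exact ⟨0, Submodule.zero_mem _, fun h' => absurd h' h⟩
  choose ya hya1 hya2 using hch
  let s : Ch W →ₗ[ℤ] Ch W := Finsupp.linearCombination ℤ ya
  have hs1 : ∀ u, s u ∈ CC S (n + 2) := by
    intro u
    show Finsupp.linearCombination ℤ ya u ∈ CC S (n + 2)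
    rw [Finsupp.linearCombination_apply]
    exact Submodule.sum_mem _ fun a _ => Submodule.smul_mem _ _ (hya1 a)
  have hs2 : ∀ u (hu : u ∈ CC S (n + 1)), bdr (s u) = (M2 : ℤ) • π ⟨u, hu⟩ := by
    intro u hu
    have hu' := mem_CC_iff.mp hu
    have e1 : (⟨u, hu⟩ : ↥(CC S (n + 1))) = ∑ a ∈ u.support.attach,
        u a.1 • ⟨Finsupp.single a.1 1, single_mem (hu' a.1 (Finsupp.mem_support_iff.mp a.2)).1
          (hu' a.1 (Finsupp.mem_support_iff.mp a.2)).2 1⟩ := by
      apply Subtype.ext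
      rw [Submodule.coe_sum]
      show u = ∑ a ∈ u.support.attach, u a.1 • Finsupp.single a.1 (1 : ℤ)
      rw [Finset.sum_attach u.support (fun a => u a • Finsupp.single a (1 : ℤ))]
      conv_lhs => rw [← Finsupp.sum_single u, Finsupp.sum]
      refine Finset.sum_congr rfl fun a _ => ?_
      simp
    rw [e1, map_sum, Finset.smul_sum]
    show bdr (Finsupp.linearCombination ℤ ya u) = _
    rw [Finsupp.linearCombination_apply, Finsupp.sum, map_sum, ← Finset.sum_attach]
    refine Finset.sum_congr rfl fun a _ => ?_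
    rw [map_smul, map_smul, hya2 a.1 (hu' a.1 (Finsupp.mem_support_iff.mp a.2)), smul_comm]
  refine ⟨M1 * M2, fun a => (M1 : ℤ) • cl (s (Finsupp.single a 1)), hM1.mul hM2, fun a h2 h1 => ?_⟩
  refine Eq.trans ?_ (sum_face (n + 2) a h2 (fun a => (M1 : ℤ) • cl (s (Finsupp.single a 1)))).symm
  have e1 : (Finsupp.linearCombination ℤ fun a => (M1 : ℤ) • cl (s (Finsupp.single a 1))) =
      (M1 : ℤ) • (cl ∘ₗ s) := by
    refine Finsupp.lhom_ext' fun b => LinearMap.ext_ring ?_
    simp
  rw [e1]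
  set x : Ch W := Finsupp.single a 1 with hx
  have hxC : x ∈ CC S (n + 2) := single_mem h1 h2 1
  have hbx : bde a = bdr x := by rw [hx, bdr_single, one_smul]
  rw [hbx, LinearMap.smul_apply, LinearMap.comp_apply]
  have hbC : bdr x ∈ CC S (n + 1) := bdr_mem hS hxC
  have h3 : bdr (s (bdr x) - (M2 : ℤ) • x) = 0 := by
    rw [map_sub, hs2 _ hbC, hπ2 ⟨_, hbC⟩ (bdr_bdr x), map_smul, sub_self]
  obtain ⟨y', hy1, hy2⟩ := k1 _ (Submodule.sub_mem _ (hs1 _) (Submodule.smul_mem _ _ hxC)) h3
  have h4 : (M1 : ℤ) • cl (s (bdr x)) - (M1 : ℤ) • ((M2 : ℤ) • cl x) = 0 := by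
    rw [← smul_sub, ← map_smul cl, ← map_sub, ← map_smul, ← hy2, hcl y' hy1]
  have h5 : cl x = c a := by
    show Finsupp.linearCombination ℤ c x = c a
    rw [hx, Finsupp.linearCombination_single, one_smul]
  rw [h5] at h4
  rw [sub_eq_zero] at h4
  rw [h4, smul_smul]
  exact_mod_cast (natCast_zsmul (c a) (M1 * M2)).symm

end

end Pool.Agent.H370R3.BX
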