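import Pool.Agent.H370R3.BX.Stmts

/-! Task `TaskSuspB`: passage to the suspension. -/

set_option autoImplicit false

open Set Filter Topology unitInterval

namespace Pool.Agent.H370R3.BX

theorem taskSuspB_proof : TaskSuspB := by
  intro P R _ _ _ _ _ _ νP νR x0 Γ h0 h1 heq H H0 H1 Hs0 Hs1
  have hg : ∀ a b : I × P, SuRel P a b → Γ a = Γ b := by
    intro a b h
    cases h with
    | zero a b => rw [h0, h0]
    | one a b => rw [h1, h1]
  let g : C(Su P, Su R) := ⟨Quot.lift (fun p => Γ p) hg, continuous_quot_lift _ Γ.continuous⟩
  have hc : ∀ a b : I × P, SuRel P a b → Su.mk R (a.1, x0) = Su.mk R (b.1, x0) := by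
    intro a b h
    cases h with
    | zero a b => rfl
    | one a b => rfl
  let c : C(Su P, Su R) := ⟨Quot.lift (fun p => Su.mk R (p.1, x0)) hc,
    continuous_quot_lift _ ((Su.mk R).continuous.comp (continuous_fst.prodMk continuous_const))⟩
  have hq : IsQuotientMap (Su.mk P) := isQuotientMap_quot_mk
  have hH : ∀ (s : I) (a b : I × P), SuRel P a b → H (s, a) = H (s, b) := by
    intro s a b h
    cases h with
    | zero a b => rw [Hs0, Hs0]
    | one a b => rw [Hs1, Hs1]
  have hK : ∀ (s : I) (a b : I × P), SuRel P a b →
      Su.mk R (σ s * a.1, x0) = Su.mk R (σ s * b.1, x0) := by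
    intro s a b h
    cases h with
    | zero a b => rfl
    | one a b => rfl
  refine ⟨g, ?_, Su.mk R (0, x0), ?_⟩
  · intro y
    induction y using Quot.ind with
    | mk p =>
      obtain ⟨t, p⟩ := p
      exact heq t p
  · have e1 : g.Homotopic c := by
      refine ⟨⟨⟨fun q => Quot.lift (fun p => H (q.1, p)) (hH q.1) q.2, ?_⟩, ?_, ?_⟩⟩
      · apply hq.continuous_lift_prod_right
        exact H.continuous
      · intro y
        induction y using Quot.ind with
        | mk p =>
          obtain ⟨t, p⟩ := p
          exact H0 t p
      · intro y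
        induction y using Quot.ind with
        | mk p =>
          obtain ⟨t, p⟩ := p
          exact H1 t p
    have e2 : c.Homotopic (ContinuousMap.const _ (Su.mk R (0, x0))) := by
      refine ⟨⟨⟨fun q => Quot.lift (fun p : I × P => Su.mk R (σ q.1 * p.1, x0)) (hK q.1) q.2, ?_⟩,
        ?_, ?_⟩⟩
      · apply hq.continuous_lift_prod_right
        show Continuous fun p : I × (I × P) => Su.mk R (σ p.1 * p.2.1, x0)
        apply (Su.mk R).continuous.comp
        apply Continuous.prodMk _ continuous_const
        apply Continuous.subtype_mk
        exact ((continuous_subtype_val.comp (continuous_symm.comp continuous_fst)).mul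
          (continuous_subtype_val.comp (continuous_fst.comp continuous_snd)))
      · intro y
        induction y using Quot.ind with
        | mk p =>
          obtain ⟨t, p⟩ := p
          show Su.mk R (σ 0 * t, x0) = Su.mk R (t, x0)
          rw [unitInterval.symm_zero, one_mul]
      · intro y
        induction y using Quot.ind with
        | mk p =>
          obtain ⟨t, p⟩ := p
          show Su.mk R (σ 1 * t, x0) = Su.mk R (0, x0)
          rw [unitInterval.symm_one, zero_mul]
    exact e1.trans e2

end Pool.Agent.H370R3.BX
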