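import Mathlib
import Pool.Agent.H370R3.BX.Stmts

set_option autoImplicit false
set_option maxHeartbeats 4000000

open Set Filter Topology unitInterval

namespace Pool.Agent.H370R3.BX

noncomputable section

namespace TwoAux

lemma pull_pull {D D' D'' : Type} [TopologicalSpace D] [TopologicalSpace D'] [TopologicalSpace D'']
    {B : Set D} {B' : Set D'} {B'' : Set D''} {Y : Type} [TopologicalSpace Y] {y0 : Y}
    (φ : C(D', D)) (hφ : ∀ b ∈ B', φ b ∈ B) (ψ : C(D'', D')) (hψ : ∀ b ∈ B'', ψ b ∈ B')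
    (x : LG D B Y y0) :
    LG.pull B'' ψ hψ (LG.pull B' φ hφ x) =
      LG.pull B'' (φ.comp ψ) (fun b hb => hφ _ (hψ b hb)) x := by
  induction x using Quotient.ind
  rfl

/-- composition of retractions -/
lemma ret_trans {D : Type} [TopologicalSpace D] {B B' : Set D} (hB' : IsClosed B')
    (hBB' : B ⊆ B') (h1 : Ret D B') (h2 : Ret ↥B' {x | x.1 ∈ B}) : Ret D B := by
  classical
  obtain ⟨r1, a1, b1, c1⟩ := h1
  obtain ⟨r2, a2, b2, c2⟩ := h2
  let ι : I × ↥B' → I × D := fun p => (p.1, p.2.1)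
  have hι : Continuous ι := continuous_fst.prodMk (continuous_subtype_val.comp continuous_snd)
  let f : I × D → I × D := fun p =>
    if h : (r1 p).2 ∈ B' then ι (r2 ((r1 p).1, ⟨(r1 p).2, h⟩)) else r1 p
  have f1 : ∀ p, (r1 p).1 = 0 → f p = r1 p := by
    intro p hp
    by_cases h : (r1 p).2 ∈ B'
    · simp only [f, h, dif_pos]
      have : ((r1 p).1, (⟨(r1 p).2, h⟩ : ↥B')) = (0, ⟨(r1 p).2, h⟩) := by rw [hp]
      rw [this, b2]
      simp only [ι]
      rw [← hp]
    · simp only [f, h, dif_neg, not_false_iff]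
  have f2 : ∀ p (h : (r1 p).2 ∈ B'), f p = ι (r2 ((r1 p).1, ⟨(r1 p).2, h⟩)) := by
    intro p h; simp only [f, h, dif_pos]
  have hf : Continuous f := by
    have hs1 : IsClosed {p : I × D | (r1 p).1 = 0} :=
      isClosed_eq (continuous_fst.comp r1.continuous) continuous_const
    have hs2 : IsClosed {p : I × D | (r1 p).2 ∈ B'} :=
      hB'.preimage (continuous_snd.comp r1.continuous)
    have hu : {p : I × D | (r1 p).1 = 0} ∪ {p : I × D | (r1 p).2 ∈ B'} = univ := by
      ext p; simpa using a1 p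
    rw [← continuousOn_univ, ← hu]
    refine ContinuousOn.union_of_isClosed ?_ ?_ hs1 hs2
    · exact r1.continuous.continuousOn.congr fun p hp => f1 p hp
    · rw [continuousOn_iff_continuous_restrict]
      have : (fun p : {p : I × D | (r1 p).2 ∈ B'} => f p.1) =
          fun p : {p : I × D | (r1 p).2 ∈ B'} => ι (r2 ((r1 p.1).1, ⟨(r1 p.1).2, p.2⟩)) := by
        funext p
        exact f2 p.1 p.2
      change Continuous (fun p : {p : I × D | (r1 p).2 ∈ B'} => f p.1)
      rw [this]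
      have hr : Continuous fun p : {p : I × D | (r1 p).2 ∈ B'} => r1 p.1 :=
        r1.continuous.comp continuous_subtype_val
      exact hι.comp (r2.continuous.comp ((continuous_fst.comp hr).prodMk
        ((continuous_snd.comp hr).subtype_mk _)))
  refine ⟨⟨f, hf⟩, ?_, ?_, ?_⟩
  · intro p
    change (f p).1 = 0 ∨ (f p).2 ∈ B
    rcases a1 p with h | h
    · by_cases h' : (r1 p).2 ∈ B'
      · rw [f2 p h']
        exact a2 _
      · left; rw [f1 p h, h]
    · rw [f2 p h]
      exact a2 _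
  · intro d
    change f (0, d) = (0, d)
    rw [f1 (0, d) (by rw [b1]), b1]
  · intro s b hb
    change f (s, b) = (s, b)
    have h1 := c1 s b (hBB' hb)
    have h2 : (r1 (s, b)).2 ∈ B' := by rw [h1]; exact hBB' hb
    rw [f2 _ h2]
    have h3 : ((r1 (s, b)).1, (⟨(r1 (s, b)).2, h2⟩ : ↥B')) = (s, ⟨b, hBB' hb⟩) := by
      apply Prod.ext
      · exact (congrArg Prod.fst h1 : (r1 (s, b)).1 = s)
      · apply Subtype.ext; exact (congrArg Prod.snd h1 : (r1 (s, b)).2 = b)
    rw [h3, c2 s ⟨b, hBB' hb⟩ hb]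

/-- `Ret` for the same sets seen in another subspace -/
lemma ret_congr {D E : Type} [TopologicalSpace D] [TopologicalSpace E] (e : D ≃ₜ E) {B : Set D}
    {C : Set E} (h : ∀ d, d ∈ B ↔ e d ∈ C) (hr : Ret D B) : Ret E C := by
  obtain ⟨r, a, b, c⟩ := hr
  refine ⟨⟨fun p => ((r (p.1, e.symm p.2)).1, e (r (p.1, e.symm p.2)).2), by fun_prop⟩, ?_, ?_, ?_⟩
  · intro p
    rcases a (p.1, e.symm p.2) with h1 | h1
    · left; exact h1
    · right; exact (h _).1 h1
  · intro d
    simp [b]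
  · intro s x hx
    have hx' : e.symm x ∈ B := (h _).2 (by simpa using hx)
    simp [c s _ hx']

end TwoAux

open TwoAux

theorem taskTwo_proof : TaskTwo := by
  intro hEx hRC A _ _ _ K hK n h Y _ y0 z hz
  have hXl : ∀ m, K.Xl (m + 1) = K.X m := by
    have hm : ∀ k m, K.X m ⊆ K.X (m + k) := by
      intro k
      induction k with
      | zero => intro m; exact subset_rfl
      | succ k ih => intro m; exact (ih m).trans (hK.mono (m + k))
    intro m
    ext a
    constructor
    · rintro ⟨l, hl, ha⟩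
      obtain ⟨k, rfl⟩ := Nat.exists_eq_add_of_le (Nat.lt_succ_iff.1 hl)
      exact hm k l ha
    · intro ha
      exact ⟨m, Nat.lt_succ_self m, ha⟩
  have hcomp : ∀ m, CompactSpace ↥(K.X m) := fun m =>
    isCompact_iff_compactSpace.1 (hK.closed m).isCompact
  -- the retractions onto the next skeleton
  have hret : ∀ m, Ret ↥(K.X (m + 1)) {x | x.1 ∈ K.X m} := by
    intro m
    have := hcomp (m + 1)
    have := hK.fin (m + 1)
    refine hRC ↥(K.X (m + 1)) {x | x.1 ∈ K.X m} (K.E (m + 1)) (m + 1) (K.κ' hK (m + 1)) ?_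
    refine ⟨(hK.closed m).preimage continuous_subtype_val, ?_, ?_, ?_⟩
    · intro j t
      have := hK.bd (m + 1) j t
      rw [hXl m] at this
      exact this
    · intro j j' t t' h1 h2
      refine hK.inj (m + 1) j j' t t' (congrArg Subtype.val h1) ?_
      rw [hXl m]; exact h2
    · intro d hd
      obtain ⟨e, t, het⟩ := hK.cover (m + 1) d.1 d.2 (by rw [hXl m]; exact hd)
      exact ⟨e, t, Subtype.ext het⟩
  -- composition
  have hret2 : Ret ↥(K.X (n + 2)) {x | x.1 ∈ K.X n} := by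
    refine ret_trans (B' := {x : ↥(K.X (n + 2)) | x.1 ∈ K.X (n + 1)})
      ((hK.closed (n + 1)).preimage continuous_subtype_val) (fun x hx => hK.mono n hx)
      (hret (n + 1)) ?_
    let e : ↥(K.X (n + 1)) ≃ₜ ↥({x : ↥(K.X (n + 2)) | x.1 ∈ K.X (n + 1)}) :=
      { toFun := fun x => ⟨⟨x.1, hK.mono (n + 1) x.2⟩, x.2⟩
        invFun := fun x => ⟨x.1.1, x.2⟩
        left_inv := fun x => rfl
        right_inv := fun x => rfl
        continuous_toFun := by
          exact (continuous_subtype_val.subtype_mk _).subtype_mk _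
        continuous_invFun := by
          exact (continuous_subtype_val.comp continuous_subtype_val).subtype_mk _ }
    exact ret_congr e (fun d => Iff.rfl) (hret n)
  have hsub : ∀ a, a ∈ K.Xl (n + 1) → a ∈ K.X n := by
    intro a ha; rw [hXl n] at ha; exact ha
  have := hcomp (n + 2)
  have hBX : {x : ↥(K.X (n + 2)) | x.1 ∈ K.Xl (n + 1)} = {x : ↥(K.X (n + 2)) | x.1 ∈ K.X n} := by
    rw [hXl n]
  have hcl : IsClosed {x : ↥(K.X (n + 2)) | x.1 ∈ K.Xl (n + 1)} := by
    rw [hBX]; exact (hK.closed n).preimage continuous_subtype_val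
  have hretB : Ret ↥(K.X (n + 2)) {x | x.1 ∈ K.Xl (n + 1)} := by
    rw [hBX]; exact hret2
  obtain ⟨z', hz'⟩ := hEx ↥(K.X (n + 2)) {x | x.1 ∈ K.Xl (n + 1)} {x | x.1 ∈ (∅ : Set A)} hcl
    (fun x hx => absurd hx (Set.notMem_empty _)) hretB Y y0 z (by
      let q : C(↥({x : ↥(K.X (n + 2)) | x.1 ∈ K.Xl (n + 1)}), ↥(K.X n)) :=
        ⟨fun b => ⟨b.1.1, (hsub b.1.1 b.2)⟩,
          (continuous_subtype_val.comp continuous_subtype_val).subtype_mk _⟩
      have h1 := pull_pull (B'' := {b : ↥({x : ↥(K.X (n + 2)) | x.1 ∈ K.Xl (n + 1)}) |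
          b.1 ∈ {x : ↥(K.X (n + 2)) | x.1 ∈ (∅ : Set A)}}) (K.inc h)
          (B' := {x : ↥(K.X n) | x.1 ∈ (∅ : Set A)}) (fun _ hb => hb) q (fun _ hb => hb) z
      have h2 : LG.pull {x : ↥(K.X n) | x.1 ∈ (∅ : Set A)} (K.inc h) (fun _ hb => hb) z = 1 := hz
      rw [h2, map_one] at h1
      exact h1.symm)
  exact ⟨z', hz'⟩

end

end Pool.Agent.H370R3.BX
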