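import Pool.Agent.H370R3.BX.Stmts

set_option autoImplicit false
set_option maxHeartbeats 4000000

open Set Filter Topology unitInterval

namespace Pool.Agent.H370R3.BX

noncomputable section

theorem TaskZ_pull_pull {D D' D'' : Type} [TopologicalSpace D] [TopologicalSpace D']
    [TopologicalSpace D''] {B : Set D} {B' : Set D'} (B'' : Set D'')
    {Y : Type} [TopologicalSpace Y] {y0 : Y} (φ : C(D', D)) (h : ∀ b ∈ B', φ b ∈ B)
    (ψ : C(D'', D')) (k : ∀ b ∈ B'', ψ b ∈ B') (x : LG D B Y y0) :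
    LG.pull B'' ψ k (LG.pull B' φ h x) = LG.pull B'' (φ.comp ψ) (fun b hb => h _ (k b hb)) x := by
  induction x using Path.Homotopic.Quotient.ind with
  | mk p => rfl

theorem TaskZ_congr {D D' : Type} [TopologicalSpace D] [TopologicalSpace D'] {B : Set D}
    (B' : Set D') {Y : Type} [TopologicalSpace Y] {y0 : Y} (φ ψ : C(D', D))
    (h : ∀ b ∈ B', φ b ∈ B) (k : ∀ b ∈ B', ψ b ∈ B) (e : ∀ d, φ d = ψ d) (x : LG D B Y y0) :
    LG.pull B' φ h x = LG.pull B' ψ k x := by
  obtain rfl : φ = ψ := ContinuousMap.ext e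
  rfl

theorem TaskZ_triv {D D' : Type} [TopologicalSpace D] [TopologicalSpace D'] {B : Set D}
    (B' : Set D') {Y : Type} [TopologicalSpace Y] {y0 : Y} (φ : C(D', D))
    (h : ∀ b ∈ B', φ b ∈ B) (e : ∀ d, φ d ∈ B) (x : LG D B Y y0) :
    LG.pull B' φ h x = 1 := by
  induction x using Path.Homotopic.Quotient.ind with
  | mk p =>
    change Path.Homotopic.Quotient.mk _ = Path.Homotopic.Quotient.mk _
    congr 1
    ext t
    apply Subtype.ext
    ext d
    exact (p t).2 _ (e d)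

/-- the faces of codimension two go to the skeleton two steps lower -/
theorem TaskZ_bd2 {A : Type} [TopologicalSpace A] (K : SCx A) (hK : K.Ok) (n : ℕ)
    (e : K.E (n + 1)) (t : Fin (n + 1) → I) (ht : t ∈ bd2 (n + 1)) :
    K.κ (n + 1) e t ∈ K.Xl n := by
  obtain ⟨i, j, hij, hi, hj⟩ := ht
  have hb : i.removeNth t ∈ bdry n := by
    obtain ⟨k, rfl⟩ := Fin.exists_succAbove_eq hij.symm
    exact ⟨k, hj⟩
  have ht : i.insertNth (t i) (i.removeNth t) = t := Fin.insertNth_self_removeNth i t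
  rcases hi with hi | hi
  · rw [hi] at ht
    rcases eq_or_ne i (Fin.last n) with hl | hl
    · subst hl
      rw [← ht, hK.last]
      exact (hK.bd n _ _).2 hb
    · rw [← ht]
      have : (i : ℕ) < n := by
        have := i.2
        have h2 : (i : ℕ) ≠ n := fun h => hl (Fin.ext h)
        omega
      exact ⟨i, this, hK.zero n e i _⟩
  · rw [hi] at ht
    rw [← ht, hK.one]
    exact (hK.bd n _ _).2 hb

theorem taskZ_proof : TaskZ := by
  intro hHAT A _ _ _ K hK n Y _ y0 z P _ θ hθ e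
  have hθ1 : θ 1 = 0 := by
    have := hθ 1 1
    rw [mul_one] at this
    exact (left_eq_add.mp this)
  set y : LG (Fin (n + 1) → I) (bd2 (n + 1)) Y y0 :=
    LG.pull (B := {x : ↥(K.X (n + 1)) | x.1 ∈ K.Xl n}) (bd2 (n + 1)) (K.κ' hK (n + 1) e)
      (fun t ht => TaskZ_bd2 K hK n e t ht) z with hy
  have h1 : ∀ i : Fin (n + 1), fc1 i y =
      K.coch hK (K.res (hK.mono n) (K.Xl n) z) (K.d n e i.castSucc) := by
    intro i
    refine (TaskZ_pull_pull _ _ _ _ _ z).trans (Eq.trans ?_ (TaskZ_pull_pull _ _ _ _ _ z).symm)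
    refine TaskZ_congr _ _ _ _ _ (fun t => Subtype.ext ?_) z
    exact hK.one n e i t
  have h0 : fc0 (Fin.last n) y =
      K.coch hK (K.res (hK.mono n) (K.Xl n) z) (K.d n e (Fin.last (n + 1))) := by
    refine (TaskZ_pull_pull _ _ _ _ _ z).trans (Eq.trans ?_ (TaskZ_pull_pull _ _ _ _ _ z).symm)
    refine TaskZ_congr _ _ _ _ _ (fun t => Subtype.ext ?_) z
    exact hK.last n e t
  have h2 : ∀ i : Fin (n + 1), i ≠ Fin.last n → fc0 i y = 1 := by
    intro i hi
    refine (TaskZ_pull_pull _ _ _ _ _ z).trans ?_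
    refine TaskZ_triv _ _ _ (fun t => ?_) z
    have : (i : ℕ) < n := by
      have := i.2
      have h2 : (i : ℕ) ≠ n := fun h => hi (Fin.ext h)
      omega
    exact ⟨i, this, hK.zero n e i t⟩
  have H := hHAT n Y y0 y P θ hθ
  rw [Fin.sum_univ_castSucc]
  have e1 : ∀ i : Fin (n + 1), (-1 : ℤ) ^ (i : ℕ) • (θ (fc1 i y) - θ (fc0 i y)) =
      (-1 : ℤ) ^ (i : ℕ) • θ (K.coch hK (K.res (hK.mono n) (K.Xl n) z) (K.d n e i.castSucc)) -
      (-1 : ℤ) ^ (i : ℕ) • θ (fc0 i y) := by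
    intro i
    rw [h1, smul_sub]
  rw [Finset.sum_congr rfl fun i _ => e1 i, Finset.sum_sub_distrib] at H
  have e2 : ∑ i : Fin (n + 1), (-1 : ℤ) ^ (i : ℕ) • θ (fc0 i y) =
      (-1 : ℤ) ^ n • θ (K.coch hK (K.res (hK.mono n) (K.Xl n) z) (K.d n e (Fin.last (n + 1)))) := by
    rw [Finset.sum_eq_single (Fin.last n)]
    · rw [h0, Fin.val_last]
    · intro i _ hi
      rw [h2 i hi, hθ1, smul_zero]
    · intro h
      exact absurd (Finset.mem_univ _) h
  rw [e2] at H
  simp only [Fin.val_castSucc, Fin.val_last, pow_succ, mul_neg, mul_one, neg_smul]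
  rw [← sub_eq_add_neg]
  exact H

end

end Pool.Agent.H370R3.BX
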