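import Pool.Agent.H370R3.BX.Asm4
import Pool.Agent.H370R3.BX.TaskMkSurj
import Pool.Agent.H370R3.BX.TaskMkEq
import Pool.Agent.H370R3.BX.TaskHtpy
import Pool.Agent.H370R3.BX.TaskExact
import Pool.Agent.H370R3.BX.Cube
import Pool.Agent.H370R3.BX.TaskGlue
import Pool.Agent.H370R3.BX.RetCells
import Pool.Agent.H370R3.BX.TaskCellInj
import Pool.Agent.H370R3.BX.TaskCellSurj
import Pool.Agent.H370R3.BX.Comm
import Pool.Agent.H676R4.BXDegen
import Pool.Agent.H370R3.BX.TaskConn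
import Pool.Agent.H370R3.BX.TaskBox
import Pool.Agent.H370R3.BX.TaskHAT
import Pool.Agent.H370R3.BX.TaskZ
import Pool.Agent.H370R3.BX.TaskB
import Pool.Agent.H370R3.BX.TaskTwo
import Pool.Agent.H662R3.BX.Main
import Pool.Agent.H183R3.SuspA
import Pool.Agent.H370R3.BX.TaskSuspB
import Pool.Agent.H370R3.BX.TaskExt
import Pool.Agent.H370R3.BX.TaskCircle
import Pool.Agent.H370R3.BX.TCompact
import Pool.Agent.H370R3.BX.TaskCoord
import Pool.Agent.H886R3.TaskBXReal
import Pool.Agent.H370R3.BX.TaskPath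
import Pool.Agent.H370R3.BX.TaskBase
import Pool.Agent.H370R3.BX.TaskBB
import Pool.Agent.H370R3.BX.TaskMap
import Pool.Agent.H370R3.BX.TaskOdd
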