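import Pool.Agent.H370R3.BX.Stmts

set_option autoImplicit false

open Set Filter Topology unitInterval

namespace Pool.Agent.H370R3.BX

noncomputable section

theorem oddExact_of_oddS {W : Type} [Fintype W] [LinearOrder W] {S : Finset W → Prop}
    (K : SCx (RealC W S)) (ε : ∀ n, K.E n ≃ Sx W S n)
    (hε : ∀ n (e : K.E (n + 1)) (j : Fin (n + 2)),
        (ε n (K.d n e j)).1 = face (n + 2) (ε (n + 1) e).1 (ε (n + 1) e).2.2 j)
    (n : ℕ) (h : OddS W S n) : K.OddExact n := by
  classical
  intro P _ c hc
  let c' : Finset W → P := fun a =>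
    if h : S a ∧ a.card = n + 1 + 1 then c ((ε (n + 1)).symm ⟨a, h⟩) else 0
  have key : ∀ e : K.E (n + 1), c' (ε (n + 1) e).1 = c e := by
    intro e
    have : S (ε (n + 1) e).1 ∧ (ε (n + 1) e).1.card = n + 1 + 1 := (ε (n + 1) e).2
    simp only [c']
    rw [dif_pos this]
    congr 1
    exact (ε (n + 1)).symm_apply_apply e
  obtain ⟨M, b, hM, hb⟩ := h P c' (by
    intro a ha hS
    let e : K.E (n + 2) := (ε (n + 2)).symm ⟨a, hS, ha⟩
    have he : (ε (n + 2) e) = ⟨a, hS, ha⟩ := (ε (n + 2)).apply_symm_apply _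
    have := hc e
    rw [← this]
    refine Finset.sum_congr rfl fun j _ => ?_
    congr 1
    rw [← key, hε (n + 1) e j]
    congr 1
    unfold face
    congr 2 <;> simp [he])
  refine ⟨M, fun e => b (ε n e).1, hM, fun e => ?_⟩
  have := hb (ε (n + 1) e).1 (ε (n + 1) e).2.2 (ε (n + 1) e).2.1
  rw [key] at this
  rw [this]
  refine Finset.sum_congr rfl fun j _ => ?_
  beta_reduce
  rw [hε n e j]

/-- equivariant maps of the sphere of dimension zero -/
theorem sph0 (T : Type) [TopologicalSpace T] (ν : C(T, T)) (hν : ∀ y, ν (ν y) = y) (y : T) :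
    ∃ g : C(Sph 0, T), ∀ x, g (-x) = ν (g x) := by
  have hne : ∀ x : Sph 0, x.1 0 ≠ 0 := by
    intro x hx
    have h1 : ‖x.1‖ = 1 := by simpa using x.2
    have : x.1 = 0 := by
      ext i
      fin_cases i
      simpa using hx
    rw [this] at h1
    simp at h1
  have hc : Continuous fun x : Sph 0 => x.1 0 := by
    exact (continuous_apply (0 : Fin 1)).comp
      ((PiLp.continuous_ofLp 2 _).comp continuous_subtype_val)
  refine ⟨⟨fun x => if 0 ≤ x.1 0 then y else ν y, ?_⟩, fun x => ?_⟩
  · refine Continuous.if_le continuous_const continuous_const continuous_const hc ?_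
    intro x hx
    exact absurd hx.symm (hne x)
  · have hneg : (-x : Sph 0).1 0 = -(x.1 0) := rfl
    simp only [ContinuousMap.coe_mk, hneg]
    rcases lt_or_gt_of_ne (hne x) with h | h
    · rw [if_pos (by linarith), if_neg (not_le.2 h), hν]
    · rw [if_neg (by linarith), if_pos h.le]

/-- pull-back along a map into the subset is trivial -/
theorem pull_triv {D D' : Type} [TopologicalSpace D] [TopologicalSpace D'] {B : Set D} (B' : Set D')
    {Y : Type} [TopologicalSpace Y] {y0 : Y} (φ : C(D', D)) (h : ∀ d, φ d ∈ B)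
    (x : LG D B Y y0) : LG.pull B' φ (fun b _ => h b) x = 1 := by
  induction x using Quotient.inductionOn with
  | h p =>
    show FundamentalGroup.fromPath _ = FundamentalGroup.fromPath _
    change Path.Homotopic.Quotient.mk _ = Path.Homotopic.Quotient.mk _
    congr 1
    ext t
    refine Subtype.ext (ContinuousMap.ext fun d => ?_)
    exact (p t).2 _ (h d)

end

end Pool.Agent.H370R3.BX
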