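import Pool.Agent.H370R3.BX.Asm1

set_option autoImplicit false

open Set Filter Topology unitInterval

namespace Pool.Agent.H370R3.BX

noncomputable section

theorem pull_mk {D D' : Type} [TopologicalSpace D] [TopologicalSpace D'] {B : Set D} (B' : Set D')
    {Y : Type} [TopologicalSpace Y] {y0 : Y} (φ : C(D', D)) (hφ : ∀ b ∈ B', φ b ∈ B)
    (h : C(I × D, Y)) (h0 : ∀ d, h (0, d) = y0) (h1 : ∀ d, h (1, d) = y0)
    (hB : ∀ t, ∀ b ∈ B, h (t, b) = y0) :
    LG.pull B' φ hφ (LG.mk B h h0 h1 hB) =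
      LG.mk B' (h.comp ⟨fun p => (p.1, φ p.2), by fun_prop⟩) (fun d => h0 _) (fun d => h1 _)
        (fun t b hb => hB t _ (hφ b hb)) := by
  change Path.Homotopic.Quotient.mk _ = Path.Homotopic.Quotient.mk _
  congr 1

theorem one_eq_mk {D : Type} [TopologicalSpace D] (B : Set D)
    {Y : Type} [TopologicalSpace Y] {y0 : Y} :
    (1 : LG D B Y y0) = LG.mk B (ContinuousMap.const _ y0) (fun _ => rfl) (fun _ => rfl)
      (fun _ _ _ => rfl) := by
  change Path.Homotopic.Quotient.mk _ = Path.Homotopic.Quotient.mk _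
  congr 1

theorem pull_pull {D D' D'' : Type} [TopologicalSpace D] [TopologicalSpace D'] [TopologicalSpace D'']
    {B : Set D} (B' : Set D') (B'' : Set D'')
    {Y : Type} [TopologicalSpace Y] {y0 : Y} (φ : C(D', D)) (hφ : ∀ b ∈ B', φ b ∈ B)
    (ψ : C(D'', D')) (hψ : ∀ b ∈ B'', ψ b ∈ B') (x : LG D B Y y0) :
    LG.pull B'' ψ hψ (LG.pull B' φ hφ x) =
      LG.pull B'' (φ.comp ψ) (fun b hb => hφ _ (hψ b hb)) x := by
  induction x using Quotient.inductionOn with
  | h p =>
    change Path.Homotopic.Quotient.mk _ = Path.Homotopic.Quotient.mk _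
    congr 1

theorem su_inv_inv {A : Type} [TopologicalSpace A] (ν : C(A, A)) (hν : ∀ a, ν (ν a) = a) (y : Su A) :
    Su.inv ν (Su.inv ν y) = y := by
  induction y using Quot.ind with
  | mk p =>
    change Su.mk A (σ (σ p.1), ν (ν p.2)) = Su.mk A p
    rw [hν, symm_symm]

theorem pull_const (h2 : TaskMkEq) (P R : Type) [TopologicalSpace P] [CompactSpace P] [T2Space P]
    [TopologicalSpace R] (x0 : R) (B : Set P) (hB : ∀ b ∈ B, False) :
    LG.pull B (ContinuousMap.const P x0) (fun b hb => (hB b hb).elim) (suClass R x0) = 1 := by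
  rw [suClass, pull_mk, one_eq_mk]
  refine (h2 P B (Su R) _ _ _ _ _ _ _ _ _).2 ?_
  refine ⟨⟨fun p => Su.mk R (Set.projIcc (0 : ℝ) 1 zero_le_one
    (min (2 * (p.2.1 : ℝ)) (2 - 2 * (p.2.1 : ℝ)) * (1 - (p.1 : ℝ))), x0), ?_⟩, ?_, ?_, ?_, ?_, ?_⟩
  · refine (Su.mk R).continuous.comp (Continuous.prodMk ?_ continuous_const)
    exact continuous_projIcc.comp (by fun_prop)
  · intro t d
    simp only [ContinuousMap.coe_mk, ContinuousMap.comp_apply, ContinuousMap.const_apply]
    change _ = suLoop R x0 (t, x0)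
    unfold suLoop
    simp only [ContinuousMap.coe_mk]
    split_ifs with h
    · rw [min_eq_left (by linarith)]; simp
    · rw [min_eq_right (by linarith)]; simp
  · intro t d
    simp
  · intro s d
    simp
  · intro s d
    simp
  · intro s t b hb
    exact (hB b hb).elim

end

end Pool.Agent.H370R3.BX
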