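import Pool.Agent.H370R3.BX.Asm2

set_option autoImplicit false

open Set Filter Topology unitInterval

namespace Pool.Agent.H370R3.BX

noncomputable section

theorem exists_vertex {W : Type} [Fintype W] {S : Finset W → Prop} (h0 : S ∅) (h : Acyc2 W S 0) :
    ∃ w, S {w} := by
  classical
  obtain ⟨g, hg, hf⟩ := h (fun a => if a = ∅ then 1 else 0)
    (fun a ha => by
      by_cases h : a = ∅
      · subst h; exact ⟨h0, rfl⟩
      · simp [h] at ha)
    (fun a => by
      refine Finset.sum_eq_zero fun w _ => ?_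
      simp)
  by_contra hno
  push Not at hno
  have := hf ∅
  simp only [if_true] at this
  rw [Finset.sum_eq_zero] at this
  · exact one_ne_zero this
  · intro w _
    by_contra hne
    exact hno w (by simpa using (hg _ hne).1)

theorem exists_point {W : Type} [Fintype W] {S : Finset W → Prop} (h0 : S ∅) (h : Acyc2 W S 0) :
    ∃ x : RealC W S, x ∈ Skel W S 0 := by
  classical
  obtain ⟨w, hw⟩ := exists_vertex h0 h
  have hs : supp (Pi.single w (1 : ℝ)) = {w} := by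
    ext v
    simp [supp, Pi.single_apply]
  refine ⟨⟨Pi.single w 1, fun v => ?_, ?_, by rw [hs]; exact hw⟩, ?_⟩
  · by_cases h : v = w
    · subst h; simp
    · simp [h]
  · simp
  · change (supp (Pi.single w (1 : ℝ))).card ≤ 0 + 1
    rw [hs]; simp

/-- the restriction of the involution to a subset -/
def restr {A : Type} [TopologicalSpace A] (ν : C(A, A)) (X : Set A) (h : ∀ x ∈ X, ν x ∈ X) :
    C(↥X, ↥X) := ⟨fun x => ⟨ν x.1, h x.1 x.2⟩, (ν.continuous.comp continuous_subtype_val).subtype_mk _⟩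

theorem tower (h1 : TaskMkSurj) (h2 : TaskMkEq) (h3 : TaskHtpy) (hSA : TaskSuspA) (hSB : TaskSuspB)
    (hExt : TaskExt) (hCirc : TaskCircle) (hMain : MainLemma) (hOdd : TaskOdd)
    (hPath : TaskPath) (hBase : TaskBase) (hComp : TaskCompact)
    (W : Type) [Fintype W] [LinearOrder W] (S : Finset W → Prop) (hS : Down S) (hS0 : S ∅)
    (ν : C(RealC W S, RealC W S)) (hν : ∀ x, ν (ν x) = x)
    (K : SCx (RealC W S)) (hK : K.Ok) (hX : ∀ n, K.X n = Skel W S n)
    (ε : ∀ n, K.E n ≃ Sx W S n)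
    (hε : ∀ n (e : K.E (n + 1)) (j : Fin (n + 2)),
        (ε n (K.d n e j)).1 = face (n + 2) (ε (n + 1) e).1 (ε (n + 1) e).2.2 j)
    (hsk : ∀ n, ∀ x ∈ K.X n, ν x ∈ K.X n) (n : ℕ) (hac : ∀ m, m < n → Acyc2 W S m) :
    ∀ i, i + 1 ≤ n → ∃ g : C(Sph (i + 1), Su ↥(K.X i)),
      ∀ x, g (-x) = Su.inv (restr ν (K.X i) (hsk i)) (g x) := by
  have := (hComp W S hS).1
  have := (hComp W S hS).2
  have hmono : ∀ a b, a ≤ b → K.X a ⊆ K.X b := fun a b h => monotone_nat_of_le_succ hK.mono h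
  intro i
  induction i with
  | zero =>
    intro hi
    obtain ⟨x, hx⟩ := exists_point hS0 (hac 0 (by omega))
    exact hCirc _ _ (fun a => Subtype.ext (hν a.1)) ⟨⟨x, by rw [hX]; exact hx⟩⟩
  | succ i ih =>
    intro hi
    obtain ⟨g, hg⟩ := ih (by omega)
    obtain ⟨x, hx⟩ := exists_point hS0 (hac 0 (by omega))
    have hx0 : x ∈ K.X 0 := by rw [hX]; exact hx
    let x0 : ↥(K.X (i + 1)) := ⟨x, hmono 0 _ (Nat.zero_le _) hx0⟩
    have : CompactSpace ↥(K.X (i + 1)) := isCompact_iff_compactSpace.1 (hK.closed _).isCompact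
    have : CompactSpace ↥(K.X i) := isCompact_iff_compactSpace.1 (hK.closed _).isCompact
    have : CompactSpace ↥(K.X 0) := isCompact_iff_compactSpace.1 (hK.closed _).isCompact
    have hpc : IsPathConnected (K.X (i + 1)) := by
      rw [hX]
      exact hPath W S hS hS0 (hac 0 (by omega)) (hac 1 (by omega)) (i + 1) (by omega)
    have : PathConnectedSpace ↥(K.X (i + 1)) := isPathConnected_iff_pathConnectedSpace.1 hpc
    let νR := restr ν (K.X (i + 1)) (hsk (i + 1))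
    let νP := restr ν (K.X i) (hsk i)
    let u := suClass ↥(K.X (i + 1)) x0
    let u' : K.GG (i + 1) ∅ (Su ↥(K.X (i + 1))) (Su.mk _ (0, x0)) :=
      LG.pull {y : ↥(K.X (i + 1)) | y.1 ∈ (∅ : Set (RealC W S))} (ContinuousMap.id _)
        (fun _ hb => absurd hb (Set.notMem_empty _)) u
    have hbase : ∀ (X0 Xn : Set (RealC W S)), X0 = Skel W S 0 → Xn = Skel W S (i + 1) →
        IsPathConnected Xn → ∀ (h : X0 ⊆ Xn) (y0 : ↥Xn), ∃ Φ : C(I × ↥X0, ↥Xn),
          (∀ y, Φ (0, y) = ⟨y.1, h y.2⟩) ∧ ∀ y, Φ (1, y) = y0 := by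
      rintro _ _ rfl rfl hp h y0
      exact hBase W S (i + 1) hp h y0
    obtain ⟨Φ, hΦ0, hΦ1⟩ := hbase (K.X 0) (K.X (i + 1)) (hX _) (hX _) hpc
      (hmono 0 _ (Nat.zero_le _)) x0
    have hres0 : K.res (hmono 0 (i + 1) (Nat.zero_le _)) ∅ u' = 1 := by
      have e1 : K.res (hmono 0 (i + 1) (Nat.zero_le _)) ∅ u' =
          LG.pull {y : ↥(K.X 0) | y.1 ∈ (∅ : Set (RealC W S))} (K.inc (hmono 0 (i + 1) (Nat.zero_le _)))
            (fun _ hb => absurd hb (Set.notMem_empty _)) u := by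
        unfold SCx.res
        exact pull_pull _ _ _ _ _ _ _
      rw [e1]
      rw [h3 ↥(K.X (i + 1)) ↥(K.X 0) ∅ {y : ↥(K.X 0) | y.1 ∈ (∅ : Set (RealC W S))} _ _
        (K.inc (hmono 0 (i + 1) (Nat.zero_le _))) (ContinuousMap.const _ x0)
        (fun _ hb => absurd hb (Set.notMem_empty _)) (fun _ hb => absurd hb (Set.notMem_empty _))
        Φ hΦ0 hΦ1 (fun _ _ hb => absurd hb (Set.notMem_empty _)) u]
      exact pull_const h2 _ _ x0 _ (fun b hb => Set.notMem_empty _ hb)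
    obtain ⟨N, hN, hNu⟩ := hMain (RealC W S) K hK (i + 1) (fun m hm => hmono m _ hm)
      (Su ↥(K.X (i + 1))) (Su.mk _ (0, x0)) u' hres0
      (fun m hm => oddExact_of_oddS K ε hε m (hOdd W S hS m (fun l hl => hac l (by omega))))
      i (Nat.lt_succ_self i)
    have hj : (LG.pull ∅ (K.inc (hmono i (i + 1) (Nat.le_succ i)))
        (fun _ hb => absurd hb (Set.notMem_empty _)) u) ^ N =
        (1 : LG ↥(K.X i) ∅ (Su ↥(K.X (i + 1))) (Su.mk _ (0, x0))) := by
      have e2 : LG.pull (∅ : Set ↥(K.X i)) (ContinuousMap.id _)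
          (fun _ hb => absurd hb (Set.notMem_empty _))
          (K.res (hmono i (i + 1) (Nat.le_succ i)) ∅ (u' ^ N)) =
          (LG.pull ∅ (K.inc (hmono i (i + 1) (Nat.le_succ i)))
            (fun _ hb => absurd hb (Set.notMem_empty _)) u) ^ N := by
        rw [map_pow, map_pow]
        congr 1
      rw [← e2, hNu, map_one]
    obtain ⟨Γ, hΓ0, hΓ1, hΓs, H, hH0, hH1, hH2, hH3⟩ := hSA h1 h2 ↥(K.X i) ↥(K.X (i + 1)) νP νR
      (fun p => Subtype.ext (hν p.1)) (fun p => Subtype.ext (hν p.1))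
      (K.inc (hmono i (i + 1) (Nat.le_succ i))) (fun p => rfl) x0
      (PathConnectedSpace.joined _ _) N hN hj
    obtain ⟨g', hg', hnull⟩ := hSB ↥(K.X i) ↥(K.X (i + 1)) νP νR x0 Γ hΓ0 hΓ1 hΓs H hH0 hH1 hH2 hH3
    refine hExt (Su ↥(K.X (i + 1))) (Su.inv νR) (su_inv_inv νR fun a => Subtype.ext (hν a.1))
      (i + 1) (g'.comp g) (fun x => ?_) (hnull.comp_left g)
    rw [ContinuousMap.comp_apply, ContinuousMap.comp_apply, hg, hg']

end

end Pool.Agent.H370R3.BX
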