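import Pool.Agent.H370R3.BX.Asm3

set_option autoImplicit false

open Set Filter Topology unitInterval

namespace Pool.Agent.H370R3.BX

noncomputable section

theorem down_B0 {V : Type} (G : SimpleGraph V) : Down (B0 G) :=
  fun _ _ hab hb v w hv hw => hb v w (hab hv) (hab hw)

theorem down_BB {V : Type} (G : SimpleGraph V) : Down (BB G) := by
  rintro a b hab ⟨h0, ⟨w, hw⟩, ⟨v, hv⟩⟩
  exact ⟨down_B0 G a b hab h0, ⟨w, fun x hx => hw x (hab hx)⟩, ⟨v, fun x hx => hv x (hab hx)⟩⟩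

theorem mem_supp {W : Type} [Fintype W] (x : W → ℝ) (w : W) : w ∈ supp x ↔ x w ≠ 0 := by
  simp [supp]

theorem mem_supp_sw {V : Type} [Fintype V] (x : V × Bool → ℝ) (w : V × Bool) :
    w ∈ supp (x ∘ sw) ↔ sw w ∈ supp x := by
  rw [mem_supp, mem_supp]; rfl

theorem B0_sw {V : Type} [Fintype V] (G : SimpleGraph V) (x : V × Bool → ℝ) (h : B0 G (supp x)) :
    B0 G (supp (x ∘ sw)) := by
  intro v w hv hw
  rw [mem_supp_sw] at hv hw
  exact (h w v hw hv).symm

theorem BB_sw {V : Type} [Fintype V] (G : SimpleGraph V) (x : V × Bool → ℝ) (h : BB G (supp x)) :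
    BB G (supp (x ∘ sw)) := by
  obtain ⟨h0, ⟨w, hw⟩, ⟨v, hv⟩⟩ := h
  refine ⟨B0_sw G x h0, ⟨v, fun a ha => ?_⟩, ⟨w, fun a ha => ?_⟩⟩
  · rw [mem_supp_sw] at ha
    exact (hv a ha).symm
  · rw [mem_supp_sw] at ha
    exact (hw a ha).symm

theorem sw_sw {V : Type} (w : V × Bool) : sw (sw w) = w := by
  simp [sw]

theorem sum_sw {V : Type} [Fintype V] (x : V × Bool → ℝ) : ∑ w, (x ∘ sw) w = ∑ w, x w :=
  Fintype.sum_equiv (Function.Involutive.toPerm sw sw_sw) _ _ (fun _ => rfl)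

theorem card_supp_sw {V : Type} [Fintype V] (x : V × Bool → ℝ) :
    (supp (x ∘ sw)).card = (supp x).card := by
  refine Finset.card_bij (fun w _ => sw w) (fun w hw => (mem_supp_sw x w).1 hw) ?_ ?_
  · intro a _ b _ h
    have := congrArg sw h
    rwa [sw_sw, sw_sw] at this
  · intro b hb
    exact ⟨sw b, (mem_supp_sw x _).2 (by rwa [sw_sw]), sw_sw b⟩

/-- the involution of the realization -/
def swC {V : Type} [Fintype V] (S : Finset (V × Bool) → Prop)
    (h : ∀ x : V × Bool → ℝ, S (supp x) → S (supp (x ∘ sw))) :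
    C(RealC (V × Bool) S, RealC (V × Bool) S) where
  toFun x := ⟨x.1 ∘ sw, fun w => x.2.1 _, (sum_sw x.1).trans x.2.2.1, h x.1 x.2.2.2⟩
  continuous_toFun := by
    refine Continuous.subtype_mk ?_ _
    exact continuous_pi fun w => (continuous_apply (sw w)).comp continuous_subtype_val

theorem swC_swC {V : Type} [Fintype V] (S : Finset (V × Bool) → Prop)
    (h : ∀ x : V × Bool → ℝ, S (supp x) → S (supp (x ∘ sw))) (x : RealC (V × Bool) S) :
    swC S h (swC S h x) = x := by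
  refine Subtype.ext ?_
  change (x.1 ∘ sw) ∘ sw = x.1
  ext w
  simp [Function.comp, sw_sw]

theorem final_of (h1 : TaskMkSurj) (h2 : TaskMkEq) (h3 : TaskHtpy) (hSA : TaskSuspA)
    (hSB : TaskSuspB) (hExt : TaskExt) (hCirc : TaskCircle) (hMain : MainLemma) (hOdd : TaskOdd)
    (hPath : TaskPath) (hBase : TaskBase) (hComp : TaskCompact) (hReal : TaskReal)
    (hCoord : TaskCoord) (hBB : TaskBB) (hMap : TaskMap) : Final := by
  classical
  intro V _ G n hac
  have hB0 : B0 G ∅ := fun v w hv => by simp at hv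
  obtain ⟨w0, hw0⟩ := exists_vertex hB0 (hac 0 (Nat.zero_le _))
  haveI : Nonempty V := ⟨w0.1⟩
  let ν0 := swC (B0 G) (B0_sw G)
  rcases Nat.eq_zero_or_pos n with rfl | hn
  · obtain ⟨p, -⟩ := exists_point hB0 (hac 0 (Nat.zero_le _))
    obtain ⟨g, hg⟩ := sph0 _ ν0 (swC_swC _ _) p
    exact ⟨g, fun x => by rw [hg]; rfl⟩
  have hac' : ∀ m, m < n → Acyc2 (V × Bool) (BB G) m := hBB V G n hac
  letI : LinearOrder (V × Bool) := LinearOrder.lift' (Fintype.equivFin (V × Bool))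
    (Fintype.equivFin (V × Bool)).injective
  have hS0 : BB G ∅ := ⟨hB0, ⟨w0.1, fun v hv => by simp at hv⟩, ⟨w0.1, fun v hv => by simp at hv⟩⟩
  obtain ⟨K, hK, hX, ε, hε⟩ := hReal hCoord (V × Bool) (BB G) (down_BB G)
  let ν := swC (BB G) (BB_sw G)
  have hsk : ∀ n, ∀ x ∈ K.X n, ν x ∈ K.X n := by
    intro n x hx
    rw [hX] at hx ⊢
    change (supp (x.1 ∘ sw)).card ≤ n + 1
    rw [card_supp_sw]
    exact hx
  obtain ⟨m, rfl⟩ : ∃ m, n = m + 1 := ⟨n - 1, by omega⟩
  obtain ⟨g, hg⟩ := tower h1 h2 h3 hSA hSB hExt hCirc hMain hOdd hPath hBase hComp (V × Bool)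
    (BB G) (down_BB G) hS0 ν (swC_swC _ _) K hK hX ε hε hsk (m + 1) hac' m le_rfl
  obtain ⟨q, hq0, hq1, hqs⟩ := hMap V G
  let Q : C(Su ↥(K.X m), RealC (V × Bool) (B0 G)) :=
    { toFun := Quot.lift (fun p => q (p.1, p.2.1)) (by
        intro a b h
        cases h with
        | zero a b => exact hq0 _ _
        | one a b => exact hq1 _ _)
      continuous_toFun := by
        refine continuous_quot_lift _ ?_
        exact q.continuous.comp (continuous_fst.prodMk (continuous_subtype_val.comp continuous_snd)) }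
  have hQ : ∀ y, (Q (Su.inv (restr ν (K.X m) (hsk m)) y)).1 = (Q y).1 ∘ sw := by
    intro y
    induction y using Quot.ind with
    | mk p => exact hqs p.1 p.2.1 (ν p.2.1) rfl
  exact ⟨Q.comp g, fun x => by
    rw [ContinuousMap.comp_apply, ContinuousMap.comp_apply, hg, hQ]⟩

end

end Pool.Agent.H370R3.BX
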