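import Pool.Agent.H370R3.BX.All

set_option autoImplicit false

namespace Pool.Agent.H370R3.BX

theorem final_thm : Final := by
  have hOdd : TaskOdd := taskOdd_proof
  have hat : HAT := taskHAT Pool.Agent.H676R4.BXDegen.taskDegen_proof taskConn_proof
    (taskBox_proof taskHtpy_proof Cube.cube_ok
      (taskCellInj_proof taskMkSurj_proof taskMkEq_proof taskGlue_proof))
  have ret : TaskRetCells := taskRetCells_proof taskGlue_proof Cube.cube_ok
  have inj : TaskCellInj := taskCellInj_proof taskMkSurj_proof taskMkEq_proof taskGlue_proof
  have surj : TaskCellSurj := taskCellSurj_proof taskMkSurj_proof taskGlue_proof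
  exact final_of taskMkSurj_proof taskMkEq_proof taskHtpy_proof Pool.Agent.H183R3.SuspA.taskSuspA
    taskSuspB_proof taskExt_proof taskCircle_proof
    (Pool.Agent.H662R3.BX.taskMain taskZ_proof taskB_proof taskTwo_proof hat taskHtpy_proof ret
      taskGlue_proof surj inj taskComm taskExact_proof)
    hOdd taskPath_proof taskBase_proof taskCompact Pool.Agent.H886R3.BX.taskReal taskCoord_proof
    taskBB_proof taskMap_proof

end Pool.Agent.H370R3.BX
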