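import Pool.Agent.H370R3.BX.Stmts

set_option autoImplicit false
set_option maxHeartbeats 4000000

open Set Filter Topology unitInterval

namespace Pool.Agent.H370R3.BX.ConnAux

open Pool.Agent.H370R3.BX

noncomputable section

/-- pull-back on the class of a path -/
theorem pull_mk {D D' : Type} [TopologicalSpace D] [TopologicalSpace D'] {B : Set D} (B' : Set D')
    {Y : Type} [TopologicalSpace Y] {y0 : Y} (φ : C(D', D)) (h : ∀ b ∈ B', φ b ∈ B)
    (p : Path (RC.base D B Y y0) (RC.base D B Y y0)) :
    LG.pull B' φ h (FundamentalGroup.fromPath (Path.Homotopic.Quotient.mk p)) =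
      FundamentalGroup.fromPath (x := RC.base D' B' Y y0)
        (Path.Homotopic.Quotient.mk (p.map (RC.pull B B' Y y0 φ h).continuous)) := rfl

theorem exists_path {D : Type} [TopologicalSpace D] {B : Set D}
    {Y : Type} [TopologicalSpace Y] {y0 : Y} (x : LG D B Y y0) :
    ∃ p : Path (RC.base D B Y y0) (RC.base D B Y y0),
      x = FundamentalGroup.fromPath (Path.Homotopic.Quotient.mk p) := by
  obtain ⟨p, hp⟩ := Quotient.exists_rep (FundamentalGroup.toPath x)
  exact ⟨p, hp.symm⟩

/-- functoriality, in the form: two pull-backs which agree on maps agree -/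
theorem pull_pull {D D' D'' : Type} [TopologicalSpace D] [TopologicalSpace D']
    [TopologicalSpace D''] {B : Set D} {B' : Set D'} (B'' : Set D'')
    {Y : Type} [TopologicalSpace Y] {y0 : Y} (φ : C(D', D)) (h : ∀ b ∈ B', φ b ∈ B)
    (ψ : C(D'', D')) (k : ∀ b ∈ B'', ψ b ∈ B') (x : LG D B Y y0) :
    LG.pull B'' ψ k (LG.pull B' φ h x) =
      LG.pull B'' (φ.comp ψ) (fun b hb => h _ (k b hb)) x := by
  obtain ⟨p, rfl⟩ := exists_path x
  rfl

theorem pull_id {D : Type} [TopologicalSpace D] {B : Set D}
    {Y : Type} [TopologicalSpace Y] {y0 : Y} (φ : C(D, D)) (h : ∀ b ∈ B, φ b ∈ B)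
    (hφ : ∀ d, φ d = d) (x : LG D B Y y0) : LG.pull B φ h x = x := by
  obtain rfl : φ = ContinuousMap.id D := ContinuousMap.ext hφ
  obtain ⟨p, rfl⟩ := exists_path x
  rfl

theorem pull_one {D D' : Type} [TopologicalSpace D] [TopologicalSpace D'] {B : Set D} (B' : Set D')
    {Y : Type} [TopologicalSpace Y] {y0 : Y} (φ : C(D', D)) (h : ∀ b ∈ B', φ b ∈ B)
    (hB : ∀ d, φ d ∈ B) (x : LG D B Y y0) : LG.pull B' φ h x = 1 := by
  obtain ⟨p, rfl⟩ := exists_path x
  rw [pull_mk]
  have : (p.map (RC.pull B B' Y y0 φ h).continuous : Path (RC.base D' B' Y y0)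
      (RC.base D' B' Y y0)) = Path.refl (RC.base D' B' Y y0) := by
    ext t
    apply Subtype.ext
    ext d
    exact (p t).2 _ (hB d)
  rw [this]
  rfl

/-- the connection -/
def conn (n : ℕ) (i : Fin n) : C(Fin (n + 1) → I, Fin n → I) where
  toFun t k := if k < i then t k.castSucc else if k = i then max (t i.castSucc) (t i.succ)
    else t k.succ
  continuous_toFun := by
    refine continuous_pi fun k => ?_
    by_cases h : k < i
    · simp only [h, if_true]
      exact continuous_apply _
    · by_cases h' : k = i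
      · simp only [h, h', if_false, if_true]
        subst h'
        simp only [lt_irrefl, if_false]
        exact (continuous_apply _).max (continuous_apply _)
      · simp only [h, h', if_false]
        exact continuous_apply _

theorem conn_lt {n : ℕ} {i k : Fin n} (h : k < i) (t : Fin (n + 1) → I) :
    conn n i t k = t k.castSucc := by
  simp [conn, h]

theorem conn_eq {n : ℕ} (i : Fin n) (t : Fin (n + 1) → I) :
    conn n i t i = max (t i.castSucc) (t i.succ) := by
  simp [conn]

theorem conn_gt {n : ℕ} {i k : Fin n} (h : i < k) (t : Fin (n + 1) → I) :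
    conn n i t k = t k.succ := by
  simp [conn, not_lt.2 h.le, h.ne']

/-- a coordinate different from the two special ones is seen by the connection -/
theorem conn_other {n : ℕ} (i : Fin n) (j : Fin (n + 1)) (h1 : j ≠ i.castSucc) (h2 : j ≠ i.succ) :
    ∃ k : Fin n, ∀ t, conn n i t k = t j := by
  rcases lt_or_gt_of_ne h1 with h | h
  · -- `j < i`
    have hj : (j : ℕ) < n := lt_trans (Fin.lt_def.1 h) i.2
    refine ⟨⟨j, hj⟩, fun t => ?_⟩
    rw [conn_lt (k := ⟨j, hj⟩) (by exact Fin.lt_def.1 h)]
    rfl
  · -- `j > i + 1`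
    have hj1 : (i : ℕ) < j := Fin.lt_def.1 h
    have hj2 : (j : ℕ) ≠ i + 1 := fun hh => h2 (Fin.ext hh)
    have hj3 := j.2
    refine ⟨⟨(j : ℕ) - 1, by omega⟩, fun t => ?_⟩
    rw [conn_gt (k := ⟨(j : ℕ) - 1, by omega⟩) (by rw [Fin.lt_def]; simp only []; omega)]
    congr 1
    apply Fin.ext
    simp only [Fin.val_succ]
    omega

theorem conn_mem {n : ℕ} (i : Fin n) (t : Fin (n + 1) → I) (ht : t ∈ bd2 (n + 1)) :
    conn n i t ∈ bdry n := by
  obtain ⟨a, b, hab, ha, hb⟩ := ht
  by_cases ha' : a = i.castSucc ∨ a = i.succ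
  · by_cases hb' : b = i.castSucc ∨ b = i.succ
    · refine ⟨i, ?_⟩
      rw [conn_eq]
      rcases ha' with rfl | rfl <;> rcases hb' with rfl | rfl
      · exact absurd rfl hab
      · rcases ha with ha | ha <;> rcases hb with hb | hb <;> simp [ha, hb]
      · rcases ha with ha | ha <;> rcases hb with hb | hb <;> simp [ha, hb]
      · exact absurd rfl hab
    · push Not at hb'
      obtain ⟨k, hk⟩ := conn_other i b hb'.1 hb'.2
      exact ⟨k, by rw [hk]; exact hb⟩
  · push Not at ha'
    obtain ⟨k, hk⟩ := conn_other i a ha'.1 ha'.2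
    exact ⟨k, by rw [hk]; exact ha⟩

theorem facet_self (n : ℕ) (i : Fin (n + 1)) (e : I) (t : Fin n → I) : facet n i e t i = e := by
  simp [facet]

theorem facet_succAbove (n : ℕ) (i : Fin (n + 1)) (e : I) (t : Fin n → I) (k : Fin n) :
    facet n i e t (i.succAbove k) = t k := by
  simp [facet]

theorem conn_facet_castSucc {n : ℕ} (i : Fin n) (t : Fin n → I) :
    conn n i (facet n i.castSucc 0 t) = t := by
  ext1 k
  rcases lt_trichotomy k i with h | h | h
  · rw [conn_lt h]
    have : k.castSucc = (i.castSucc).succAbove k := by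
      rw [Fin.succAbove_of_castSucc_lt]
      exact Fin.castSucc_lt_castSucc_iff.2 h
    rw [this, facet_succAbove]
  · subst h
    rw [conn_eq, facet_self]
    have : k.succ = (k.castSucc).succAbove k := by
      rw [Fin.succAbove_of_le_castSucc]
      exact le_rfl
    rw [this, facet_succAbove]
    exact max_eq_right bot_le
  · rw [conn_gt h]
    have : k.succ = (i.castSucc).succAbove k := by
      rw [Fin.succAbove_of_le_castSucc]
      exact Fin.castSucc_le_castSucc_iff.2 h.le
    rw [this, facet_succAbove]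

theorem conn_facet_succ {n : ℕ} (i : Fin n) (t : Fin n → I) :
    conn n i (facet n i.succ 0 t) = t := by
  ext1 k
  rcases lt_trichotomy k i with h | h | h
  · rw [conn_lt h]
    have : k.castSucc = (i.succ).succAbove k := by
      rw [Fin.succAbove_of_castSucc_lt]
      rw [Fin.lt_def] at h ⊢
      simp only [Fin.val_castSucc, Fin.val_succ]
      omega
    rw [this, facet_succAbove]
  · subst h
    rw [conn_eq, facet_self]
    have : k.castSucc = (k.succ).succAbove k := by
      rw [Fin.succAbove_of_castSucc_lt]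
      exact Fin.castSucc_lt_succ
    rw [this, facet_succAbove]
    exact max_eq_left bot_le
  · rw [conn_gt h]
    have : k.succ = (i.succ).succAbove k := by
      rw [Fin.succAbove_of_le_castSucc]
      rw [Fin.lt_def] at h
      rw [Fin.le_def]
      simp only [Fin.val_castSucc, Fin.val_succ]
      omega
    rw [this, facet_succAbove]

theorem conn_facet_mem {n : ℕ} (i : Fin n) (j : Fin (n + 1)) (e : I) (he : e = 0 ∨ e = 1)
    (h : (j ≠ i.castSucc ∧ j ≠ i.succ) ∨ e = 1) (t : Fin n → I) :
    conn n i (facet n j e t) ∈ bdry n := by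
  by_cases hj : j ≠ i.castSucc ∧ j ≠ i.succ
  · obtain ⟨k, hk⟩ := conn_other i j hj.1 hj.2
    exact ⟨k, by rw [hk, facet_self]; exact he⟩
  · have he1 : e = 1 := h.resolve_left hj
    subst he1
    refine ⟨i, Or.inr ?_⟩
    rw [conn_eq]
    by_cases h1 : j = i.castSucc
    · subst h1
      rw [facet_self]
      exact max_eq_left le_top
    · have h2 : j = i.succ := by
        by_contra h2
        exact hj ⟨h1, h2⟩
      subst h2
      rw [facet_self]
      exact max_eq_right le_top

end

end Pool.Agent.H370R3.BX.ConnAux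

namespace Pool.Agent.H370R3.BX

open ConnAux

theorem taskConn_proof : TaskConn := by
  intro n Y _ y0 i a
  refine ⟨LG.pull (bd2 (n + 1)) (conn n i) (conn_mem i) a, ?_, ?_, ?_, ?_⟩
  · unfold fc0
    rw [pull_pull]
    exact pull_id _ _ (fun d => conn_facet_castSucc i d) a
  · unfold fc0
    rw [pull_pull]
    exact pull_id _ _ (fun d => conn_facet_succ i d) a
  · intro j h1 h2
    unfold fc0
    rw [pull_pull]
    exact pull_one _ _ _ (fun d => conn_facet_mem i j 0 (Or.inl rfl) (Or.inl ⟨h1, h2⟩) d) a
  · intro j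
    unfold fc1
    rw [pull_pull]
    exact pull_one _ _ _ (fun d => conn_facet_mem i j 1 (Or.inr rfl) (Or.inr rfl) d) a

end Pool.Agent.H370R3.BX
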