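import Mathlib
import Pool.Agent.H370R3.BX.Stmts

set_option autoImplicit false
set_option maxHeartbeats 4000000

open Set Filter Topology unitInterval

namespace Pool.Agent.H370R3.BX

noncomputable section

namespace PathAux

variable {W : Type} [Fintype W] {S : Finset W → Prop}

theorem mem_supp (x : W → ℝ) (w : W) : w ∈ supp x ↔ x w ≠ 0 := by
  unfold supp; simp

open Classical in
/-- vertex -/
def pt (S : Finset W → Prop) (v : W) (h : S {v}) : RealC W S :=
  ⟨fun w => if w = v then 1 else 0, fun w => by dsimp only; split_ifs <;> norm_num,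
    by simp, by
      have : supp (fun w : W => if w = v then (1:ℝ) else 0) = {v} := by
        ext w; rw [mem_supp]; simp
      rw [this]; exact h⟩

open Classical in
theorem supp_pt (v : W) (h : S {v}) : supp (pt S v h).1 = {v} := by
  ext w; rw [mem_supp]; simp [pt]

open Classical in
theorem seg (hS : Down S) (n : ℕ) (x y : RealC W S) (T : Finset W) (hT : S T) (hc : T.card ≤ n + 1)
    (hx : supp x.1 ⊆ T) (hy : supp y.1 ⊆ T) : JoinedIn (Skel W S n) x y := by
  have hsupp : ∀ t : I, supp (fun w => (1 - (t : ℝ)) * x.1 w + (t : ℝ) * y.1 w) ⊆ T := by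
    intro t w hw
    rw [mem_supp] at hw
    by_contra h
    have h1 : x.1 w = 0 := by
      by_contra h1
      exact h (hx ((mem_supp _ _).2 h1))
    have h2 : y.1 w = 0 := by
      by_contra h1
      exact h (hy ((mem_supp _ _).2 h1))
    apply hw
    simp [h1, h2]
  let γ : I → RealC W S := fun t => ⟨fun w => (1 - (t : ℝ)) * x.1 w + (t : ℝ) * y.1 w, by
      intro w
      have h1 := x.2.1 w
      have h2 := y.2.1 w
      have h3 : 0 ≤ 1 - (t : ℝ) := by linarith [t.2.2]
      have h4 : 0 ≤ (t : ℝ) := t.2.1
      positivity, by
      rw [Finset.sum_add_distrib, ← Finset.mul_sum, ← Finset.mul_sum, x.2.2.1, y.2.2.1]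
      ring, hS _ _ (hsupp t) hT⟩
  have hγ : Continuous γ := by
    refine Continuous.subtype_mk ?_ _
    refine continuous_pi fun w => ?_
    fun_prop
  refine ⟨⟨⟨γ, hγ⟩, ?_, ?_⟩, ?_⟩
  · apply Subtype.ext
    funext w
    simp [γ]
  · apply Subtype.ext
    funext w
    simp [γ]
  · intro t
    show (supp (γ t).1).card ≤ n + 1
    exact le_trans (Finset.card_le_card (hsupp t)) hc

theorem exists_mem_supp (x : RealC W S) : ∃ v, v ∈ supp x.1 := by
  by_contra h
  push Not at h
  have h1 : ∀ w, x.1 w = 0 := by
    intro w
    by_contra h2
    exact h w ((mem_supp _ _).2 h2)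
  have h2 := x.2.2.1
  simp [h1] at h2

end PathAux

open PathAux

open Classical in
theorem taskPath_proof : TaskPath := by
  intro W _ S hS hE h0 h1 n hn
  -- a vertex
  obtain ⟨v0, hv0⟩ : ∃ v, S {v} := by
    obtain ⟨g, hg, hgf⟩ := h0 (fun a => if a = ∅ then 1 else 0) (by
      intro a ha
      have : a = ∅ := by
        by_contra h
        simp [h] at ha
      subst this
      exact ⟨hE, rfl⟩) (by
      intro a
      apply Finset.sum_eq_zero
      intro w _
      simp)
    have h2 := hgf ∅
    simp only [if_true] at h2
    by_contra h3
    push Not at h3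
    have h4 : ∑ w ∈ Finset.univ \ (∅ : Finset W), g (insert w ∅) = 0 := by
      apply Finset.sum_eq_zero
      intro w _
      by_contra h5
      have := (hg _ h5).1
      exact h3 w (by simpa using this)
    rw [h4] at h2
    exact one_ne_zero h2
  -- all vertices are joined to v0
  have key : ∀ w (hw : S {w}), JoinedIn (Skel W S n) (pt S v0 hv0) (pt S w hw) := by
    intro w hw
    by_contra hcon
    have hne : w ≠ v0 := by
      rintro rfl
      exact hcon (JoinedIn.refl (by
        show (supp (pt S w hw).1).card ≤ n + 1
        rw [supp_pt]; simp))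
    let R : W → Prop := fun u => ∃ h : S {u}, JoinedIn (Skel W S n) (pt S v0 hv0) (pt S u h)
    have hR0 : R v0 := ⟨hv0, JoinedIn.refl (by
        show (supp (pt S v0 hv0).1).card ≤ n + 1
        rw [supp_pt]; simp)⟩
    have hRw : ¬ R w := by
      rintro ⟨h, hj⟩
      exact hcon hj
    have hRe : ∀ u x, R u → S {x, u} → R x := by
      rintro u x ⟨hu, hj⟩ hxu
      have hx : S {x} := hS _ _ (by simp) hxu
      refine ⟨hx, hj.trans ?_⟩
      refine seg hS n _ _ {x, u} hxu ?_ ?_ ?_
      · exact le_trans (Finset.card_le_two) (by omega)
      · rw [supp_pt]; simp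
      · rw [supp_pt]; simp
    obtain ⟨g, hg, hgf⟩ := h1 (fun a => if a = {v0} ∨ a = {w} then 1 else 0) (by
      intro a ha
      have : a = {v0} ∨ a = {w} := by
        by_contra h
        simp [h] at ha
      rcases this with rfl | rfl
      · exact ⟨hv0, by simp⟩
      · exact ⟨hw, by simp⟩) (by
      intro a
      by_cases ha : a = ∅
      · subst ha
        have h5 : ∀ u : W, (if (insert u (∅ : Finset W)) = {v0} ∨ (insert u (∅ : Finset W)) = {w} then (1 : ZMod 2) else 0)
            = (if u = v0 then 1 else 0) + (if u = w then 1 else 0) := by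
          intro u
          by_cases h6 : u = v0
          · subst h6
            simp [hne.symm]
          · by_cases h7 : u = w
            · subst h7
              simp [hne]
            · simp [h6, h7]
        rw [Finset.sum_congr rfl (fun u _ => h5 u), Finset.sum_add_distrib]
        simp
        decide
      · apply Finset.sum_eq_zero
        intro u hu
        have h8 : 2 ≤ (insert u a).card := by
          rw [Finset.card_insert_of_notMem (by simpa using hu)]
          have := Finset.card_pos.2 (Finset.nonempty_iff_ne_empty.2 ha)
          omega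
        have h9 : ¬ (insert u a = {v0} ∨ insert u a = {w}) := by
          rintro (h | h) <;> rw [h] at h8 <;> simp at h8
        rw [if_neg h9])
    -- sum over the component
    have hsum1 : ∑ u ∈ Finset.univ.filter R, (if ({u} : Finset W) = {v0} ∨ ({u} : Finset W) = {w} then (1 : ZMod 2) else 0) = 1 := by
      rw [Finset.sum_eq_single v0]
      · simp
      · intro u hu hne'
        have hu' : R u := by simpa using hu
        have : u ≠ w := by
          rintro rfl
          exact hRw hu'
        simp [hne', this]
      · intro h
        exact absurd (by simpa using hR0) h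
    have hsum2 : ∑ u ∈ Finset.univ.filter R, (if ({u} : Finset W) = {v0} ∨ ({u} : Finset W) = {w} then (1 : ZMod 2) else 0)
        = ∑ u ∈ Finset.univ.filter R, ∑ x ∈ Finset.univ.filter R, (if x = u then 0 else g {x, u}) := by
      apply Finset.sum_congr rfl
      intro u hu
      have hu' : R u := by simpa using hu
      have h10 := hgf {u}
      rw [h10]
      rw [Finset.sum_filter, ← Finset.sum_subset (Finset.sdiff_subset : Finset.univ \ {u} ⊆ Finset.univ)]
      · apply Finset.sum_congr rfl
        intro x hx
        have hxu : x ≠ u := by simpa using hx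
        by_cases hRx : R x
        · rw [if_pos hRx, if_neg hxu]
        · rw [if_neg hRx]
          by_contra h11
          exact hRx (hRe u x hu' (hg _ h11).1)
      · intro x _ hx
        have : x = u := by simpa using hx
        subst this
        simp
    have hsum3 : ∑ u ∈ Finset.univ.filter R, ∑ x ∈ Finset.univ.filter R, (if x = u then 0 else g {x, u}) = 0 := by
      rw [← Finset.sum_product']
      apply Finset.sum_involution (fun p _ => (p.2, p.1))
      · rintro ⟨u, x⟩ _
        dsimp only
        by_cases hxu : x = u
        · subst hxu; simp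
        · rw [if_neg hxu, if_neg (Ne.symm hxu), Finset.pair_comm x u]
          exact CharTwo.add_self_eq_zero _
      · rintro ⟨u, x⟩ _ hne' h12
        dsimp only at hne' h12
        have : x = u := by
          have := congrArg Prod.fst h12
          exact this
        exact hne' (if_pos this)
      · rintro ⟨u, x⟩ h
        simp only [Finset.mem_product] at h ⊢
        exact ⟨h.2, h.1⟩
      · rintro ⟨u, x⟩ _
        rfl
    rw [hsum2, hsum3] at hsum1
    exact zero_ne_one hsum1
  refine ⟨pt S v0 hv0, ?_, ?_⟩
  · show (supp (pt S v0 hv0).1).card ≤ n + 1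
    rw [supp_pt]; simp
  · intro y hy
    obtain ⟨v, hv⟩ := exists_mem_supp y
    have hSv : S {v} := hS _ _ (by simpa using hv) y.2.2.2
    refine (key v hSv).trans ?_
    refine seg hS n _ _ (supp y.1) y.2.2.2 hy ?_ (Finset.Subset.refl _)
    rw [supp_pt]
    simpa using hv

end

end Pool.Agent.H370R3.BX
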